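import Pool.Agent.H9.XM.Gr
import Mathlib.Topology.MetricSpace.ProperSpace.Lemmas
import Mathlib.Analysis.Normed.Ring.Lemmas
import Mathlib.Data.Fin.Tuple.Sort

/-!
# [H9 XM Car] every norm has an orthogonal basis which is a basis of the standard lattice

The set of all `B ∈ GL n O` is compact and not empty, and `B ↦ ∏ i, η (B i)` (rows) is continuous and positive, so it has a minimum
at some `B`. CLAIM: `η (x ᵥ* B) = max ‖x i‖ η (B i)`. `≤` is the ultrametric inequality. Suppose `<` for some `x`. Let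
`M = {i | ‖x i‖ η (B i) = max}` and `y` the sum of the `x i • B i`, `i ∈ M`: the dropped terms have `η < max`, so `η y < max`. Choose
`i₀ ∈ M` with `‖x i₀‖` maximal on `M` (`> 0`). Then `b' = (x i₀)⁻¹ • y` is a combination of the rows with integral coefficients,
the coefficient of row `i₀` is `1`, so `B' = B.updateRow i₀ b'` is integral with `det B' = det B` (`Matrix.det_updateRow_sum`), and
`η b' < η (B i₀)`: the product becomes smaller. Contradiction. `exists_sorted`: permute the rows
(`Tuple.sort`, `Matrix.submatrix`, the determinant changes by a sign).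
-/

set_option autoImplicit false

namespace Pool.Agent.H9.XM

open scoped NNReal

variable {K : Type} [NormedField K] [IsUltrametricDist K] {n : ℕ}

/-- `η` is a norm on the row vectors -/
structure IsNrm (η : (Fin n → K) → ℝ≥0) : Prop where
  add : ∀ x y, η (x + y) ≤ max (η x) (η y)
  smul : ∀ (c : K) x, η (c • x) = ‖c‖₊ * η x
  pos : ∀ x, x ≠ 0 → 0 < η x

private lemma eta_zero {η : (Fin n → K) → ℝ≥0} (hη : IsNrm η) : η 0 = 0 := by
  have h := hη.smul 0 0
  rw [nnnorm_zero, zero_mul, zero_smul] at h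
  exact h

private lemma eta_neg {η : (Fin n → K) → ℝ≥0} (hη : IsNrm η) (x : Fin n → K) : η (-x) = η x := by
  have h := hη.smul (-1) x
  rw [nnnorm_neg, nnnorm_one, one_mul, neg_one_smul] at h
  exact h

private lemma eta_sub {η : (Fin n → K) → ℝ≥0} (hη : IsNrm η) (x y : Fin n → K) :
    η (x - y) ≤ max (η x) (η y) := by
  rw [sub_eq_add_neg, ← eta_neg hη y]
  exact hη.add _ _

private lemma eta_sum {ι : Type} {η : (Fin n → K) → ℝ≥0} (hη : IsNrm η) (s : Finset ι)
    (f : ι → Fin n → K) : η (∑ i ∈ s, f i) ≤ s.sup fun i => η (f i) := by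
  classical
  induction s using Finset.induction_on with
  | empty =>
    rw [Finset.sum_empty, eta_zero hη]
    exact zero_le
  | insert a s ha ih =>
    rw [Finset.sum_insert ha, Finset.sup_insert]
    exact le_trans (hη.add _ _) (max_le_max le_rfl ih)

private lemma eta_le {η : (Fin n → K) → ℝ≥0} (hη : IsNrm η) (x : Fin n → K) :
    η x ≤ (Finset.univ.sup fun i : Fin n => η (Pi.single i 1)) * ‖x‖₊ := by
  have h1 : x = ∑ i, x i • (Pi.single i (1 : K) : Fin n → K) := by
    conv_lhs => rw [← Finset.univ_sum_single x]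
    refine Finset.sum_congr rfl fun i _ => ?_
    rw [← Pi.single_smul', smul_eq_mul, mul_one]
  have h2 := eta_sum hη Finset.univ fun i => x i • (Pi.single i (1 : K) : Fin n → K)
  rw [← h1] at h2
  refine le_trans h2 (Finset.sup_le fun i _ => ?_)
  rw [hη.smul, mul_comm]
  exact mul_le_mul' (Finset.le_sup (f := fun i : Fin n => η (Pi.single i 1)) (Finset.mem_univ i))
    (nnnorm_le_pi_nnnorm x i)

theorem IsNrm.continuous {η : (Fin n → K) → ℝ≥0} (hη : IsNrm η) : Continuous η := by
  have h : LipschitzWith (Finset.univ.sup fun i : Fin n => η (Pi.single i 1)) η := by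
    refine LipschitzWith.of_dist_le_mul fun x y => ?_
    have key : ∀ x y : Fin n → K,
        ((η x : ℝ≥0) : ℝ) - η y ≤ ((Finset.univ.sup fun i : Fin n => η (Pi.single i 1) : ℝ≥0) : ℝ) * dist x y := by
      intro x y
      have h1 : η x ≤ η (x - y) + η y := by
        have h2 := hη.add (x - y) y
        rw [sub_add_cancel] at h2
        exact le_trans h2 (max_le (le_add_of_nonneg_right zero_le) (le_add_of_nonneg_left zero_le))
      have h3 := eta_le hη (x - y)
      have h4 : η x ≤ (Finset.univ.sup fun i : Fin n => η (Pi.single i 1)) * ‖x - y‖₊ + η y :=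
        le_trans h1 (add_le_add h3 le_rfl)
      have h5 : (η x : ℝ) ≤ ((Finset.univ.sup fun i : Fin n => η (Pi.single i 1) : ℝ≥0) : ℝ) * ‖x - y‖ + η y := by
        exact_mod_cast h4
      rw [dist_eq_norm]
      linarith
    rw [NNReal.dist_eq]
    refine abs_sub_le_iff.2 ⟨key x y, ?_⟩
    rw [dist_comm]
    exact key y x
  exact h.continuous

theorem isCompact_GO [ProperSpace K] : IsCompact {g : Matrix (Fin n) (Fin n) K | GO g} := by
  have h1 : IsCompact (Set.pi Set.univ fun _ : Fin n => Set.pi Set.univ fun _ : Fin n =>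
      Metric.closedBall (0 : K) 1) :=
    isCompact_univ_pi fun _ => isCompact_univ_pi fun _ => isCompact_closedBall 0 1
  have hc1 : ∀ i j : Fin n, IsClosed {g : Matrix (Fin n) (Fin n) K | ‖g i j‖₊ ≤ 1} := by
    intro i j
    refine isClosed_le ?_ continuous_const
    exact continuous_nnnorm.comp ((continuous_apply j).comp (continuous_apply i))
  have hc2 : IsClosed {g : Matrix (Fin n) (Fin n) K | ‖g.det‖₊ = 1} := by
    refine isClosed_eq ?_ continuous_const
    exact continuous_nnnorm.comp (Continuous.matrix_det continuous_id)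
  have hc : IsClosed {g : Matrix (Fin n) (Fin n) K | GO g} := by
    have e : {g : Matrix (Fin n) (Fin n) K | GO g}
        = (⋂ i : Fin n, ⋂ j : Fin n, {g : Matrix (Fin n) (Fin n) K | ‖g i j‖₊ ≤ 1}) ∩
          {g : Matrix (Fin n) (Fin n) K | ‖g.det‖₊ = 1} := by
      ext g
      constructor
      · intro hg
        refine ⟨?_, hg.det⟩
        rw [Set.mem_iInter]
        intro i
        rw [Set.mem_iInter]
        intro j
        exact hg.int i j
      · rintro ⟨ha, hb⟩
        rw [Set.mem_iInter] at ha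
        refine ⟨fun i j => ?_, hb⟩
        have h2 := ha i
        rw [Set.mem_iInter] at h2
        exact h2 j
    rw [e]
    exact (isClosed_iInter fun i => isClosed_iInter fun j => hc1 i j).inter hc2
  refine IsCompact.of_isClosed_subset h1 hc ?_
  intro g hg i _ j _
  rw [mem_closedBall_zero_iff]
  have h2 := hg.int i j
  exact_mod_cast h2

private lemma key_exchange {η : (Fin n → K) → ℝ≥0} (hη : IsNrm η) {B : Matrix (Fin n) (Fin n) K}
    (hB : GO B) (hmin : ∀ B' : Matrix (Fin n) (Fin n) K, GO B' → ∏ i, η (B i) ≤ ∏ i, η (B' i))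
    (x : Fin n → K) :
    (Finset.univ.sup fun i => ‖x i‖₊ * η (B i)) ≤ η (Matrix.vecMul x B) := by
  classical
  by_contra hlt
  rw [not_le] at hlt
  set m := Finset.univ.sup fun i => ‖x i‖₊ * η (B i) with hm
  have hm0 : 0 < m := lt_of_le_of_lt zero_le hlt
  have hpos : ∀ i, 0 < η (B i) := by
    intro i
    refine hη.pos _ fun h0 => ?_
    have h1 : B.det = 0 := Matrix.det_eq_zero_of_row_eq_zero i fun j => congrFun h0 j
    exact hB.isUnit.ne_zero h1
  set M := Finset.univ.filter fun i => ‖x i‖₊ * η (B i) = m with hM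
  have hMne : M.Nonempty := by
    by_contra hne
    rw [Finset.not_nonempty_iff_eq_empty] at hne
    have h1 : m < m := by
      conv_lhs => rw [hm]
      rw [Finset.sup_lt_iff hm0]
      intro i _
      refine lt_of_le_of_ne (Finset.le_sup (f := fun i => ‖x i‖₊ * η (B i)) (Finset.mem_univ i)) ?_
      intro h2
      have h3 : i ∈ M := Finset.mem_filter.2 ⟨Finset.mem_univ i, h2⟩
      rw [hne] at h3
      exact absurd h3 (Finset.notMem_empty i)
    exact lt_irrefl _ h1
  have hval : ∀ i ∈ M, ‖x i‖₊ * η (B i) = m := fun i hi => (Finset.mem_filter.1 hi).2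
  obtain ⟨i0, hi0, hmax⟩ := Finset.exists_max_image M (fun i => ‖x i‖₊) hMne
  have hx0 : x i0 ≠ 0 := by
    intro h0
    have h1 := hval i0 hi0
    rw [h0, nnnorm_zero, zero_mul] at h1
    exact hm0.ne h1
  have hsplit : Matrix.vecMul x B = (∑ i ∈ M, x i • B i) +
      ∑ i ∈ Finset.univ.filter (fun i => ¬ ‖x i‖₊ * η (B i) = m), x i • B i := by
    rw [Matrix.vecMul_eq_sum, hM, Finset.sum_filter_add_sum_filter_not]
  have hrest : η (∑ i ∈ Finset.univ.filter (fun i => ¬ ‖x i‖₊ * η (B i) = m), x i • B i) < m := by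
    refine lt_of_le_of_lt (eta_sum hη _ _) ?_
    rw [Finset.sup_lt_iff hm0]
    intro i hi
    rw [hη.smul]
    exact lt_of_le_of_ne (Finset.le_sup (f := fun i => ‖x i‖₊ * η (B i)) (Finset.mem_univ i))
      (Finset.mem_filter.1 hi).2
  have hy : η (∑ i ∈ M, x i • B i) < m := by
    have h1 : (∑ i ∈ M, x i • B i) = Matrix.vecMul x B -
        ∑ i ∈ Finset.univ.filter (fun i => ¬ ‖x i‖₊ * η (B i) = m), x i • B i := by
      rw [hsplit, add_sub_cancel_right]
    rw [h1]
    exact lt_of_le_of_lt (eta_sub hη _ _) (max_lt hlt hrest)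
  set c : Fin n → K := fun i => if i ∈ M then (x i0)⁻¹ * x i else 0 with hc
  have hc0 : c i0 = 1 := by
    simp only [hc]
    rw [if_pos hi0, inv_mul_cancel₀ hx0]
  have hc1 : ∀ i, ‖c i‖₊ ≤ 1 := by
    intro i
    simp only [hc]
    by_cases hi : i ∈ M
    · rw [if_pos hi, nnnorm_mul, nnnorm_inv]
      have h1 := hmax i hi
      have h2 : ‖x i0‖₊ ≠ 0 := nnnorm_ne_zero_iff.2 hx0
      calc ‖x i0‖₊⁻¹ * ‖x i‖₊ ≤ ‖x i0‖₊⁻¹ * ‖x i0‖₊ := mul_le_mul' le_rfl h1
        _ = 1 := inv_mul_cancel₀ h2
    · rw [if_neg hi, nnnorm_zero]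
      exact zero_le_one
  have hcs : (∑ i, c i • B i) = (x i0)⁻¹ • ∑ i ∈ M, x i • B i := by
    rw [Finset.smul_sum]
    have h1 : ∀ i ∈ (Finset.univ : Finset (Fin n)),
        c i • B i = if i ∈ M then (x i0)⁻¹ • x i • B i else 0 := by
      intro i _
      simp only [hc]
      by_cases hi : i ∈ M
      · rw [if_pos hi, if_pos hi, smul_smul]
      · rw [if_neg hi, if_neg hi, zero_smul]
    rw [Finset.sum_congr rfl h1, Finset.sum_ite_mem, Finset.univ_inter]
  set B' : Matrix (Fin n) (Fin n) K := B.updateRow i0 (∑ i, c i • B i) with hB'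
  have hGO : GO B' := by
    refine ⟨fun i j => ?_, ?_⟩
    · by_cases hi : i = i0
      · rw [hi, hB', Matrix.updateRow_self, Finset.sum_apply]
        refine IsUltrametricDist.nnnorm_sum_le_of_forall_le fun k _ => ?_
        rw [Pi.smul_apply, smul_eq_mul, nnnorm_mul]
        exact mul_le_one' (hc1 k) (hB.int k j)
      · rw [hB', Matrix.updateRow_ne hi]
        exact hB.int i j
    · rw [hB', Matrix.det_updateRow_sum, hc0, one_smul]
      exact hB.det
  have hlt2 : η (B' i0) < η (B i0) := by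
    rw [hB', Matrix.updateRow_self, hcs, hη.smul, nnnorm_inv]
    have h2 : 0 < ‖x i0‖₊ := pos_iff_ne_zero.2 (nnnorm_ne_zero_iff.2 hx0)
    rw [← hval i0 hi0] at hy
    calc ‖x i0‖₊⁻¹ * η (∑ i ∈ M, x i • B i) < ‖x i0‖₊⁻¹ * (‖x i0‖₊ * η (B i0)) :=
          mul_lt_mul_of_pos_left hy (inv_pos.2 h2)
      _ = η (B i0) := by rw [← mul_assoc, inv_mul_cancel₀ h2.ne', one_mul]
  have hrow : ∀ i ∈ Finset.univ.erase i0, η (B' i) = η (B i) := by
    intro i hi
    rw [hB', Matrix.updateRow_ne (Finset.ne_of_mem_erase hi)]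
  have hle := hmin B' hGO
  rw [← Finset.mul_prod_erase Finset.univ (fun i => η (B i)) (Finset.mem_univ i0),
    ← Finset.mul_prod_erase Finset.univ (fun i => η (B' i)) (Finset.mem_univ i0),
    Finset.prod_congr rfl hrow] at hle
  have hprod : 0 < ∏ i ∈ Finset.univ.erase i0, η (B i) := Finset.prod_pos fun i _ => hpos i
  exact absurd hle (not_le.2 (mul_lt_mul_of_pos_right hlt2 hprod))

theorem exists_adapted [ProperSpace K] {η : (Fin n → K) → ℝ≥0} (hη : IsNrm η) :
    ∃ B : Matrix (Fin n) (Fin n) K, GO B ∧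
      ∀ x : Fin n → K, η (Matrix.vecMul x B) = Finset.univ.sup fun i => ‖x i‖₊ * η (B i) := by
  have hcont : Continuous fun B : Matrix (Fin n) (Fin n) K => ∏ i, η (B i) :=
    continuous_finset_prod _ fun i _ => hη.continuous.comp (continuous_apply i)
  obtain ⟨B, hB, hmin⟩ := (isCompact_GO (K := K) (n := n)).exists_isMinOn ⟨1, GO.one⟩
    hcont.continuousOn
  refine ⟨B, hB, fun x => le_antisymm ?_ (key_exchange hη hB (fun B' hB' => hmin hB') x)⟩
  rw [Matrix.vecMul_eq_sum]
  refine le_trans (eta_sum hη _ _) (Finset.sup_le fun i _ => ?_)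
  rw [hη.smul]
  exact Finset.le_sup (f := fun i => ‖x i‖₊ * η (B i)) (Finset.mem_univ i)

theorem exists_sorted [ProperSpace K] {η : (Fin n → K) → ℝ≥0} (hη : IsNrm η) :
    ∃ B : Matrix (Fin n) (Fin n) K, GO B ∧ (∀ i j : Fin n, i ≤ j → η (B j) ≤ η (B i)) ∧
      ∀ x : Fin n → K, η (Matrix.vecMul x B) = Finset.univ.sup fun i => ‖x i‖₊ * η (B i) := by
  obtain ⟨B, hB, hB2⟩ := exists_adapted hη
  set σ : Equiv.Perm (Fin n) := Fin.revPerm.trans (Tuple.sort fun i => η (B i)) with hσ
  have hrow : ∀ i, (B.submatrix σ id) i = B (σ i) := fun i => rfl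
  refine ⟨B.submatrix σ id, ⟨fun i j => hB.int _ _, ?_⟩, fun i j hij => ?_, fun x => ?_⟩
  · rw [Matrix.det_permute, nnnorm_mul, hB.det, mul_one]
    rcases Int.units_eq_one_or (Equiv.Perm.sign σ) with h2 | h2
    · rw [h2]; simp
    · rw [h2]; simp
  · rw [hrow, hrow]
    have h1 := Tuple.monotone_sort (fun i => η (B i)) (Fin.rev_le_rev.2 hij)
    exact h1
  · have h1 : Matrix.vecMul x (B.submatrix σ id) = Matrix.vecMul (x ∘ σ.symm) B := by
      rw [Matrix.vecMul_eq_sum, Matrix.vecMul_eq_sum]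
      rw [← Equiv.sum_comp σ (fun i => (x ∘ σ.symm) i • B i)]
      refine Finset.sum_congr rfl fun i _ => ?_
      rw [hrow, Function.comp_apply, Equiv.symm_apply_apply]
    rw [h1, hB2]
    refine le_antisymm (Finset.sup_le fun i _ => ?_) (Finset.sup_le fun i _ => ?_)
    · have h2 := Finset.le_sup (f := fun i => ‖x i‖₊ * η ((B.submatrix σ id) i)) (Finset.mem_univ (σ.symm i))
      rw [hrow, Equiv.apply_symm_apply] at h2
      exact h2
    · have h2 := Finset.le_sup (f := fun i => ‖(x ∘ σ.symm) i‖₊ * η (B i)) (Finset.mem_univ (σ i))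
      rw [Function.comp_apply, Equiv.symm_apply_apply] at h2
      exact h2

end Pool.Agent.H9.XM
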