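import Mathlib.Analysis.Normed.Field.Ultra
import Mathlib.Analysis.Normed.Group.Ultra
import Mathlib.LinearAlgebra.Matrix.Determinant.Basic
import Mathlib.LinearAlgebra.Matrix.NonsingularInverse
import Mathlib.Topology.MetricSpace.ProperSpace
import Mathlib.Topology.Instances.NNReal.Lemmas
import Mathlib.Topology.Instances.Matrix

/-!
# [H9 XM Defs] the compactified building of `GL n` over a local field: definitions

`K` is a local field: a proper ultrametric normed field with a uniformiser. Vectors are ROWS, a tuple of `r` vectors is a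
matrix with `r` rows, `g ∈ GL n K` acts on functions of such tuples by `(g • ξ) x = ξ (x * g)` up to a factor.

`dt r τ x = max over f : Fin r → Fin n of ‖det (columns f of x)‖ · wt r τ f`, and
`wt r τ f = ∏ l, τ l ^ (#{j | l ≤ f j} - (r - l))` (subtraction in `ℕ`): for `0 < τ l ≤ 1` this is the normalised `r`-th
exterior power of the norm `max |x i| α i`, `α i = ∏_(1 ≤ l ≤ i) τ l`. The number `τ l` (`1 ≤ l < n`) is `q ^ (-gap l)`, and
`τ l = 0` is an infinite gap; `τ 0` plays no role. The points of the compactification are the families `psi g τ`, `g` in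
`GL n O` (`GO g`), `0 ≤ τ l ≤ 1`.
-/

set_option autoImplicit false

namespace Pool.Agent.H9.XM

open scoped NNReal

/-- `π` is a uniformiser: the norm takes the values `0` and `‖π‖ ^ m` -/
structure IsUnif {K : Type} [NormedField K] (π : K) : Prop where
  pos : 0 < ‖π‖₊
  lt_one : ‖π‖₊ < 1
  exists_pow : ∀ x : K, x ≠ 0 → ∃ m : ℤ, ‖x‖₊ = ‖π‖₊ ^ m

/-- the weight of the columns `f` -/
def wt {n : ℕ} (r : ℕ) (τ : Fin n → ℝ≥0) (f : Fin r → Fin n) : ℝ≥0 :=
  ∏ l : Fin n, τ l ^ ((Finset.univ.filter fun j => l ≤ f j).card - (r - (l : ℕ)))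

/-- maximum of the `r`-minors of the `r` rows `x`, with weights -/
noncomputable def sw {K : Type} [NormedField K] {n : ℕ} (r : ℕ) (W : (Fin r → Fin n) → ℝ≥0)
    (x : Matrix (Fin r) (Fin n) K) : ℝ≥0 :=
  Finset.univ.sup fun f : Fin r → Fin n => ‖(x.submatrix id f).det‖₊ * W f

/-- the `r`-th seminorm of the standard point with gaps `τ` -/
noncomputable def dt {K : Type} [NormedField K] {n : ℕ} (r : ℕ) (τ : Fin n → ℝ≥0) (x : Matrix (Fin r) (Fin n) K) : ℝ≥0 :=
  sw r (wt r τ) x

/-- integral entries -/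
def IsInt {K : Type} [NormedField K] {r n : ℕ} (x : Matrix (Fin r) (Fin n) K) : Prop := ∀ i j, ‖x i j‖₊ ≤ 1

/-- `g ∈ GL n O` -/
structure GO {K : Type} [NormedField K] {n : ℕ} (g : Matrix (Fin n) (Fin n) K) : Prop where
  int : IsInt g
  det : ‖g.det‖₊ = 1

/-- families of functions of tuples -/
abbrev Fam (n : ℕ) (K : Type) : Type := ∀ r : ℕ, Matrix (Fin r) (Fin n) K → ℝ≥0

/-- the point with parameters `g`, `τ` -/
noncomputable def psi {K : Type} [NormedField K] {n : ℕ} (g : Matrix (Fin n) (Fin n) K) (τ : Fin n → ℝ≥0) : Fam n K :=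
  fun r x => dt r τ (x * g)

/-- the points of the compactification -/
def IsPt {K : Type} [NormedField K] {n : ℕ} (ξ : Fam n K) : Prop :=
  ∃ (g : Matrix (Fin n) (Fin n) K) (τ : Fin n → ℝ≥0), GO g ∧ (∀ l, τ l ≤ 1) ∧ ξ = psi g τ

/-- the compactification of the building of `GL n K` -/
def Xm (n : ℕ) (K : Type) [NormedField K] : Type := {ξ : Fam n K // IsPt ξ}

instance (n : ℕ) (K : Type) [NormedField K] : TopologicalSpace (Xm n K) := instTopologicalSpaceSubtype

instance (n : ℕ) (K : Type) [NormedField K] : T2Space (Xm n K) := inferInstanceAs (T2Space {ξ : Fam n K // IsPt ξ})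

section

variable {K : Type} [NormedField K] {n : ℕ}

theorem Xm.ext {ξ ζ : Xm n K} (h : ∀ r x, ξ.1 r x = ζ.1 r x) : ξ = ζ :=
  Subtype.ext (funext fun r => funext fun x => h r x)

theorem Xm.continuous_apply (r : ℕ) (x : Matrix (Fin r) (Fin n) K) : Continuous fun ξ : Xm n K => ξ.1 r x := by
  have h1 : Continuous fun ξ : Xm n K => ξ.1 r := (_root_.continuous_apply r).comp continuous_subtype_val
  exact (_root_.continuous_apply x).comp h1

theorem Xm.continuous_of {Y : Type*} [TopologicalSpace Y] {f : Y → Xm n K} (h : ∀ r x, Continuous fun y => (f y).1 r x) :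
    Continuous f :=
  Continuous.subtype_mk (continuous_pi fun r => continuous_pi fun x => h r x) _

theorem le_sw {r : ℕ} (W : (Fin r → Fin n) → ℝ≥0) (x : Matrix (Fin r) (Fin n) K) (f : Fin r → Fin n) :
    ‖(x.submatrix id f).det‖₊ * W f ≤ sw r W x :=
  Finset.le_sup (f := fun f : Fin r → Fin n => ‖(x.submatrix id f).det‖₊ * W f) (Finset.mem_univ f)

theorem sw_le {r : ℕ} {W : (Fin r → Fin n) → ℝ≥0} {x : Matrix (Fin r) (Fin n) K} {c : ℝ≥0}
    (h : ∀ f, ‖(x.submatrix id f).det‖₊ * W f ≤ c) : sw r W x ≤ c :=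
  Finset.sup_le fun f _ => h f

theorem exists_eq_sw {r : ℕ} [Nonempty (Fin r → Fin n)] (W : (Fin r → Fin n) → ℝ≥0) (x : Matrix (Fin r) (Fin n) K) :
    ∃ f, sw r W x = ‖(x.submatrix id f).det‖₊ * W f := by
  obtain ⟨f, -, hf⟩ := Finset.exists_mem_eq_sup Finset.univ Finset.univ_nonempty
    (fun f : Fin r → Fin n => ‖(x.submatrix id f).det‖₊ * W f)
  exact ⟨f, hf⟩

theorem wt_le_one {r : ℕ} {τ : Fin n → ℝ≥0} (hτ : ∀ l, τ l ≤ 1) (f : Fin r → Fin n) : wt r τ f ≤ 1 :=
  Finset.prod_le_one' fun l _ => pow_le_one₀ zero_le (hτ l)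

end

end Pool.Agent.H9.XM
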