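import Pool.Agent.H9.XM.Defs

/-!
# [H9 XM Wt] the weights

`cnt f l = #{j | l ≤ f j}`. Everything is a comparison of the exponents `cnt f l - (r - l)` of `τ l` for every `l`.
`wt_init`: `f j = j`: `cnt = r - l`. `wt_le_of`: the exponent of `τ l` in the product over `j` is `#{j | f j < l ≤ k j}`, and
`cnt k l ≤ cnt f l + #{j | f j < l ≤ k j}`, so `cnt k l - t ≤ (cnt f l - t) + #..` for every `t`; `τ l ≤ 1`.
`wt_le_prod`: for `i < l ≤ f a` the exponent is at least `1`, because `r - l = 0` and `a` is counted; all other factors are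
`≤ 1`. `wt_last`: `r = m`, `f j = j` for `j < m - 1` and `f (m-1) = m`: the exponent of `τ l` is `0` for `l < m` and for `l > m`
and is `1` for `l = m`. `wt_congr`: the exponent of `τ 0` is `r - r = 0`. `wt_al`: for an injective `f` one has
`r - l ≤ cnt f l` (the `j` with `f j < l` are at most `l`), so `(cnt f l - (r - l)) + (r - l) = cnt f l`, and
`∏ j, al τ (f j) = ∏ (l > 0), τ l ^ cnt f l`.
-/

set_option autoImplicit false

namespace Pool.Agent.H9.XM

open scoped NNReal

variable {r n : ℕ}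

private theorem card_ge (m : ℕ) : (Finset.univ.filter fun j : Fin r => m ≤ (j : ℕ)).card ≤ r - m := by
  have h1 : (Finset.univ.filter fun j : Fin r => m ≤ (j : ℕ)).card ≤ (Finset.Ico m r).card :=
    Finset.card_le_card_of_injOn (fun j : Fin r => (j : ℕ))
      (fun j hj => by
        have h2 : m ≤ (j : ℕ) := (Finset.mem_filter.1 hj).2
        exact Finset.mem_coe.2 (Finset.mem_Ico.2 ⟨h2, j.2⟩))
      (fun a _ b _ hab => Fin.ext hab)
  rwa [Nat.card_Ico] at h1

private theorem pow_prod (p : Fin r → Prop) [DecidablePred p] (x : ℝ≥0) :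
    ∏ j : Fin r, (if p j then x else 1) = x ^ (Finset.univ.filter p).card := by
  rw [Finset.prod_ite, Finset.prod_const, Finset.prod_const_one, mul_one]

private theorem prod_swap (p : Fin r → Fin n → Prop) [∀ j, DecidablePred (p j)]
    [∀ l, DecidablePred fun j => p j l] (τ : Fin n → ℝ≥0) :
    ∏ j, ∏ l ∈ Finset.univ.filter (p j), τ l =
      ∏ l, τ l ^ (Finset.univ.filter fun j => p j l).card := by
  have h1 : ∀ j, ∏ l ∈ Finset.univ.filter (p j), τ l = ∏ l, (if p j l then τ l else 1) := fun j =>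
    Finset.prod_filter _ _
  rw [Finset.prod_congr rfl fun j _ => h1 j, Finset.prod_comm]
  refine Finset.prod_congr rfl fun l _ => ?_
  rw [← pow_prod (fun j => p j l) (τ l)]

private theorem pow_sub_eq_one {x : ℝ≥0} {a b : ℕ} (h : a ≤ b) : x ^ (a - b) = 1 := by
  rw [Nat.sub_eq_zero_of_le h, pow_zero]

theorem wt_init (hr : r ≤ n) (τ : Fin n → ℝ≥0) : wt r τ (Fin.castLE hr) = 1 := by
  refine Finset.prod_eq_one fun l _ => pow_sub_eq_one ?_
  exact card_ge (l : ℕ)

theorem wt_le_of {τ : Fin n → ℝ≥0} (hτ : ∀ l, τ l ≤ 1) (f k : Fin r → Fin n) :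
    (∏ j, ∏ l ∈ Finset.univ.filter (fun l => f j < l ∧ l ≤ k j), τ l) * wt r τ f ≤ wt r τ k := by
  rw [prod_swap (fun j l => f j < l ∧ l ≤ k j) τ, wt, wt, ← Finset.prod_mul_distrib]
  refine Finset.prod_le_prod' fun l _ => ?_
  rw [← pow_add]
  refine pow_le_pow_of_le_one zero_le (hτ l) ?_
  have h1 : (Finset.univ.filter fun j => l ≤ k j).card ≤
      (Finset.univ.filter fun j => f j < l ∧ l ≤ k j).card +
        (Finset.univ.filter fun j => l ≤ f j).card := by
    refine le_trans (Finset.card_le_card ?_) (Finset.card_union_le _ _)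
    intro j hj
    have h2 : l ≤ k j := (Finset.mem_filter.1 hj).2
    rw [Finset.mem_union, Finset.mem_filter, Finset.mem_filter]
    rcases lt_or_ge (f j) l with h3 | h3
    · exact Or.inl ⟨Finset.mem_univ _, h3, h2⟩
    · exact Or.inr ⟨Finset.mem_univ _, h3⟩
  omega

theorem wt_le_prod {τ : Fin n → ℝ≥0} (hτ : ∀ l, τ l ≤ 1) (f : Fin r → Fin n) {i : Fin n} (hr : r ≤ (i : ℕ) + 1)
    (a : Fin r) : wt r τ f ≤ ∏ l ∈ Finset.univ.filter (fun l => i < l ∧ l ≤ f a), τ l := by
  rw [Finset.prod_filter, wt]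
  refine Finset.prod_le_prod' fun l _ => ?_
  split_ifs with h
  · have h1 : 0 < (Finset.univ.filter fun j => l ≤ f j).card :=
      Finset.card_pos.2 ⟨a, Finset.mem_filter.2 ⟨Finset.mem_univ _, h.2⟩⟩
    have h2 : (i : ℕ) < l := h.1
    calc τ l ^ ((Finset.univ.filter fun j => l ≤ f j).card - (r - (l : ℕ))) ≤ τ l ^ 1 :=
          pow_le_pow_of_le_one zero_le (hτ l) (by omega)
      _ = τ l := pow_one _
  · exact pow_le_one₀ zero_le (hτ l)

/-- if some column is `≥ r` then the weight is at most `τ r` -/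
theorem wt_le_single {τ : Fin n → ℝ≥0} (hτ : ∀ l, τ l ≤ 1) (f : Fin r → Fin n) {m : Fin n} (hm : (m : ℕ) = r)
    {a : Fin r} (ha : m ≤ f a) : wt r τ f ≤ τ m := by
  have h0 : ∏ l : Fin n, (if m = l then τ l else 1) = τ m := by
    rw [Finset.prod_ite_eq]
    exact if_pos (Finset.mem_univ _)
  rw [← h0, wt]
  refine Finset.prod_le_prod' fun l _ => ?_
  split_ifs with h
  · subst h
    have h1 : 0 < (Finset.univ.filter fun j => m ≤ f j).card :=
      Finset.card_pos.2 ⟨a, Finset.mem_filter.2 ⟨Finset.mem_univ _, ha⟩⟩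
    calc τ m ^ ((Finset.univ.filter fun j => m ≤ f j).card - (r - (m : ℕ))) ≤ τ m ^ 1 :=
          pow_le_pow_of_le_one zero_le (hτ m) (by omega)
      _ = τ m := pow_one _
  · exact pow_le_one₀ zero_le (hτ l)

/-- the weight of the columns `0, .., m - 2, m` -/
theorem wt_last {m : Fin n} (hm : 0 < (m : ℕ)) (τ : Fin n → ℝ≥0) :
    wt (m : ℕ) τ (fun j => if (j : ℕ) + 1 = m then m else Fin.castLE m.2.le j) = τ m := by
  have h0 : ∏ l : Fin n, (if m = l then τ l else 1) = τ m := by
    rw [Finset.prod_ite_eq]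
    exact if_pos (Finset.mem_univ _)
  rw [← h0, wt]
  refine Finset.prod_congr rfl fun l _ => ?_
  have hv : ∀ j : Fin (m : ℕ), ((if (j : ℕ) + 1 = m then m else Fin.castLE m.2.le j : Fin n) : ℕ) =
      if (j : ℕ) + 1 = m then (m : ℕ) else j := by
    intro j
    split_ifs <;> rfl
  split_ifs with h
  · subst h
    have h1 : (Finset.univ.filter fun j : Fin (m : ℕ) =>
        m ≤ (if (j : ℕ) + 1 = m then m else Fin.castLE m.2.le j : Fin n)) =
          {⟨(m : ℕ) - 1, by omega⟩} := by
      ext j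
      rw [Finset.mem_filter, Finset.mem_singleton, Fin.le_def, hv j, Fin.ext_iff]
      have h2 := j.2
      constructor
      · rintro ⟨-, h3⟩
        split_ifs at h3 with h4
        · show (j : ℕ) = (m : ℕ) - 1
          omega
        · omega
      · intro h3
        have h4 : (j : ℕ) = (m : ℕ) - 1 := h3
        refine ⟨Finset.mem_univ _, ?_⟩
        rw [if_pos (by omega)]
    rw [h1, Finset.card_singleton, Nat.sub_self, Nat.sub_zero, pow_one]
  · refine pow_sub_eq_one ?_
    have hne : (m : ℕ) ≠ l := fun h5 => h (Fin.ext h5)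
    rcases lt_or_ge (l : ℕ) (m : ℕ) with h6 | h6
    · refine le_trans (Finset.card_le_card ?_) (card_ge (r := (m : ℕ)) (l : ℕ))
      intro j hj
      have h7 := (Finset.mem_filter.1 hj).2
      rw [Fin.le_def, hv j] at h7
      refine Finset.mem_filter.2 ⟨Finset.mem_univ _, ?_⟩
      split_ifs at h7 with h8
      · omega
      · exact h7
    · have h9 : (Finset.univ.filter fun j : Fin (m : ℕ) =>
          l ≤ (if (j : ℕ) + 1 = m then m else Fin.castLE m.2.le j : Fin n)) = ∅ := by
        refine Finset.filter_eq_empty_iff.2 fun {j} _ h7 => ?_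
        rw [Fin.le_def, hv j] at h7
        have h2 := j.2
        split_ifs at h7 with h8 <;> omega
      rw [h9, Finset.card_empty]
      exact Nat.zero_le _

private theorem cnt_zero (f : Fin r → Fin n) {l : Fin n} (hl : ¬ 0 < (l : ℕ)) :
    (Finset.univ.filter fun j => l ≤ f j).card ≤ r - (l : ℕ) := by
  have h1 : (l : ℕ) = 0 := by omega
  rw [h1, Nat.sub_zero]
  refine le_trans (Finset.card_le_univ _) ?_
  rw [Fintype.card_fin]

theorem wt_congr {τ τ' : Fin n → ℝ≥0} (h : ∀ l : Fin n, 0 < (l : ℕ) → τ l = τ' l) (f : Fin r → Fin n) :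
    wt r τ f = wt r τ' f := by
  refine Finset.prod_congr rfl fun l _ => ?_
  by_cases hl : 0 < (l : ℕ)
  · rw [h l hl]
  · rw [pow_sub_eq_one (cnt_zero f hl), pow_sub_eq_one (cnt_zero f hl)]

theorem wt_perm (τ : Fin n → ℝ≥0) (f : Fin r → Fin n) (σ : Equiv.Perm (Fin r)) : wt r τ (f ∘ σ) = wt r τ f := by
  refine Finset.prod_congr rfl fun l _ => ?_
  have h1 : (Finset.univ.filter fun j => l ≤ (f ∘ σ) j).card =
      (Finset.univ.filter fun j => l ≤ f j).card := by
    refine Finset.card_equiv σ fun j => ?_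
    rw [Finset.mem_filter, Finset.mem_filter]
    exact ⟨fun h => ⟨Finset.mem_univ _, h.2⟩, fun h => ⟨Finset.mem_univ _, h.2⟩⟩
  rw [h1]

/-- the weights of the norm -/
def al (τ : Fin n → ℝ≥0) (i : Fin n) : ℝ≥0 := ∏ l ∈ Finset.univ.filter (fun l : Fin n => 0 < (l : ℕ) ∧ l ≤ i), τ l

theorem wt_al (τ : Fin n → ℝ≥0) {f : Fin r → Fin n} (hf : Function.Injective f) :
    ∏ j, al τ (f j) = (∏ l ∈ Finset.univ.filter (fun l : Fin n => 0 < (l : ℕ)), τ l ^ (r - (l : ℕ))) * wt r τ f := by
  have h1 : ∏ j, al τ (f j) = ∏ j, ∏ l ∈ Finset.univ.filter (fun l : Fin n => 0 < (l : ℕ) ∧ l ≤ f j), τ l :=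
    rfl
  rw [h1, prod_swap (fun j l => 0 < (l : ℕ) ∧ l ≤ f j) τ, Finset.prod_filter, wt,
    ← Finset.prod_mul_distrib]
  refine Finset.prod_congr rfl fun l _ => ?_
  by_cases hl : 0 < (l : ℕ)
  · have h2 : (Finset.univ.filter fun j => 0 < (l : ℕ) ∧ l ≤ f j) =
        (Finset.univ.filter fun j => l ≤ f j) := by
      refine Finset.filter_congr fun j _ => ?_
      exact ⟨fun h => h.2, fun h => ⟨hl, h⟩⟩
    rw [h2, if_pos hl, ← pow_add]
    have h3 : r - (l : ℕ) ≤ (Finset.univ.filter fun j => l ≤ f j).card := by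
      have h4 : (Finset.univ.filter fun j => ¬ l ≤ f j).card ≤ (Finset.range (l : ℕ)).card :=
        Finset.card_le_card_of_injOn (fun j : Fin r => ((f j : Fin n) : ℕ))
          (fun j hj => by
            have h5 : ¬ l ≤ f j := (Finset.mem_filter.1 hj).2
            exact Finset.mem_coe.2 (Finset.mem_range.2 (not_le.1 h5)))
          (fun a _ b _ hab => hf (Fin.ext hab))
      have h6 := Finset.card_filter_add_card_filter_not (s := (Finset.univ : Finset (Fin r)))
        (fun j => l ≤ f j)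
      rw [Finset.card_range] at h4
      rw [Finset.card_univ, Fintype.card_fin] at h6
      omega
    rw [Nat.add_sub_cancel' h3]
  · have h2 : (Finset.univ.filter fun j => 0 < (l : ℕ) ∧ l ≤ f j) = ∅ := by
      refine Finset.filter_eq_empty_iff.2 fun {j} _ h => hl h.1
    rw [h2, Finset.card_empty, pow_zero, if_neg hl, pow_sub_eq_one (cnt_zero f hl), mul_one]

end Pool.Agent.H9.XM
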