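import Pool.Agent.H9.XM.Ex
import Pool.Agent.H9.XM.Wt

/-!
# [H9 XM Gr] integral matrices, normalisation of the points

`GO g⁻¹`: `g⁻¹ = (det g)⁻¹ • adjugate g`, the entries of the adjugate are determinants of integral matrices
(`Matrix.adjugate_apply`, ultrametric inequality for `Matrix.det_apply`). `psi_le_one`: the minors of the integral matrix `x * g`
are integral, weights `≤ 1`. `exists_psi_eq_one`: by `psi_le_one` all values are `≤ 1`; `E = rows 0..r-1 of the identity`,
`dt r τ E ≥ 1` (`wt_init`); `E = (E * g⁻¹) * g` and `E * g⁻¹ = A * 1` with `A = E * g⁻¹` integral, so by `sw_row_le` (for `W` =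
weights, applied to `(A * g)`) `1 ≤ max over F of psi g τ r (rows F of the identity)`.
`psi_row_le`: `sw_row_le` for `A` integral. `dt_single`: `det_mul`-free: the rows `F` of the identity, columns `f`: if the minor is
not `0` then `f = F ∘ σ` for a permutation `σ` (pigeonhole: every `F i` must be some `f j`), so the weight is `wt r τ F`.
-/

set_option autoImplicit false

namespace Pool.Agent.H9.XM

open scoped NNReal

variable {K : Type} [NormedField K] [IsUltrametricDist K] {r s n : ℕ}

theorem nnnorm_det_le_one {x : Matrix (Fin r) (Fin r) K} (h : IsInt x) : ‖x.det‖₊ ≤ 1 := by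
  rw [Matrix.det_apply]
  refine IsUltrametricDist.nnnorm_sum_le_of_forall_le fun σ _ => ?_
  have h1 : ‖∏ i, x (σ i) i‖₊ ≤ 1 := by
    rw [nnnorm_prod]
    exact Finset.prod_le_one' fun i _ => h _ _
  rcases Int.units_eq_one_or (Equiv.Perm.sign σ) with h2 | h2
  · rw [h2, one_smul]; exact h1
  · rw [h2, Units.neg_smul, one_smul, nnnorm_neg]; exact h1

theorem IsInt.mul {A : Matrix (Fin r) (Fin s) K} {B : Matrix (Fin s) (Fin n) K} (hA : IsInt A) (hB : IsInt B) :
    IsInt (A * B) := by
  intro i j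
  rw [Matrix.mul_apply]
  refine IsUltrametricDist.nnnorm_sum_le_of_forall_le fun k _ => ?_
  rw [nnnorm_mul]
  exact mul_le_one' (hA i k) (hB k j)

theorem isInt_one : IsInt (1 : Matrix (Fin n) (Fin n) K) := by
  intro i j
  rw [Matrix.one_apply]
  by_cases h : i = j
  · rw [if_pos h, nnnorm_one]
  · rw [if_neg h, nnnorm_zero]; exact zero_le_one

theorem GO.one : GO (1 : Matrix (Fin n) (Fin n) K) := by
  exact ⟨isInt_one, by rw [Matrix.det_one, nnnorm_one]⟩

theorem GO.mul {g h : Matrix (Fin n) (Fin n) K} (hg : GO g) (hh : GO h) : GO (g * h) := by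
  exact ⟨hg.int.mul hh.int, by rw [Matrix.det_mul, nnnorm_mul, hg.det, hh.det, mul_one]⟩

theorem GO.isUnit {g : Matrix (Fin n) (Fin n) K} (hg : GO g) : IsUnit g.det := by
  rw [isUnit_iff_ne_zero]
  intro h
  have := hg.det
  rw [h, nnnorm_zero] at this
  exact zero_ne_one this

theorem GO.inv {g : Matrix (Fin n) (Fin n) K} (hg : GO g) : GO g⁻¹ := by
  have h0 : ‖(Ring.inverse g.det : K)‖₊ = 1 := by
    rw [Ring.inverse_eq_inv', nnnorm_inv, hg.det, inv_one]
  refine ⟨fun i j => ?_, ?_⟩
  · rw [Matrix.inv_def, Matrix.smul_apply, smul_eq_mul, nnnorm_mul, h0, one_mul, Matrix.adjugate_apply]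
    refine nnnorm_det_le_one fun a b => ?_
    by_cases ha : a = j
    · rw [ha, Matrix.updateRow_self]
      by_cases hb : b = i
      · rw [hb, Pi.single_eq_same, nnnorm_one]
      · rw [Pi.single_eq_of_ne hb, nnnorm_zero]; exact zero_le_one
    · rw [Matrix.updateRow_ne ha]; exact hg.int a b
  · rw [Matrix.det_nonsing_inv, h0]

/-- integral combinations of the rows -/
theorem dt_row_le {τ : Fin n → ℝ≥0} {A : Matrix (Fin r) (Fin s) K} (hA : IsInt A) {x : Matrix (Fin s) (Fin n) K} {c : ℝ≥0}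
    (h : ∀ k : Fin r → Fin s, dt r τ (x.submatrix k id) ≤ c) : dt r τ (A * x) ≤ c := by
  refine sw_row_le fun k => ?_
  have h1 : (∏ i, ‖A i (k i)‖₊) ≤ 1 := Finset.prod_le_one' fun i _ => hA _ _
  calc (∏ i, ‖A i (k i)‖₊) * sw r (wt r τ) (x.submatrix k id) ≤ 1 * sw r (wt r τ) (x.submatrix k id) :=
        mul_le_mul' h1 le_rfl
    _ = dt r τ (x.submatrix k id) := one_mul _
    _ ≤ c := h k

theorem psi_le_one {g : Matrix (Fin n) (Fin n) K} {τ : Fin n → ℝ≥0} (hg : GO g) (hτ : ∀ l, τ l ≤ 1)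
    {x : Matrix (Fin r) (Fin n) K} (hx : IsInt x) : psi g τ r x ≤ 1 := by
  refine sw_le fun f => ?_
  refine mul_le_one' (nnnorm_det_le_one fun i j => ?_) (wt_le_one hτ f)
  exact hx.mul hg.int i (f j)

/-- the value at the rows `F` of the identity -/
theorem dt_single_le {τ : Fin n → ℝ≥0} (F : Fin r → Fin n) :
    dt r τ ((1 : Matrix (Fin n) (Fin n) K).submatrix F id) ≤ wt r τ F := by
  refine sw_le fun f => ?_
  have hM : ∀ i j, (((1 : Matrix (Fin n) (Fin n) K).submatrix F id).submatrix id f) i j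
      = if F i = f j then 1 else 0 := fun i j => Matrix.one_apply
  by_cases h : ∃ σ : Equiv.Perm (Fin r), ∀ i, F (σ i) = f i
  · obtain ⟨σ, hσ⟩ := h
    have e1 : f = F ∘ σ := funext fun i => (hσ i).symm
    have e2 : wt r τ f = wt r τ F := by rw [e1]; exact wt_perm τ F σ
    rw [e2]
    have e3 : ‖(((1 : Matrix (Fin n) (Fin n) K).submatrix F id).submatrix id f).det‖₊ ≤ 1 :=
      nnnorm_det_le_one fun i j => isInt_one (F i) (f j)
    calc _ ≤ 1 * wt r τ F := mul_le_mul' e3 le_rfl
      _ = wt r τ F := one_mul _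
  · have e1 : (((1 : Matrix (Fin n) (Fin n) K).submatrix F id).submatrix id f).det = 0 := by
      rw [Matrix.det_apply]
      refine Finset.sum_eq_zero fun σ _ => ?_
      obtain ⟨i, hi⟩ := not_forall.mp (not_exists.mp h σ)
      rw [Finset.prod_eq_zero (Finset.mem_univ i), smul_zero]
      rw [hM, if_neg hi]
    rw [e1, nnnorm_zero, zero_mul]
    exact zero_le

theorem exists_psi_eq_one {g : Matrix (Fin n) (Fin n) K} {τ : Fin n → ℝ≥0} (hg : GO g) (hτ : ∀ l, τ l ≤ 1) (hr : r ≤ n) :
    ∃ F : Fin r → Fin n, psi g τ r ((1 : Matrix (Fin n) (Fin n) K).submatrix F id) = 1 := by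
  have : Nonempty (Fin r → Fin n) := ⟨Fin.castLE hr⟩
  obtain ⟨F, hF⟩ := Finite.exists_max fun F : Fin r → Fin n =>
    psi g τ r ((1 : Matrix (Fin n) (Fin n) K).submatrix F id)
  refine ⟨F, le_antisymm (psi_le_one hg hτ fun i j => isInt_one _ _) ?_⟩
  have e1 : ((1 : Matrix (Fin n) (Fin n) K).submatrix (Fin.castLE hr) id * g⁻¹) * g
      = (1 : Matrix (Fin n) (Fin n) K).submatrix (Fin.castLE hr) id := by
    rw [Matrix.mul_assoc, Matrix.nonsing_inv_mul g hg.isUnit, Matrix.mul_one]
  have hE : IsInt ((1 : Matrix (Fin n) (Fin n) K).submatrix (Fin.castLE hr) id) := fun i j => isInt_one _ _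
  have h1 : dt r τ ((1 : Matrix (Fin n) (Fin n) K).submatrix (Fin.castLE hr) id)
      ≤ psi g τ r ((1 : Matrix (Fin n) (Fin n) K).submatrix F id) := by
    rw [← e1]
    refine dt_row_le (hE.mul hg.inv.int) fun k => ?_
    have e2 : g.submatrix k id = (1 : Matrix (Fin n) (Fin n) K).submatrix k id * g := by
      ext i j
      rw [Matrix.mul_apply]
      simp [Matrix.submatrix_apply, Matrix.one_apply]
    rw [e2]
    exact hF k
  refine le_trans ?_ h1
  have h2 := le_sw (wt r τ) ((1 : Matrix (Fin n) (Fin n) K).submatrix (Fin.castLE hr) id) (Fin.castLE hr)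
  have e3 : (((1 : Matrix (Fin n) (Fin n) K).submatrix (Fin.castLE hr) id).submatrix id (Fin.castLE hr))
      = (1 : Matrix (Fin r) (Fin r) K) := by
    ext i j
    rw [Matrix.submatrix_apply, Matrix.submatrix_apply, Matrix.one_apply, Matrix.one_apply]
    by_cases hij : i = j
    · rw [if_pos hij, if_pos (by rw [hij]; rfl)]
    · rw [if_neg hij]
      exact if_neg fun h => hij (Fin.castLE_injective hr h)
  rw [e3, Matrix.det_one, nnnorm_one, one_mul, wt_init hr τ] at h2
  exact h2

/-- for `r > n` everything is zero -/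
theorem dt_eq_zero_of_lt {τ : Fin n → ℝ≥0} (hr : n < r) (x : Matrix (Fin r) (Fin n) K) : dt r τ x = 0 := by
  refine le_antisymm (sw_le fun f => ?_) zero_le
  have h : ¬ Function.Injective f := fun h => by
    have := Fintype.card_le_of_injective f h
    rw [Fintype.card_fin, Fintype.card_fin] at this
    omega
  rw [det_eq_zero x h, nnnorm_zero, zero_mul]

end Pool.Agent.H9.XM
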