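import Mathlib.Analysis.Normed.Field.Lemmas
import Mathlib.Topology.Order.Lattice
import Pool.Agent.H9.XM.Gr

/-!
# [H9 XM Co] compactness

`continuous_psi`: a finite supremum (`Finset.sup`, `Continuous.finset_sup_apply` or induction) of products of continuous
functions: `‖det‖₊` of a matrix with continuous entries, powers. `isCompact_par`: product of the set of integral matrices (a product
of closed unit balls of the proper space `K`, `isCompact_closedBall`, `isCompact_univ_pi`), intersected with the closed set
`‖det‖₊ = 1`, and of `Set.Icc 0 1` in `ℝ≥0`. `CompactSpace`: the set of the points is the image of `par` under a continuous map.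
Second countability: choose for every `r` a countable dense set `D r` of matrices (`Matrix (Fin r) (Fin n) K` is second countable:
`secondCountable_of_proper`, pi). The restriction of `Xm n K` to the countable set of all `(r, x)`, `x ∈ D r`, is continuous and
injective (every `psi g τ r` is continuous in `x`: two continuous functions which agree on a dense set are equal), so it is a
closed embedding of a compact space into a second countable space (`Continuous.isClosedEmbedding`, `IsEmbedding.secondCountableTopology`).
-/

set_option autoImplicit false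

namespace Pool.Agent.H9.XM

open scoped NNReal

variable {K : Type} [NormedField K] {n : ℕ}

private theorem continuous_sup_aux {Y : Type*} [TopologicalSpace Y] {r : ℕ} {M : Y → Matrix (Fin r) (Fin n) K}
    (hM : Continuous M) {T : Y → Fin n → ℝ≥0} (hT : Continuous T) : Continuous fun y => dt r (T y) (M y) := by
  unfold dt sw
  refine Continuous.finset_sup_apply fun f _ => ?_
  refine Continuous.mul ?_ ?_
  · exact continuous_nnnorm.comp (hM.matrix_submatrix id f).matrix_det
  · unfold wt
    exact continuous_finsetProd _ fun l _ => ((continuous_apply l).comp hT).pow _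

theorem continuous_psi (r : ℕ) (x : Matrix (Fin r) (Fin n) K) :
    Continuous fun p : Matrix (Fin n) (Fin n) K × (Fin n → ℝ≥0) => psi p.1 p.2 r x :=
  continuous_sup_aux (continuous_const.matrix_mul continuous_fst) continuous_snd

theorem continuous_psi_apply (g : Matrix (Fin n) (Fin n) K) (τ : Fin n → ℝ≥0) (r : ℕ) :
    Continuous fun x : Matrix (Fin r) (Fin n) K => psi g τ r x :=
  continuous_sup_aux (continuous_id.matrix_mul continuous_const) continuous_const

/-- the parameters -/
def par (n : ℕ) (K : Type) [NormedField K] : Set (Matrix (Fin n) (Fin n) K × (Fin n → ℝ≥0)) :=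
  {p | GO p.1 ∧ ∀ l, p.2 l ≤ 1}

private theorem isCompact_int [ProperSpace K] : IsCompact {g : Matrix (Fin n) (Fin n) K | IsInt g} := by
  have h1 : IsCompact (Set.pi Set.univ fun _ : Fin n => Set.pi Set.univ fun _ : Fin n => Metric.closedBall (0 : K) 1) :=
    isCompact_univ_pi fun _ => isCompact_univ_pi fun _ => isCompact_closedBall _ _
  have h2 : {g : Matrix (Fin n) (Fin n) K | IsInt g} =
      (Set.pi Set.univ fun _ : Fin n => Set.pi Set.univ fun _ : Fin n => Metric.closedBall (0 : K) 1) := by
    ext g
    constructor
    · intro hg i _ j _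
      exact mem_closedBall_zero_iff.2 (hg i j)
    · intro hg i j
      exact mem_closedBall_zero_iff.1 (hg i (Set.mem_univ i) j (Set.mem_univ j))
  rw [h2]
  exact h1

theorem isCompact_par [ProperSpace K] : IsCompact (par n K) := by
  have h1 : IsCompact ({g : Matrix (Fin n) (Fin n) K | IsInt g} ∩ {g | ‖g.det‖₊ = 1}) :=
    isCompact_int.inter_right (isClosed_eq (continuous_nnnorm.comp continuous_id.matrix_det) continuous_const)
  have h2 : IsCompact (Set.pi Set.univ fun _ : Fin n => Set.Icc (0 : ℝ≥0) 1) :=
    isCompact_univ_pi fun _ => isCompact_Icc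
  have h3 : par n K = ({g : Matrix (Fin n) (Fin n) K | IsInt g} ∩ {g | ‖g.det‖₊ = 1}) ×ˢ
      (Set.pi Set.univ fun _ : Fin n => Set.Icc (0 : ℝ≥0) 1) := by
    ext p
    constructor
    · rintro ⟨hg, hl⟩
      exact ⟨⟨hg.int, hg.det⟩, fun l _ => ⟨zero_le, hl l⟩⟩
    · rintro ⟨⟨h4, h5⟩, h6⟩
      exact ⟨⟨h4, h5⟩, fun l => (h6 l (Set.mem_univ l)).2⟩
  rw [h3]
  exact h1.prod h2

/-- the point with given parameters -/
noncomputable def pt (p : par n K) : Xm n K := ⟨psi p.1.1 p.1.2, p.1.1, p.1.2, p.2.1, p.2.2, rfl⟩

theorem continuous_pt : Continuous (pt : par n K → Xm n K) :=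
  Xm.continuous_of fun r x => (continuous_psi r x).comp continuous_subtype_val

theorem surjective_pt : Function.Surjective (pt : par n K → Xm n K) := by
  rintro ⟨ξ, g, τ, hg, hτ, rfl⟩
  exact ⟨⟨(g, τ), hg, hτ⟩, rfl⟩

instance [ProperSpace K] : CompactSpace (par n K) := isCompact_iff_compactSpace.1 isCompact_par

instance [ProperSpace K] : CompactSpace (Xm n K) := by
  rw [← isCompact_univ_iff, ← surjective_pt.range_eq]
  exact isCompact_range continuous_pt

instance [ProperSpace K] : SecondCountableTopology (Xm n K) := by
  have : SecondCountableTopology K := secondCountable_of_proper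
  have : ∀ r : ℕ, SecondCountableTopology (Matrix (Fin r) (Fin n) K) := fun r =>
    inferInstanceAs (SecondCountableTopology (Fin r → Fin n → K))
  let F : Xm n K → ∀ _ : ℕ, ℕ → ℝ≥0 := fun ξ r k =>
    ξ.1 r (TopologicalSpace.denseSeq (Matrix (Fin r) (Fin n) K) k)
  have hF : Continuous F := continuous_pi fun r => continuous_pi fun k => Xm.continuous_apply r _
  have hc : ∀ (ξ : Xm n K) (r : ℕ), Continuous (ξ.1 r) := by
    rintro ⟨ξ, g, τ, hg, hτ, rfl⟩ r
    exact continuous_psi_apply g τ r
  have hi : Function.Injective F := by
    intro ξ ζ h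
    refine Xm.ext fun r x => ?_
    have h1 : ξ.1 r = ζ.1 r := by
      refine (TopologicalSpace.denseRange_denseSeq (Matrix (Fin r) (Fin n) K)).equalizer (hc ξ r) (hc ζ r) ?_
      funext k
      exact congrFun (congrFun h r) k
    exact congrFun h1 x
  exact (hF.isClosedEmbedding hi).isEmbedding.secondCountableTopology

end Pool.Agent.H9.XM
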