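import Pool.Agent.H9.XM.Ent
import Pool.Agent.H9.XM.Co
import Mathlib.Topology.Homotopy.Contractible
import Mathlib.Topology.UnitInterval

/-!
# [H9 XM Tru] truncation of the gaps; contractibility

`dt_stab`: `dt r σ (x * g) ≤ dt r σ x` if `‖g i j‖ ≤ ∏ (j < l ≤ i), σ l` for `j < i`: `sw_mul_le` with `c = 1`: for every `j` the factor
`‖g (k j) (f j)‖` is at most `∏ (f j < l ≤ k j), σ l` (empty product, `≤ 1`, if `k j ≤ f j`), and `wt_le_of`.
`psi_max_eq`: replace `g` by `g * g'⁻¹` and `x` by `x * g'`: so let `psi g τ = psi 1 τ'`. By `tau_eq` `τ l = τ' l` for `l > 0`, so (`wt_congr`)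
`σ = max ε τ` and `max ε τ'` give the same `dt`; `entry_le` (all products only grow when `τ'` is replaced by `max ε τ'`) and
`dt_stab` give `dt r σ (x * g) ≤ dt r σ x`, and the same for `g⁻¹` (`psi_inv`) gives `=`.
`tru ε ξ`: choose parameters of `ξ`, truncate; independent of the choice by `psi_max_eq` (`tru_psi`). `continuous_tru`: the map
`unitInterval × par n K → unitInterval × Xm n K` is continuous and surjective, from a compact to a Hausdorff space, so a
quotient map, and the composition with `tru` is continuous by `continuous_psi`. `tru 0 = id`, `tru 1 ξ = psi 1 1`: all weights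
are `1` and `dt r 1 (x * g) = dt r 1 x` by `dt_stab` for `g` and `g⁻¹`.
-/

set_option autoImplicit false

namespace Pool.Agent.H9.XM

open scoped NNReal

variable {K : Type} [NormedField K] [IsUltrametricDist K] {n : ℕ}

theorem dt_stab {g : Matrix (Fin n) (Fin n) K} {σ : Fin n → ℝ≥0} (hg : IsInt g) (hσ : ∀ l, σ l ≤ 1)
    (h : ∀ i j, j < i → ‖g i j‖₊ ≤ ∏ l ∈ Finset.univ.filter (fun l => j < l ∧ l ≤ i), σ l) {r : ℕ}
    (x : Matrix (Fin r) (Fin n) K) : dt r σ (x * g) ≤ dt r σ x := by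
  have key : sw r (wt r σ) (x * g) ≤ 1 * sw r (wt r σ) x := by
    refine sw_mul_le (fun f k _ _ => ?_) x
    rw [one_mul]
    have h1 : ∏ j, ‖g (k j) (f j)‖₊ ≤ ∏ j, ∏ l ∈ Finset.univ.filter (fun l => f j < l ∧ l ≤ k j), σ l := by
      refine Finset.prod_le_prod' fun j _ => ?_
      by_cases hj : f j < k j
      · exact h _ _ hj
      · have h2 : (Finset.univ.filter fun l => f j < l ∧ l ≤ k j) = ∅ := by
          refine Finset.filter_eq_empty_iff.2 fun {l} _ hl => hj (lt_of_lt_of_le hl.1 hl.2)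
        rw [h2, Finset.prod_empty]
        exact hg _ _
    exact (mul_le_mul' h1 le_rfl).trans (wt_le_of hσ f k)
  rw [one_mul] at key
  exact key

private theorem dt_congr {τ τ' : Fin n → ℝ≥0} (h : ∀ l : Fin n, 0 < (l : ℕ) → τ l = τ' l) {r : ℕ}
    (x : Matrix (Fin r) (Fin n) K) : dt r τ x = dt r τ' x := by
  unfold dt
  have h1 : wt r τ = wt r τ' := funext fun f => wt_congr h f
  rw [h1]

private theorem mul_nonsing {g : Matrix (Fin n) (Fin n) K} (hg : GO g) {r : ℕ} (x : Matrix (Fin r) (Fin n) K) :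
    x * g⁻¹ * g = x := by
  rw [Matrix.mul_assoc, Matrix.nonsing_inv_mul g hg.isUnit, Matrix.mul_one]

private theorem mul_nonsing' {g : Matrix (Fin n) (Fin n) K} (hg : GO g) {r : ℕ} (x : Matrix (Fin r) (Fin n) K) :
    x * g * g⁻¹ = x := by
  rw [Matrix.mul_assoc, Matrix.mul_nonsing_inv g hg.isUnit, Matrix.mul_one]

theorem psi_max_eq {g g' : Matrix (Fin n) (Fin n) K} {τ τ' : Fin n → ℝ≥0} (hg : GO g) (hg' : GO g') (hτ : ∀ l, τ l ≤ 1)
    (hτ' : ∀ l, τ' l ≤ 1) (h : psi g τ = psi g' τ') {ε : ℝ≥0} (hε : ε ≤ 1) :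
    psi g (fun l => max ε (τ l)) = psi g' (fun l => max ε (τ' l)) := by
  have hG : GO (g'⁻¹ * g) := hg'.inv.mul hg
  have h1 : psi (g'⁻¹ * g) τ = psi 1 τ' := by
    funext r y
    have h2 := congrFun (congrFun h r) (y * g'⁻¹)
    show dt r τ (y * (g'⁻¹ * g)) = dt r τ' (y * 1)
    have h3 : dt r τ (y * g'⁻¹ * g) = dt r τ' (y * g'⁻¹ * g') := h2
    rw [mul_nonsing hg', Matrix.mul_assoc] at h3
    rw [h3, Matrix.mul_one]
  have h1' : psi (g'⁻¹ * g)⁻¹ τ' = psi 1 τ := psi_inv hG h1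
  have hσ1 : ∀ l, max ε (τ l) ≤ 1 := fun l => max_le hε (hτ l)
  have hσ1' : ∀ l, max ε (τ' l) ≤ 1 := fun l => max_le hε (hτ' l)
  have hc : ∀ (r : ℕ) (x : Matrix (Fin r) (Fin n) K),
      dt r (fun l => max ε (τ l)) x = dt r (fun l => max ε (τ' l)) x := by
    intro r x
    refine dt_congr (fun l hl => ?_) x
    show max ε (τ l) = max ε (τ' l)
    rw [tau_eq hG hτ hτ' h1 hl]
  have hs1 : ∀ (r : ℕ) (x : Matrix (Fin r) (Fin n) K),
      dt r (fun l => max ε (τ' l)) (x * (g'⁻¹ * g)) ≤ dt r (fun l => max ε (τ' l)) x := by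
    intro r x
    refine dt_stab hG.int hσ1' (fun i j hij => ?_) x
    exact (entry_le hG hτ' h1 hij).trans (Finset.prod_le_prod' fun l _ => le_max_right _ _)
  have hs2 : ∀ (r : ℕ) (x : Matrix (Fin r) (Fin n) K),
      dt r (fun l => max ε (τ l)) (x * (g'⁻¹ * g)⁻¹) ≤ dt r (fun l => max ε (τ l)) x := by
    intro r x
    refine dt_stab hG.inv.int hσ1 (fun i j hij => ?_) x
    exact (entry_le hG.inv hτ h1' hij).trans (Finset.prod_le_prod' fun l _ => le_max_right _ _)
  have heq : ∀ (r : ℕ) (x : Matrix (Fin r) (Fin n) K),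
      dt r (fun l => max ε (τ' l)) (x * (g'⁻¹ * g)) = dt r (fun l => max ε (τ' l)) x := by
    intro r x
    refine le_antisymm (hs1 r x) ?_
    have h4 := hs2 r (x * (g'⁻¹ * g))
    rw [mul_nonsing' hG, hc, hc] at h4
    exact h4
  funext r x
  show dt r (fun l => max ε (τ l)) (x * g) = dt r (fun l => max ε (τ' l)) (x * g')
  rw [hc, ← heq r (x * g'), ← Matrix.mul_assoc, mul_nonsing' hg']

/-- truncation of the gaps -/
noncomputable def tru (ε : unitInterval) (ξ : Xm n K) : Xm n K :=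
  ⟨psi ξ.2.choose (fun l => max (Real.toNNReal ε) (ξ.2.choose_spec.choose l)), ξ.2.choose, _,
    ξ.2.choose_spec.choose_spec.1, fun l => max_le (by
      rw [Real.toNNReal_le_one]
      exact ε.2.2) (ξ.2.choose_spec.choose_spec.2.1 l), rfl⟩

theorem tru_psi (ε : unitInterval) {ξ : Xm n K} {g : Matrix (Fin n) (Fin n) K} {τ : Fin n → ℝ≥0} (hg : GO g)
    (hτ : ∀ l, τ l ≤ 1) (h : ξ.1 = psi g τ) : (tru ε ξ).1 = psi g (fun l => max (Real.toNNReal ε) (τ l)) := by
  have h1 := ξ.2.choose_spec.choose_spec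
  refine psi_max_eq h1.1 hg h1.2.1 hτ (h1.2.2.symm.trans h) ?_
  rw [Real.toNNReal_le_one]
  exact ε.2.2

theorem tru_zero (ξ : Xm n K) : tru 0 ξ = ξ := by
  obtain ⟨g, τ, hg, hτ, h⟩ := ξ.2
  refine Subtype.ext ?_
  rw [tru_psi 0 hg hτ h, h]
  have h1 : (fun l => max (Real.toNNReal ((0 : unitInterval) : ℝ)) (τ l)) = τ := by
    funext l
    rw [Set.Icc.coe_zero, Real.toNNReal_zero]
    exact max_eq_right zero_le
  rw [h1]

private theorem psi_one_eq {g : Matrix (Fin n) (Fin n) K} (hg : GO g) {τ : Fin n → ℝ≥0} (hτ : ∀ l, τ l = 1) :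
    psi g τ = psi 1 τ := by
  have h1 : ∀ l, τ l ≤ 1 := fun l => (hτ l).le
  have hp : ∀ i j : Fin n, ∏ l ∈ Finset.univ.filter (fun l => j < l ∧ l ≤ i), τ l = 1 := fun i j =>
    Finset.prod_eq_one fun l _ => hτ l
  have hs1 : ∀ (r : ℕ) (x : Matrix (Fin r) (Fin n) K), dt r τ (x * g) ≤ dt r τ x := fun r x =>
    dt_stab hg.int h1 (fun i j _ => (hg.int i j).trans (hp i j).ge) x
  have hs2 : ∀ (r : ℕ) (x : Matrix (Fin r) (Fin n) K), dt r τ (x * g⁻¹) ≤ dt r τ x := fun r x =>
    dt_stab hg.inv.int h1 (fun i j _ => (hg.inv.int i j).trans (hp i j).ge) x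
  funext r x
  show dt r τ (x * g) = dt r τ (x * 1)
  rw [Matrix.mul_one]
  refine le_antisymm (hs1 r x) ?_
  have h4 := hs2 r (x * g)
  rwa [mul_nonsing' hg] at h4

theorem tru_one (ξ ζ : Xm n K) : tru 1 ξ = tru 1 ζ := by
  obtain ⟨g, τ, hg, hτ, h⟩ := ξ.2
  obtain ⟨g', τ', hg', hτ', h'⟩ := ζ.2
  refine Subtype.ext ?_
  rw [tru_psi 1 hg hτ h, tru_psi 1 hg' hτ' h']
  have h1 : ∀ τ : Fin n → ℝ≥0, (∀ l, τ l ≤ 1) →
      (fun l => max (Real.toNNReal ((1 : unitInterval) : ℝ)) (τ l)) = fun _ => 1 := by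
    intro τ hτ
    funext l
    rw [Set.Icc.coe_one, Real.toNNReal_one]
    exact max_eq_left (hτ l)
  rw [h1 τ hτ, h1 τ' hτ', psi_one_eq hg (fun _ => rfl), psi_one_eq hg' (fun _ => rfl)]

theorem continuous_tru [ProperSpace K] : Continuous fun p : unitInterval × Xm n K => tru p.1 p.2 := by
  let F : unitInterval × par n K → unitInterval × Xm n K := fun p => (p.1, pt p.2)
  have hF : Continuous F := continuous_fst.prodMk (continuous_pt.comp continuous_snd)
  have hs : Function.Surjective F := by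
    rintro ⟨e, ξ⟩
    obtain ⟨p, hp⟩ := surjective_pt ξ
    exact ⟨(e, p), by rw [← hp]⟩
  have hq : Topology.IsQuotientMap F := hF.isClosedMap.isQuotientMap hF hs
  rw [hq.continuous_iff]
  refine Xm.continuous_of fun r x => ?_
  have h1 : ∀ p : unitInterval × par n K, (tru (F p).1 (F p).2).1 r x =
      psi p.2.1.1 (fun l => max (Real.toNNReal p.1) (p.2.1.2 l)) r x := by
    intro p
    have h2 := tru_psi (ξ := (F p).2) (F p).1 p.2.2.1 p.2.2.2 rfl
    exact congrFun (congrFun h2 r) x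
  have h3 : Continuous fun p : unitInterval × par n K =>
      psi p.2.1.1 (fun l => max (Real.toNNReal p.1) (p.2.1.2 l)) r x := by
    have h4 : Continuous fun p : unitInterval × par n K =>
        (p.2.1.1, fun l => max (Real.toNNReal p.1) (p.2.1.2 l)) := by
      refine Continuous.prodMk ?_ ?_
      · exact continuous_fst.comp (continuous_subtype_val.comp continuous_snd)
      · refine continuous_pi fun l => ?_
        refine Continuous.max ?_ ?_
        · exact continuous_real_toNNReal.comp (continuous_subtype_val.comp continuous_fst)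
        · exact (continuous_apply l).comp (continuous_snd.comp (continuous_subtype_val.comp continuous_snd))
    exact (continuous_psi r x).comp h4
  exact h3.congr fun p => (h1 p).symm

instance [ProperSpace K] : ContractibleSpace (Xm n K) := by
  rw [contractible_iff_id_nullhomotopic]
  let ξ₀ : Xm n K := ⟨psi 1 (fun _ => 1), 1, fun _ => 1, GO.one, fun _ => le_rfl, rfl⟩
  refine ⟨tru 1 ξ₀, ⟨⟨⟨fun p => tru p.1 p.2, continuous_tru⟩, ?_, ?_⟩⟩⟩
  · intro ξ
    exact tru_zero ξ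
  · intro ξ
    exact tru_one ξ ξ₀

end Pool.Agent.H9.XM
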