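import Pool.Agent.H9.XM.PolP
import Pool.Agent.H9.XM.Tru
import Pool.Agent.H76.GU.TrT

/-!
# [H9 XM Dom] the compactified building is finitely dominated

`tru_mem`: `tru ε ξ ∈ Xt π a` if `ε = ‖π‖ ^ a`, and every point of `Xt π a` is fixed by `tru ε` (`tru_psi`, `max ε (τ l) = τ l`), so
`Xt π a` is the range of `tru ε`: compact.
`topDom`: `W` is open and contains the diagonal. The set of all `(t, ξ)` with `(tru t ξ, ξ) ∈ W` is open (`continuous_tru`) and contains
`{0} × Xm`, so (`generalized_tube_lemma`, `Xm` compact) there is `a` with `(tru t ξ, ξ) ∈ W` for all `t ≤ ‖π‖ ^ a` and all `ξ` (`‖π‖ ^ a → 0`).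
Let `x` be a net modulo `π ^ (a n + 1)`, `Θ = Tht π a x`, `K = Θ '' Xt π a`, `p ξ = Θ (tru ε ξ)`. `Θ` restricted to the compact set `Xt π a` is
a continuous bijection on `K`, so a homeomorphism (`Continuous.homeoOfEquivCompactToT2`), `i` is its inverse, composed with the
inclusion. `H (s, ξ) = tru ((1 - s) * ε) ξ`: `H (0, ξ) = tru ε ξ = i (p ξ)`, `H (1, ξ) = tru 0 ξ = ξ` (`tru_zero`).
-/

set_option autoImplicit false

namespace Pool.Agent.H9.XM

open scoped NNReal
open Pool.Agent.H76.GT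

variable {K : Type} [NormedField K] [IsUltrametricDist K] {n : ℕ}

theorem tru_mem {π : K} (hπ : IsUnif π) {a : ℕ} {ε : unitInterval} (hε : (ε : ℝ) = ‖π‖ ^ a) (ξ : Xm n K) :
    tru ε ξ ∈ Xt π a := by
  obtain ⟨g, τ, hg, hτ, h⟩ := ξ.2
  have h1 : Real.toNNReal ε = ‖π‖₊ ^ a := by
    rw [hε, Real.toNNReal_pow (norm_nonneg π), norm_toNNReal]
  have h2 : (ε : ℝ) ≤ 1 := ε.2.2
  refine ⟨g, fun l => max (Real.toNNReal ε) (τ l), hg, fun l => max_le ?_ (hτ l), fun l => ?_, tru_psi ε hg hτ h⟩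
  · rw [Real.toNNReal_le_one]
    exact h2
  · rw [← h1]
    exact le_max_left _ _

theorem tru_eq {π : K} {a : ℕ} {ε : unitInterval} (hε : (ε : ℝ) = ‖π‖ ^ a) {ξ : Xm n K} (hξ : ξ ∈ Xt π a) :
    tru ε ξ = ξ := by
  obtain ⟨g, τ, hg, hτ, h0, h⟩ := hξ
  have h1 : Real.toNNReal ε = ‖π‖₊ ^ a := by
    rw [hε, Real.toNNReal_pow (norm_nonneg π), norm_toNNReal]
  refine Subtype.ext ?_
  rw [tru_psi ε hg hτ h, h]
  have h2 : (fun l => max (Real.toNNReal ε) (τ l)) = τ := by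
    funext l
    rw [h1]
    exact max_eq_right (h0 l)
  rw [h2]

private theorem cont_tru_right [ProperSpace K] (ε : unitInterval) : Continuous fun ξ : Xm n K => tru ε ξ := by
  have h1 : Continuous fun ξ : Xm n K => ((ε, ξ) : unitInterval × Xm n K) :=
    Continuous.prodMk (continuous_const : Continuous fun _ : Xm n K => ε) (continuous_id : Continuous fun ξ : Xm n K => ξ)
  exact Continuous.comp (g := fun p : unitInterval × Xm n K => tru p.1 p.2)
    (f := fun ξ : Xm n K => ((ε, ξ) : unitInterval × Xm n K)) continuous_tru h1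

private theorem cont_pair [ProperSpace K] :
    Continuous fun p : unitInterval × Xm n K => ((tru p.1 p.2, p.2) : Xm n K × Xm n K) :=
  Continuous.prodMk continuous_tru (continuous_snd : Continuous fun p : unitInterval × Xm n K => p.2)

private theorem cont_htpy [ProperSpace K] (ε : unitInterval) :
    Continuous fun q : unitInterval × Xm n K => tru (unitInterval.symm q.1 * ε) q.2 := by
  have h0 : Continuous fun q : unitInterval × Xm n K => unitInterval.symm q.1 * ε :=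
    Continuous.mul (Continuous.comp (g := unitInterval.symm) (f := fun q : unitInterval × Xm n K => q.1)
      unitInterval.continuous_symm continuous_fst) continuous_const
  have h1 : Continuous fun q : unitInterval × Xm n K =>
      ((unitInterval.symm q.1 * ε, q.2) : unitInterval × Xm n K) :=
    Continuous.prodMk h0 (continuous_snd : Continuous fun p : unitInterval × Xm n K => p.2)
  exact Continuous.comp (g := fun p : unitInterval × Xm n K => tru p.1 p.2)
    (f := fun q : unitInterval × Xm n K => ((unitInterval.symm q.1 * ε, q.2) : unitInterval × Xm n K))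
    continuous_tru h1

private theorem isCompact_Xt [ProperSpace K] {π : K} (hπ : IsUnif π) {a : ℕ} {ε : unitInterval}
    (hε : (ε : ℝ) = ‖π‖ ^ a) : IsCompact (Xt π a : Set (Xm n K)) := by
  have h1 : Set.range (fun ξ : Xm n K => tru ε ξ) = Xt π a := by
    ext ξ
    constructor
    · rintro ⟨ζ, rfl⟩
      exact tru_mem hπ hε ζ
    · intro hξ
      exact ⟨ξ, tru_eq hε hξ⟩
  rw [← h1]
  exact isCompact_range (cont_tru_right ε)

private theorem dom_aux [ProperSpace K] {π : K} (hπ : IsUnif π) (hn : 0 < n) {W : Set (Xm n K × Xm n K)} {a : ℕ}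
    {ε : unitInterval} (hε : (ε : ℝ) = ‖π‖ ^ a) (hsmall : ∀ s : unitInterval, (s : ℝ) ≤ ε → ∀ ξ : Xm n K, (tru s ξ, ξ) ∈ W) :
    ∃ (m : ℕ) (P : Set (Fin m → ℝ)), IsPolyhedron (n - 1) P ∧
      ∃ (p : C(Xm n K, P)) (i : C(P, Xm n K)) (H : C(unitInterval × Xm n K, Xm n K)),
        (∀ x, H (0, x) = i (p x)) ∧ (∀ x, H (1, x) = x) ∧ ∀ t x, (H (t, x), x) ∈ W := by
  obtain ⟨m, x, hx⟩ := exists_net (n := n) hπ (a * n + 1)
  have hc : CompactSpace (Xt π a : Set (Xm n K)) := isCompact_iff_compactSpace.1 (isCompact_Xt hπ hε)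
  have hcont : Continuous fun ξ : Xm n K => Tht π a x ξ := continuous_Tht hπ a x
  obtain ⟨f, hf⟩ : ∃ f : (Xt π a : Set (Xm n K)) ≃ (Tht π a x '' (Xt π a : Set (Xm n K))), Continuous f := by
    refine ⟨Equiv.Set.imageOfInjOn (Tht π a x) (Xt π a) (injOn_Tht hπ hx), ?_⟩
    have h1 : Continuous fun ξ : (Xt π a : Set (Xm n K)) => Tht π a x (ξ : Xm n K) :=
      Continuous.comp (g := fun ξ : Xm n K => Tht π a x ξ) hcont continuous_subtype_val
    exact Continuous.subtype_mk h1 _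
  obtain ⟨e⟩ : Nonempty ((Xt π a : Set (Xm n K)) ≃ₜ (Tht π a x '' (Xt π a : Set (Xm n K)))) :=
    ⟨Continuous.homeoOfEquivCompactToT2 hf⟩
  have ht : Continuous fun ξ : Xm n K => (⟨tru ε ξ, tru_mem hπ hε ξ⟩ : (Xt π a : Set (Xm n K))) :=
    Continuous.subtype_mk (cont_tru_right ε) _
  have hp : Continuous fun ξ : Xm n K => e (⟨tru ε ξ, tru_mem hπ hε ξ⟩ : (Xt π a : Set (Xm n K))) :=
    Continuous.comp (g := fun z => e z) e.continuous ht
  have hi : Continuous fun k : (Tht π a x '' (Xt π a : Set (Xm n K))) => ((e.symm k).1 : Xm n K) :=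
    Continuous.comp (g := fun z : (Xt π a : Set (Xm n K)) => (z.1 : Xm n K)) continuous_subtype_val e.symm.continuous
  refine ⟨m, Tht π a x '' (Xt π a : Set (Xm n K)), isPolyhedron_Tht hπ hn hx.1, ⟨_, hp⟩, ⟨_, hi⟩,
    ⟨_, cont_htpy ε⟩, ?_, ?_, ?_⟩
  · intro ξ
    show tru (unitInterval.symm 0 * ε) ξ = (e.symm (e ⟨tru ε ξ, tru_mem hπ hε ξ⟩)).1
    rw [e.symm_apply_apply, unitInterval.symm_zero, one_mul]
  · intro ξ
    show tru (unitInterval.symm 1 * ε) ξ = ξ
    rw [unitInterval.symm_one, zero_mul, tru_zero]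
  · intro s ξ
    have h5 : ((unitInterval.symm s * ε : unitInterval) : ℝ) ≤ ε := by
      show (unitInterval.symm s : ℝ) * (ε : ℝ) ≤ ε
      exact mul_le_of_le_one_left ε.2.1 (unitInterval.symm s).2.2
    exact hsmall (unitInterval.symm s * ε) h5 ξ

private theorem small_aux [ProperSpace K] {π : K} (hπ : IsUnif π) {W : Set (Xm n K × Xm n K)} (hW : IsOpen W)
    (hd : ∀ x, (x, x) ∈ W) : ∃ (a : ℕ) (ε : unitInterval), (ε : ℝ) = ‖π‖ ^ a ∧
      ∀ s : unitInterval, (s : ℝ) ≤ ε → ∀ ξ : Xm n K, (tru s ξ, ξ) ∈ W := by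
  have hS : IsOpen {p : unitInterval × Xm n K | (tru p.1 p.2, p.2) ∈ W} :=
    IsOpen.preimage (f := fun p : unitInterval × Xm n K => ((tru p.1 p.2, p.2) : Xm n K × Xm n K)) cont_pair hW
  have h0 : ({0} : Set unitInterval) ×ˢ (Set.univ : Set (Xm n K)) ⊆
      {p : unitInterval × Xm n K | (tru p.1 p.2, p.2) ∈ W} := by
    rintro ⟨s, ξ⟩ ⟨hs, -⟩
    have hs' : s = 0 := hs
    show (tru s ξ, ξ) ∈ W
    rw [hs', tru_zero]
    exact hd ξ
  obtain ⟨u, v, hu, -, h0u, hv, huv⟩ := generalized_tube_lemma isCompact_singleton isCompact_univ hS h0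
  obtain ⟨δ, hδ, hδu⟩ := Metric.isOpen_iff.1 hu 0 (h0u rfl)
  have hπ0 : (0 : ℝ) < ‖π‖ := by exact_mod_cast hπ.pos
  have hπ1 : ‖π‖ < 1 := by exact_mod_cast hπ.lt_one
  obtain ⟨a, ha⟩ := exists_pow_lt_of_lt_one hδ hπ1
  have hε1 : ‖π‖ ^ a ≤ 1 := pow_le_one₀ hπ0.le hπ1.le
  refine ⟨a, ⟨‖π‖ ^ a, pow_nonneg hπ0.le a, hε1⟩, rfl, ?_⟩
  intro s hs ξ
  have hs' : (s : ℝ) ≤ ‖π‖ ^ a := hs
  have hsu : s ∈ u := by
    apply hδu
    rw [Metric.mem_ball, Subtype.dist_eq, Real.dist_eq]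
    have h3 : ((0 : unitInterval) : ℝ) = 0 := rfl
    rw [h3, sub_zero, abs_of_nonneg s.2.1]
    exact lt_of_le_of_lt hs' ha
  have h4 : ((s, ξ) : unitInterval × Xm n K) ∈ {p : unitInterval × Xm n K | (tru p.1 p.2, p.2) ∈ W} :=
    huv (Set.mk_mem_prod hsu (hv (Set.mem_univ ξ)))
  exact h4

/-- the compactified building of `GL n K` is `n - 1`-dominated -/
theorem topDom [ProperSpace K] {π : K} (hπ : IsUnif π) (hn : 0 < n) : TopDom (n - 1) (Xm n K) := by
  intro W hW hd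
  obtain ⟨a, ε, hε, hsmall⟩ := small_aux hπ hW hd
  exact dom_aux hπ hn hε hsmall

end Pool.Agent.H9.XM
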