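import Pool.Agent.H9.XM.Bld
import Pool.Agent.H9.XM.Co
import Mathlib.LinearAlgebra.Matrix.GeneralLinearGroup.Defs

/-!
# [H9 XM Act] the action of `GL n K` on the compactified building

`nu h ξ r = max over F of ξ r (rows F of h)`, `act h ξ r x = ξ r (x * h) / nu h ξ r` (for `r > n` both are `0`).
`isPt_act`: let `ξ = psi g τ`. If all `τ l > 0`: `exists_psi_mul`, and `nu h ξ r = c * max over F of psi g' τ' r (rows F of 1)`, which is
`c` for `r ≤ n` (`psi_le_one`, `exists_psi_eq_one`): `act h ξ = psi g' τ'`; for `r > n` all is zero. In general let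
`τ_m = max (1/(m+1)) τ`: `psi g τ_m → psi g τ` in `Fam n K` (`continuous_psi`), `act h (psi g τ_m) → act h (psi g τ)` because
`nu h (psi g τ) r > 0` for `r ≤ n`: otherwise `psi g τ r (x * h) = 0` for all `x` by `sw_row_le` (`x * h = x * (1 * h)`), so
`psi g τ r = 0` (`h` invertible), contradiction to `exists_psi_eq_one`. The set of the points is closed (`CompactSpace (Xm n K)`,
so the range of `Subtype.val` is compact, hence closed). `MulAction`: the factors cancel; `nu 1 ξ r = 1` for `r ≤ n`.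
`continuous_const_smul`: `ξ ↦ ξ r (x * h)` and `nu` are continuous, `nu > 0` for `r ≤ n` and all is `0` for `r > n`.
`smul_scalar`: `psi g τ r (c • x) = ‖c‖ ^ r * psi g τ r x` (every minor gets the factor `c ^ r`), so the factor cancels.
-/

set_option autoImplicit false

namespace Pool.Agent.H9.XM

open scoped NNReal

variable {K : Type} [NormedField K] {n : ℕ}

/-- the normalising factor -/
noncomputable def nu (h : Matrix (Fin n) (Fin n) K) (ξ : Fam n K) (r : ℕ) : ℝ≥0 :=
  Finset.univ.sup fun F : Fin r → Fin n => ξ r (h.submatrix F id)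

/-- the translate of a family -/
noncomputable def act (h : Matrix (Fin n) (Fin n) K) (ξ : Fam n K) : Fam n K := fun r x => ξ r (x * h) / nu h ξ r

variable [IsUltrametricDist K]

private theorem isPt_zero {ξ : Fam n K} (hξ : IsPt ξ) {r : ℕ} (hr : n < r) (x : Matrix (Fin r) (Fin n) K) : ξ r x = 0 := by
  obtain ⟨g, τ, hg, hτ, rfl⟩ := hξ
  exact dt_eq_zero_of_lt hr _

omit [IsUltrametricDist K] in
private theorem sub_mul' {r s : ℕ} (h : Matrix (Fin s) (Fin n) K) (k : Matrix (Fin n) (Fin n) K) (F : Fin r → Fin s) :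
    (h * k).submatrix F id = h.submatrix F id * k := by
  ext i j
  rw [Matrix.submatrix_apply, Matrix.mul_apply, Matrix.mul_apply]
  rfl

private theorem nu_eq_one {g : Matrix (Fin n) (Fin n) K} {τ : Fin n → ℝ≥0} (hg : GO g) (hτ : ∀ l, τ l ≤ 1) {r : ℕ}
    (hr : r ≤ n) : nu 1 (psi g τ) r = 1 := by
  refine le_antisymm (Finset.sup_le fun F _ => psi_le_one hg hτ fun i j => isInt_one _ _) ?_
  obtain ⟨F, hF⟩ := exists_psi_eq_one (r := r) hg hτ hr
  rw [← hF]
  exact Finset.le_sup (f := fun F : Fin r → Fin n => psi g τ r ((1 : Matrix (Fin n) (Fin n) K).submatrix F id))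
    (Finset.mem_univ F)

theorem nu_pos {h : Matrix (Fin n) (Fin n) K} (hh : IsUnit h.det) {ξ : Fam n K} (hξ : IsPt ξ) {r : ℕ} (hr : r ≤ n) :
    0 < nu h ξ r := by
  obtain ⟨g, τ, hg, hτ, rfl⟩ := hξ
  rw [pos_iff_ne_zero]
  intro h0
  have h1 : ∀ F : Fin r → Fin n, psi g τ r (h.submatrix F id) = 0 := by
    intro F
    refine le_antisymm ?_ zero_le
    rw [← h0]
    exact Finset.le_sup (f := fun F : Fin r → Fin n => psi g τ r (h.submatrix F id)) (Finset.mem_univ F)
  obtain ⟨F, hF⟩ := exists_psi_eq_one (r := r) hg hτ hr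
  have h2 : (1 : Matrix (Fin n) (Fin n) K).submatrix F id * g =
      ((1 : Matrix (Fin n) (Fin n) K).submatrix F id * h⁻¹) * (h * g) := by
    rw [Matrix.mul_assoc, ← Matrix.mul_assoc h⁻¹, Matrix.nonsing_inv_mul h hh, Matrix.one_mul]
  have h3 : psi g τ r ((1 : Matrix (Fin n) (Fin n) K).submatrix F id) ≤ 0 := by
    show sw r (wt r τ) ((1 : Matrix (Fin n) (Fin n) K).submatrix F id * g) ≤ 0
    rw [h2]
    refine sw_row_le fun k => ?_
    have h4 : sw r (wt r τ) ((h * g).submatrix k id) = 0 := by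
      rw [sub_mul']
      exact h1 k
    rw [h4, mul_zero]
  rw [hF] at h3
  exact not_lt.2 h3 zero_lt_one

private theorem isPt_act_pos [ProperSpace K] {h : Matrix (Fin n) (Fin n) K} (hh : IsUnit h.det)
    {g : Matrix (Fin n) (Fin n) K} {τ : Fin n → ℝ≥0} (hg : GO g) (h1 : ∀ l, τ l ≤ 1) (h0 : ∀ l, 0 < τ l) :
    IsPt (act h (psi g τ)) := by
  obtain ⟨g', τ', hg', h1', h0', hc⟩ := exists_psi_mul hg h1 h0 hh
  refine ⟨g', τ', hg', h1', ?_⟩
  funext r x
  show psi g τ r (x * h) / nu h (psi g τ) r = psi g' τ' r x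
  obtain ⟨c, hc0, hcx⟩ := hc r
  rcases lt_or_ge n r with hr | hr
  · have e1 : psi g τ r (x * h) = 0 := dt_eq_zero_of_lt hr _
    have e2 : psi g' τ' r x = 0 := dt_eq_zero_of_lt hr _
    rw [e1, e2, zero_div]
  · have e1 : nu h (psi g τ) r = c := by
      have e2 : nu h (psi g τ) r = c * nu 1 (psi g' τ') r := by
        unfold nu
        rw [NNReal.mul_finset_sup]
        refine Finset.sup_congr rfl fun F _ => ?_
        rw [← hcx, ← sub_mul', Matrix.one_mul]
      rw [e2, nu_eq_one hg' h1' hr, mul_one]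
    rw [e1, hcx, mul_div_cancel_left₀ _ hc0.ne']

omit [IsUltrametricDist K] in
private theorem continuous_nu (h : Matrix (Fin n) (Fin n) K) (r : ℕ) :
    Continuous fun p : Matrix (Fin n) (Fin n) K × (Fin n → ℝ≥0) => nu h (psi p.1 p.2) r := by
  unfold nu
  exact Continuous.finset_sup_apply fun F _ => continuous_psi r _

omit [IsUltrametricDist K] in
private theorem isClosed_pt [ProperSpace K] : IsClosed {ξ : Fam n K | IsPt ξ} := by
  have h1 : IsCompact (Set.range (Subtype.val : Xm n K → Fam n K)) := isCompact_range (X := Xm n K) continuous_subtype_val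
  have h2 : Set.range (Subtype.val : Xm n K → Fam n K) = {ξ : Fam n K | IsPt ξ} := Subtype.range_coe
  rw [← h2]
  exact h1.isClosed

theorem isPt_act [ProperSpace K] {h : Matrix (Fin n) (Fin n) K} (hh : IsUnit h.det) {ξ : Fam n K} (hξ : IsPt ξ) :
    IsPt (act h ξ) := by
  obtain ⟨g, τ, hg, hτ, rfl⟩ := hξ
  let τm : ℝ≥0 → Fin n → ℝ≥0 := fun m l => max (min m 1) (τ l)
  have hm1 : ∀ m l, τm m l ≤ 1 := fun m l => max_le (min_le_right _ _) (hτ l)
  have hm0 : ∀ m, 0 < m → ∀ l, 0 < τm m l := fun m hm l => lt_max_of_lt_left (lt_min hm zero_lt_one)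
  have hc : Continuous fun m => (g, τm m) :=
    continuous_const.prodMk (continuous_pi fun l => (continuous_id.min continuous_const).max continuous_const)
  have hz : τm 0 = τ := by
    funext l
    show max (min 0 1) (τ l) = τ l
    rw [min_eq_left zero_le_one, max_eq_right zero_le]
  have hlim : Filter.Tendsto (fun m => (g, τm m)) (nhdsWithin 0 (Set.Ioi 0)) (nhds (g, τ)) := by
    have h1 := (hc.tendsto 0).mono_left (nhdsWithin_le_nhds (s := Set.Ioi 0))
    rwa [hz] at h1
  have htend : Filter.Tendsto (fun m => act h (psi g (τm m))) (nhdsWithin 0 (Set.Ioi 0)) (nhds (act h (psi g τ))) := by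
    refine tendsto_pi_nhds.2 fun r => tendsto_pi_nhds.2 fun x => ?_
    rcases lt_or_ge n r with hr | hr
    · have e1 : ∀ m, act h (psi g (τm m)) r x = 0 := by
        intro m
        show psi g (τm m) r (x * h) / nu h (psi g (τm m)) r = 0
        have e2 : psi g (τm m) r (x * h) = 0 := dt_eq_zero_of_lt hr _
        rw [e2, zero_div]
      have e3 : act h (psi g τ) r x = 0 := by
        show psi g τ r (x * h) / nu h (psi g τ) r = 0
        have e2 : psi g τ r (x * h) = 0 := dt_eq_zero_of_lt hr _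
        rw [e2, zero_div]
      rw [e3]
      simp only [e1]
      exact tendsto_const_nhds
    · have e1 := ((continuous_psi r (x * h)).tendsto (g, τ)).comp hlim
      have e2 := ((continuous_nu h r).tendsto (g, τ)).comp hlim
      exact Filter.Tendsto.div e1 e2 (nu_pos hh ⟨g, τ, hg, hτ, rfl⟩ hr).ne'
  have hev : ∀ᶠ m in nhdsWithin (0 : ℝ≥0) (Set.Ioi 0), act h (psi g (τm m)) ∈ {ξ : Fam n K | IsPt ξ} := by
    filter_upwards [self_mem_nhdsWithin] with m hm
    exact isPt_act_pos hh hg (hm1 m) (hm0 m hm)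
  exact isClosed_pt.mem_of_tendsto htend hev

theorem act_one {ξ : Fam n K} (hξ : IsPt ξ) : act 1 ξ = ξ := by
  funext r x
  show ξ r (x * 1) / nu 1 ξ r = ξ r x
  rcases lt_or_ge n r with hr | hr
  · rw [isPt_zero hξ hr, isPt_zero hξ hr, zero_div]
  · obtain ⟨g, τ, hg, hτ, rfl⟩ := hξ
    rw [nu_eq_one hg hτ hr, div_one, Matrix.mul_one]

theorem act_mul {h k : Matrix (Fin n) (Fin n) K} (hh : IsUnit h.det) (hk : IsUnit k.det) {ξ : Fam n K} (hξ : IsPt ξ) :
    act (h * k) ξ = act h (act k ξ) := by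
  funext r x
  show ξ r (x * (h * k)) / nu (h * k) ξ r = (ξ r (x * h * k) / nu k ξ r) / nu h (act k ξ) r
  rcases lt_or_ge n r with hr | hr
  · rw [isPt_zero hξ hr, isPt_zero hξ hr, zero_div, zero_div, zero_div]
  · have e1 : nu h (act k ξ) r = nu (h * k) ξ r / nu k ξ r := by
      unfold nu
      rw [NNReal.finset_sup_div]
      refine Finset.sup_congr rfl fun F _ => ?_
      rw [sub_mul']
      rfl
    have e2 := (nu_pos hk hξ hr).ne'
    rw [e1, Matrix.mul_assoc, div_div_div_cancel_right₀ e2]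

noncomputable instance [ProperSpace K] : MulAction (Matrix.GeneralLinearGroup (Fin n) K) (Xm n K) where
  smul h ξ := ⟨act h.1 ξ.1, isPt_act ((Matrix.isUnit_iff_isUnit_det _).1 h.isUnit) ξ.2⟩
  one_smul ξ := Subtype.ext (act_one ξ.2)
  mul_smul h k ξ := Subtype.ext (act_mul ((Matrix.isUnit_iff_isUnit_det _).1 h.isUnit)
    ((Matrix.isUnit_iff_isUnit_det _).1 k.isUnit) ξ.2)

theorem smul_apply [ProperSpace K] (h : Matrix.GeneralLinearGroup (Fin n) K) (ξ : Xm n K) (r : ℕ) (x : Matrix (Fin r) (Fin n) K) :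
    (h • ξ).1 r x = ξ.1 r (x * h.1) / nu h.1 ξ.1 r := rfl

instance [ProperSpace K] : ContinuousConstSMul (Matrix.GeneralLinearGroup (Fin n) K) (Xm n K) := by
  refine ⟨fun h => Xm.continuous_of fun r x => ?_⟩
  have e0 : (fun ξ : Xm n K => (h • ξ).1 r x) = fun ξ => ξ.1 r (x * h.1) / nu h.1 ξ.1 r := rfl
  rw [e0]
  rcases lt_or_ge n r with hr | hr
  · have e1 : (fun ξ : Xm n K => ξ.1 r (x * h.1) / nu h.1 ξ.1 r) = fun _ => 0 := by
      funext ξ
      rw [isPt_zero ξ.2 hr, zero_div]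
    rw [e1]
    exact continuous_const
  · refine (Xm.continuous_apply r (x * h.1)).div₀ ?_ fun ξ =>
      (nu_pos ((Matrix.isUnit_iff_isUnit_det _).1 h.isUnit) ξ.2 hr).ne'
    unfold nu
    exact Continuous.finset_sup_apply fun F _ => Xm.continuous_apply r _

omit [IsUltrametricDist K] in
private theorem psi_smul {r : ℕ} (g : Matrix (Fin n) (Fin n) K) (τ : Fin n → ℝ≥0) (c : K) (y : Matrix (Fin r) (Fin n) K) :
    psi g τ r (c • y) = ‖c‖₊ ^ r * psi g τ r y := by
  unfold psi dt sw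
  rw [NNReal.mul_finset_sup]
  refine Finset.sup_congr rfl fun f _ => ?_
  have e1 : ((c • y) * g).submatrix id f = c • (y * g).submatrix id f := by
    rw [Matrix.smul_mul]
    rfl
  rw [e1, Matrix.det_smul, nnnorm_mul, nnnorm_pow, Fintype.card_fin, mul_assoc]

/-- scalars act trivially -/
theorem smul_scalar [ProperSpace K] (h k : Matrix.GeneralLinearGroup (Fin n) K) {c : K} (hc : c ≠ 0) (hk : k.1 = c • h.1) (ξ : Xm n K) :
    k • ξ = h • ξ := by
  refine Xm.ext fun r x => ?_
  rw [smul_apply, smul_apply, hk]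
  have hs : ∀ y : Matrix (Fin r) (Fin n) K, ξ.1 r (c • y) = ‖c‖₊ ^ r * ξ.1 r y := by
    obtain ⟨g, τ, hg, hτ, hξ⟩ := ξ.2
    intro y
    rw [hξ]
    exact psi_smul g τ c y
  have e1 : nu (c • h.1) ξ.1 r = ‖c‖₊ ^ r * nu h.1 ξ.1 r := by
    unfold nu
    rw [NNReal.mul_finset_sup]
    refine Finset.sup_congr rfl fun F _ => ?_
    rw [← hs]
    rfl
  have e2 : ‖c‖₊ ^ r ≠ 0 := pow_ne_zero _ (nnnorm_ne_zero_iff.2 hc)
  rw [e1, Matrix.mul_smul, hs, mul_div_mul_left _ _ e2]

end Pool.Agent.H9.XM
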