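import Pool.Agent.H9.XM.Hon
import Pool.Agent.H9.XM.Act

/-!
# [H9 XM HonA] honest points: action, density, existence

`hon_smul`: `exists_psi_mul` as in `Act` (`nu h ξ r = c_r` for `r ≤ n`). `exists_nm_smul`: `smul_apply`, `c = (nu h.1 ξ.1 1)⁻¹`, positive for `n > 0`;
for `n = 0` everything is `0`, `c = 1`.
`dense_hon`: `ξ = psi g τ` is the limit of `psi g (max (1/(m+1)) τ)` (`continuous_psi`, `Xm.continuous_of`, or: continuity of
`s ↦ pt (g, max s τ)` on `[0,1]`, `mem_closure_of_tendsto`).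
`exists_hon`: `exists_sorted`: `B`, `g = B⁻¹`, `τ 0 = 1`, `τ l = η (B l) / η (B (l-1))` (`0 < l`): `η (x B) = η (B 0) max ‖x i‖ al τ i`
(for `n = 0` everything is `0`). `Matrix.vecMul v B⁻¹` are the coordinates of `v`.
-/

set_option autoImplicit false

namespace Pool.Agent.H9.XM

open scoped NNReal

variable {K : Type} [NormedField K] {n : ℕ} [IsUltrametricDist K]

omit [IsUltrametricDist K] in
private theorem al_mul {β : ℕ → ℝ≥0} (hβ : ∀ k, 0 < β k) {τ : Fin n → ℝ≥0}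
    (hτ : ∀ l : Fin n, 0 < (l : ℕ) → τ l = β l / β ((l : ℕ) - 1)) :
    ∀ (k : ℕ) (hk : k < n), al τ ⟨k, hk⟩ * β 0 = β k := by
  intro k
  induction k with
  | zero =>
    intro hk
    have h1 : (Finset.univ.filter fun l : Fin n => 0 < (l : ℕ) ∧ l ≤ ⟨0, hk⟩) = ∅ := by
      refine Finset.filter_eq_empty_iff.2 fun {l} _ h => ?_
      have h2 : (l : ℕ) ≤ 0 := h.2
      omega
    unfold al
    rw [h1, Finset.prod_empty, one_mul]
  | succ k ih =>
    intro hk
    have hk' : k < n := by omega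
    have h1 : (Finset.univ.filter fun l : Fin n => 0 < (l : ℕ) ∧ l ≤ ⟨k + 1, hk⟩) =
        insert ⟨k + 1, hk⟩ (Finset.univ.filter fun l : Fin n => 0 < (l : ℕ) ∧ l ≤ ⟨k, hk'⟩) := by
      ext l
      rw [Finset.mem_insert, Finset.mem_filter, Finset.mem_filter, Fin.le_def, Fin.le_def, Fin.ext_iff]
      constructor
      · rintro ⟨h2, h3, h4⟩
        by_cases h5 : (l : ℕ) = k + 1
        · exact Or.inl h5
        · refine Or.inr ⟨h2, h3, ?_⟩
          have h6 : (l : ℕ) ≤ k + 1 := h4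
          show (l : ℕ) ≤ k
          omega
      · rintro (h2 | ⟨h2, h3, h4⟩)
        · have h5 : (l : ℕ) = k + 1 := h2
          refine ⟨Finset.mem_univ _, by omega, ?_⟩
          show (l : ℕ) ≤ k + 1
          omega
        · have h6 : (l : ℕ) ≤ k := h4
          refine ⟨h2, h3, ?_⟩
          show (l : ℕ) ≤ k + 1
          omega
    have h2 : (⟨k + 1, hk⟩ : Fin n) ∉ (Finset.univ.filter fun l : Fin n => 0 < (l : ℕ) ∧ l ≤ ⟨k, hk'⟩) := by
      intro h3
      have h4 : k + 1 ≤ k := (Finset.mem_filter.1 h3).2.2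
      omega
    have h3 : al τ ⟨k + 1, hk⟩ = τ ⟨k + 1, hk⟩ * al τ ⟨k, hk'⟩ := by
      unfold al
      rw [h1, Finset.prod_insert h2]
    have h4 : τ ⟨k + 1, hk⟩ = β (k + 1) / β k := hτ ⟨k + 1, hk⟩ (Nat.succ_pos k)
    rw [h3, mul_assoc, ih hk', h4, div_mul_cancel₀ _ (hβ k).ne']

theorem exists_hon [ProperSpace K] {η : (Fin n → K) → ℝ≥0} (hη : IsNrm η) :
    ∃ ξ : Xm n K, Hon ξ ∧ ∃ c : ℝ≥0, 0 < c ∧ ∀ v, η v = c * nm ξ v := by
  obtain ⟨B, hB, hanti, hx⟩ := exists_sorted hη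
  have hpos : ∀ i, 0 < η (B i) := by
    intro i
    refine hη.pos _ fun h => ?_
    have h1 : B.det = 0 := Matrix.det_eq_zero_of_row_eq_zero i fun j => congrFun h j
    exact hB.isUnit.ne_zero h1
  let β : ℕ → ℝ≥0 := fun k => if h : k < n then η (B ⟨k, h⟩) else 1
  have hβ : ∀ k, 0 < β k := by
    intro k
    show 0 < (if h : k < n then η (B ⟨k, h⟩) else 1)
    split_ifs with h
    · exact hpos _
    · exact zero_lt_one
  have hβ' : ∀ i : Fin n, β i = η (B i) := by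
    intro i
    show (if h : (i : ℕ) < n then η (B ⟨i, h⟩) else 1) = η (B i)
    rw [dif_pos i.2]
  let τ : Fin n → ℝ≥0 := fun l => if 0 < (l : ℕ) then β l / β ((l : ℕ) - 1) else 1
  have hτ : ∀ l : Fin n, 0 < (l : ℕ) → τ l = β l / β ((l : ℕ) - 1) := fun l hl => if_pos hl
  have hτ1 : ∀ l, τ l ≤ 1 := by
    intro l
    show (if 0 < (l : ℕ) then β l / β ((l : ℕ) - 1) else 1) ≤ 1
    split_ifs with h
    · rw [div_le_one (hβ _), hβ' l, show β ((l : ℕ) - 1) = η (B ⟨(l : ℕ) - 1, by have := l.2; omega⟩) from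
        hβ' ⟨(l : ℕ) - 1, by have := l.2; omega⟩]
      refine hanti _ _ ?_
      show (l : ℕ) - 1 ≤ (l : ℕ)
      omega
    · exact le_refl _
  have hτ0 : ∀ l, 0 < τ l := by
    intro l
    show 0 < (if 0 < (l : ℕ) then β l / β ((l : ℕ) - 1) else 1)
    split_ifs with h
    · exact div_pos (hβ _) (hβ _)
    · exact zero_lt_one
  have hal : ∀ i : Fin n, al τ i * β 0 = η (B i) := fun i => (al_mul hβ hτ i i.2).trans (hβ' i)
  let ξ : Xm n K := ⟨psi B⁻¹ τ, B⁻¹, τ, hB.inv, hτ1, rfl⟩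
  refine ⟨ξ, ⟨B⁻¹, τ, hB.inv, hτ1, hτ0, rfl⟩, β 0, hβ 0, fun v => ?_⟩
  have h1 : Matrix.vecMul (Matrix.vecMul v B⁻¹) B = v := by
    rw [Matrix.vecMul_vecMul, Matrix.nonsing_inv_mul B hB.isUnit, Matrix.vecMul_one]
  have h2 := hx (Matrix.vecMul v B⁻¹)
  rw [h1] at h2
  rw [h2, nm_eq (ξ := ξ) (g := B⁻¹) (τ := τ) rfl v, NNReal.mul_finset_sup]
  refine Finset.sup_congr rfl fun i _ => ?_
  rw [← hal i]
  ring

omit [IsUltrametricDist K] in
private theorem sub_mul'' {r s : ℕ} (h : Matrix (Fin s) (Fin n) K) (k : Matrix (Fin n) (Fin n) K) (F : Fin r → Fin s) :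
    (h * k).submatrix F id = h.submatrix F id * k := by
  ext i j
  rw [Matrix.submatrix_apply, Matrix.mul_apply, Matrix.mul_apply]
  rfl

private theorem nu_eq_one' {g : Matrix (Fin n) (Fin n) K} {τ : Fin n → ℝ≥0} (hg : GO g) (hτ : ∀ l, τ l ≤ 1) {r : ℕ}
    (hr : r ≤ n) : nu 1 (psi g τ) r = 1 := by
  refine le_antisymm (Finset.sup_le fun F _ => psi_le_one hg hτ fun i j => isInt_one _ _) ?_
  obtain ⟨F, hF⟩ := exists_psi_eq_one (r := r) hg hτ hr
  rw [← hF]
  exact Finset.le_sup (f := fun F : Fin r → Fin n => psi g τ r ((1 : Matrix (Fin n) (Fin n) K).submatrix F id))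
    (Finset.mem_univ F)

theorem hon_smul [ProperSpace K] (h : Matrix.GeneralLinearGroup (Fin n) K) {ξ : Xm n K} (hξ : Hon ξ) : Hon (h • ξ) := by
  obtain ⟨g, τ, hg, h1, h0, hpsi⟩ := hξ
  have hh : IsUnit h.1.det := (Matrix.isUnit_iff_isUnit_det _).1 h.isUnit
  obtain ⟨g', τ', hg', h1', h0', hc⟩ := exists_psi_mul hg h1 h0 hh
  refine ⟨g', τ', hg', h1', h0', ?_⟩
  funext r x
  rw [smul_apply, hpsi]
  obtain ⟨c, hc0, hcx⟩ := hc r
  rcases lt_or_ge n r with hr | hr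
  · have e1 : psi g τ r (x * h.1) = 0 := dt_eq_zero_of_lt hr _
    have e2 : psi g' τ' r x = 0 := dt_eq_zero_of_lt hr _
    rw [e1, e2, zero_div]
  · have e1 : nu h.1 (psi g τ) r = c := by
      have e2 : nu h.1 (psi g τ) r = c * nu 1 (psi g' τ') r := by
        unfold nu
        rw [NNReal.mul_finset_sup]
        refine Finset.sup_congr rfl fun F _ => ?_
        rw [← hcx, ← sub_mul'', Matrix.one_mul]
      rw [e2, nu_eq_one' hg' h1' hr, mul_one]
    rw [e1, hcx, mul_div_cancel_left₀ _ hc0.ne']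

private theorem nm_zero (hn : n < 1) (ξ : Xm n K) (v : Fin n → K) : nm ξ v = 0 := by
  obtain ⟨g, τ, hg, hτ, hξ⟩ := ξ.2
  unfold nm
  rw [hξ]
  exact dt_eq_zero_of_lt hn _

/-- the action on the norms, up to a factor; no assumption on the point -/
theorem exists_nm_smul [ProperSpace K] (h : Matrix.GeneralLinearGroup (Fin n) K) (ξ : Xm n K) :
    ∃ c : ℝ≥0, 0 < c ∧ ∀ v, nm (h • ξ) v = c * nm ξ (Matrix.vecMul v h.1) := by
  rcases lt_or_ge n 1 with hn | hn
  · exact ⟨1, zero_lt_one, fun v => by rw [nm_zero hn, nm_zero hn, mul_zero]⟩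
  · have h1 : 0 < nu h.1 ξ.1 1 := nu_pos ((Matrix.isUnit_iff_isUnit_det _).1 h.isUnit) ξ.2 hn
    refine ⟨(nu h.1 ξ.1 1)⁻¹, inv_pos.2 h1, fun v => ?_⟩
    have h2 : (Matrix.of fun _ : Fin 1 => v) * h.1 = Matrix.of fun _ => Matrix.vecMul v h.1 := by
      ext i j
      rw [Matrix.mul_apply]
      rfl
    show (h • ξ).1 1 (Matrix.of fun _ => v) = (nu h.1 ξ.1 1)⁻¹ * ξ.1 1 (Matrix.of fun _ => Matrix.vecMul v h.1)
    rw [smul_apply, h2, div_eq_inv_mul]

theorem dense_hon : Dense {ξ : Xm n K | Hon ξ} := by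
  intro ξ
  obtain ⟨g, τ, hg, hτ, hξ⟩ := ξ.2
  let τm : ℝ≥0 → Fin n → ℝ≥0 := fun m l => max (min m 1) (τ l)
  have hm1 : ∀ m l, τm m l ≤ 1 := fun m l => max_le (min_le_right _ _) (hτ l)
  have hm0 : ∀ m, 0 < m → ∀ l, 0 < τm m l := fun m hm l => lt_max_of_lt_left (lt_min hm zero_lt_one)
  let f : ℝ≥0 → Xm n K := fun m => ⟨psi g (τm m), g, τm m, hg, hm1 m, rfl⟩
  have hf : Continuous f := by
    refine Xm.continuous_of fun r x => ?_
    have hc : Continuous fun m => (g, τm m) :=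
      continuous_const.prodMk (continuous_pi fun l => (continuous_id.min continuous_const).max continuous_const)
    have h2 : Continuous ((fun p : Matrix (Fin n) (Fin n) K × (Fin n → ℝ≥0) => psi p.1 p.2 r x) ∘ fun m => (g, τm m)) :=
      Continuous.comp (continuous_psi r x) hc
    have h3 : (fun m : ℝ≥0 => (f m).1 r x) =
        (fun p : Matrix (Fin n) (Fin n) K × (Fin n → ℝ≥0) => psi p.1 p.2 r x) ∘ fun m => (g, τm m) := rfl
    rw [h3]
    exact h2
  have hz : f 0 = ξ := by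
    refine Subtype.ext ?_
    have h1 : τm 0 = τ := by
      funext l
      show max (min 0 1) (τ l) = τ l
      rw [min_eq_left zero_le_one, max_eq_right zero_le]
    show psi g (τm 0) = ξ.1
    rw [h1, hξ]
  have hlim : Filter.Tendsto f (nhdsWithin 0 (Set.Ioi 0)) (nhds ξ) := by
    have h1 := (hf.tendsto 0).mono_left (nhdsWithin_le_nhds (s := Set.Ioi 0))
    rwa [hz] at h1
  refine mem_closure_of_tendsto hlim ?_
  filter_upwards [self_mem_nhdsWithin] with m hm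
  exact ⟨g, τm m, hg, hm1 m, hm0 m hm, rfl⟩

end Pool.Agent.H9.XM
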