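import Pool.Agent.H9.XM.Car

/-!
# [H9 XM Bld] the action on the points of the building

`sw_al`: `wt_al` for every injective `f`; for `f` not injective the minor is `0`. `sw_eq`: let `P` be invertible with
`max ‖(x P)_j‖ α j = max ‖x i‖ α' i` for all rows `x`, all `α j`, `α' i > 0`. With `x` = row `i` of the identity:
`‖P i j‖ α j ≤ α' i`. So `(∏ j, ‖P (k j) (f j)‖) ∏ α (f j) ≤ ∏ α' (k j)` and `sw_mul_le` (`c = 1`) gives `≤`. `≥`: the same for `P⁻¹`
(`max ‖(y P⁻¹)_i‖ α' i = max ‖y j‖ α j`).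
`exists_psi_mul`: `η x = max ‖(x (h g))_j‖ al τ j` is a norm (`IsNrm`); take `B` from `exists_sorted`, `P = B * (h * g)`, `α = al τ`,
`α' i = η (B i)` (antitone, positive): by `sw_eq` `sw r α (x * B * h * g) = sw r α' x`, so with `g' = B⁻¹`:
`sw r α (x * h * g) = sw r α' (x * g')`. Put `τ' 0 = 1`, `τ' l = α' l / α' (l-1)` for `l > 0`: `0 < τ' l ≤ 1`, `α' i = α' 0 * al τ' i`, so
`sw r α' x = (α' 0) ^ r * sw r (al τ') x`, and by `sw_al` both sides are positive multiples of `dt`.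
(`n = 0`: all matrices are empty, `g' = 1`.)
-/

set_option autoImplicit false

namespace Pool.Agent.H9.XM

open scoped NNReal

variable {K : Type} [NormedField K] [IsUltrametricDist K] {n : ℕ}

/-- one direction of `sw_eq` -/
private theorem sw_le_sw {P : Matrix (Fin n) (Fin n) K} {α α' : Fin n → ℝ≥0}
    (h : ∀ x : Fin n → K, (Finset.univ.sup fun j => ‖Matrix.vecMul x P j‖₊ * α j) ≤ Finset.univ.sup fun i => ‖x i‖₊ * α' i)
    (r : ℕ) (x : Matrix (Fin r) (Fin n) K) :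
    sw r (fun f => ∏ j, α (f j)) (x * P) ≤ sw r (fun f => ∏ j, α' (f j)) x := by
  have h1 : ∀ i j, ‖P i j‖₊ * α j ≤ α' i := by
    intro i j
    have h2 := h (Pi.single i 1)
    have h3 : Matrix.vecMul (Pi.single i 1) P = P i := Matrix.single_one_vecMul i P
    rw [h3] at h2
    refine le_trans (le_trans (Finset.le_sup (f := fun j => ‖P i j‖₊ * α j) (Finset.mem_univ j)) h2)
      (Finset.sup_le fun k _ => ?_)
    by_cases hk : k = i
    · subst hk
      rw [Pi.single_eq_same, nnnorm_one, one_mul]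
    · rw [Pi.single_eq_of_ne hk, nnnorm_zero, zero_mul]
      exact zero_le
  have h4 := sw_mul_le (W := fun f : Fin r → Fin n => ∏ j, α (f j)) (W' := fun f : Fin r → Fin n => ∏ j, α' (f j))
    (c := 1) (P := P) (fun f k _ _ => by
      rw [one_mul, ← Finset.prod_mul_distrib]
      exact Finset.prod_le_prod' fun j _ => h1 _ _) x
  rwa [one_mul] at h4

/-- the norm of the building point -/
private noncomputable def et (M : Matrix (Fin n) (Fin n) K) (α : Fin n → ℝ≥0) (x : Fin n → K) : ℝ≥0 :=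
  Finset.univ.sup fun j => ‖Matrix.vecMul x M j‖₊ * α j

private theorem isNrm_et {M : Matrix (Fin n) (Fin n) K} (hM : IsUnit M.det) {α : Fin n → ℝ≥0} (hα : ∀ j, 0 < α j) :
    IsNrm (et M α) := by
  refine ⟨fun x y => ?_, fun c x => ?_, fun x hx => ?_⟩
  · refine Finset.sup_le fun j _ => ?_
    have h1 : Matrix.vecMul (x + y) M j = Matrix.vecMul x M j + Matrix.vecMul y M j := by
      rw [Matrix.add_vecMul, Pi.add_apply]
    rw [h1]
    have h2 : ‖Matrix.vecMul x M j‖₊ * α j ≤ et M α x :=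
      Finset.le_sup (f := fun j => ‖Matrix.vecMul x M j‖₊ * α j) (Finset.mem_univ j)
    have h3 : ‖Matrix.vecMul y M j‖₊ * α j ≤ et M α y :=
      Finset.le_sup (f := fun j => ‖Matrix.vecMul y M j‖₊ * α j) (Finset.mem_univ j)
    have h4 : ‖Matrix.vecMul x M j + Matrix.vecMul y M j‖₊ ≤ max ‖Matrix.vecMul x M j‖₊ ‖Matrix.vecMul y M j‖₊ :=
      IsUltrametricDist.nnnorm_add_le_max _ _
    rcases le_total ‖Matrix.vecMul x M j‖₊ ‖Matrix.vecMul y M j‖₊ with h5 | h5
    · rw [max_eq_right h5] at h4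
      exact le_trans (le_trans (mul_le_mul' h4 le_rfl) h3) (le_max_right _ _)
    · rw [max_eq_left h5] at h4
      exact le_trans (le_trans (mul_le_mul' h4 le_rfl) h2) (le_max_left _ _)
  · unfold et
    rw [NNReal.mul_finset_sup]
    refine Finset.sup_congr rfl fun j _ => ?_
    rw [Matrix.smul_vecMul, Pi.smul_apply, smul_eq_mul, nnnorm_mul, mul_assoc]
  · have h1 : Matrix.vecMul x M ≠ 0 := by
      intro h2
      apply hx
      have h3 : Matrix.vecMul (Matrix.vecMul x M) M⁻¹ = 0 := by rw [h2, Matrix.zero_vecMul]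
      rwa [Matrix.vecMul_vecMul, Matrix.mul_nonsing_inv M hM, Matrix.vecMul_one] at h3
    obtain ⟨j, hj⟩ := Function.ne_iff.1 h1
    have h2 : ‖Matrix.vecMul x M j‖₊ * α j ≤ et M α x :=
      Finset.le_sup (f := fun j => ‖Matrix.vecMul x M j‖₊ * α j) (Finset.mem_univ j)
    refine lt_of_lt_of_le (mul_pos ?_ (hα j)) h2
    exact nnnorm_pos.2 hj

private theorem sw_smul (a : ℝ≥0) (β : Fin n → ℝ≥0) (r : ℕ) (y : Matrix (Fin r) (Fin n) K) :
    sw r (fun f => ∏ j, (a * β (f j))) y = a ^ r * sw r (fun f => ∏ j, β (f j)) y := by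
  unfold sw
  rw [NNReal.mul_finset_sup]
  refine Finset.sup_congr rfl fun f _ => ?_
  show ‖(y.submatrix id f).det‖₊ * (∏ j, a * β (f j)) = a ^ r * (‖(y.submatrix id f).det‖₊ * ∏ j, β (f j))
  rw [Finset.prod_mul_distrib, Finset.prod_const, Finset.card_univ, Fintype.card_fin]
  exact mul_left_comm _ _ _

/-- the gaps of a positive antitone sequence -/
private theorem exists_gaps (β : Fin n → ℝ≥0) (hβ : ∀ i, 0 < β i) (ha : ∀ i j : Fin n, i ≤ j → β j ≤ β i) :
    ∃ (a : ℝ≥0) (σ : Fin n → ℝ≥0), 0 < a ∧ (∀ l, σ l ≤ 1) ∧ (∀ l, 0 < σ l) ∧ ∀ i, β i = a * al σ i := by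
  rcases Nat.eq_zero_or_pos n with hn | hn
  · subst hn
    exact ⟨1, fun _ => 1, one_pos, fun l => l.elim0, fun l => l.elim0, fun l => l.elim0⟩
  · refine ⟨β ⟨0, hn⟩, fun l => β l / β ⟨(l : ℕ) - 1, by have := l.2; omega⟩, hβ _, fun l => ?_, fun l => ?_, ?_⟩
    · refine div_le_one_of_le₀ (ha _ _ ?_) zero_le
      exact Fin.le_def.2 (Nat.sub_le _ _)
    · exact div_pos (hβ _) (hβ _)
    · have key : ∀ k : ℕ, ∀ hk : k < n, β ⟨k, hk⟩ = β ⟨0, hn⟩ *
          al (fun l : Fin n => β l / β ⟨(l : ℕ) - 1, by have := l.2; omega⟩) ⟨k, hk⟩ := by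
        intro k
        induction k with
        | zero =>
          intro hk
          have h1 : (Finset.univ.filter fun l : Fin n => 0 < (l : ℕ) ∧ l ≤ (⟨0, hk⟩ : Fin n)) = ∅ := by
            refine Finset.filter_eq_empty_iff.2 fun {l} _ h => ?_
            have h2 : (l : ℕ) ≤ 0 := Fin.le_def.1 h.2
            omega
          unfold al
          rw [h1, Finset.prod_empty, mul_one]
        | succ k ih =>
          intro hk
          have hk' : k < n := by omega
          have h1 : (Finset.univ.filter fun l : Fin n => 0 < (l : ℕ) ∧ l ≤ (⟨k + 1, hk⟩ : Fin n)) =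
              insert (⟨k + 1, hk⟩ : Fin n) (Finset.univ.filter fun l : Fin n => 0 < (l : ℕ) ∧ l ≤ (⟨k, hk'⟩ : Fin n)) := by
            ext l
            rw [Finset.mem_insert, Finset.mem_filter, Finset.mem_filter, Fin.ext_iff, Fin.le_def, Fin.le_def]
            show (l ∈ Finset.univ ∧ 0 < (l : ℕ) ∧ (l : ℕ) ≤ k + 1) ↔ ((l : ℕ) = k + 1 ∨ l ∈ Finset.univ ∧ 0 < (l : ℕ) ∧ (l : ℕ) ≤ k)
            have h3 : l ∈ (Finset.univ : Finset (Fin n)) := Finset.mem_univ l
            constructor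
            · rintro ⟨-, h4, h5⟩
              rcases Nat.lt_or_ge k (l : ℕ) with h6 | h6
              · exact Or.inl (by omega)
              · exact Or.inr ⟨h3, h4, h6⟩
            · rintro (h4 | ⟨-, h4, h5⟩)
              · exact ⟨h3, by omega, by omega⟩
              · exact ⟨h3, h4, by omega⟩
          have h2 : (⟨k + 1, hk⟩ : Fin n) ∉ (Finset.univ.filter fun l : Fin n => 0 < (l : ℕ) ∧ l ≤ (⟨k, hk'⟩ : Fin n)) := by
            intro h
            have h3 : k + 1 ≤ k := Fin.le_def.1 (Finset.mem_filter.1 h).2.2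
            omega
          have ih' := ih hk'
          unfold al at ih' ⊢
          rw [h1, Finset.prod_insert h2, mul_left_comm, ← ih']
          have h3 : (⟨(((⟨k + 1, hk⟩ : Fin n) : ℕ)) - 1, by omega⟩ : Fin n) = ⟨k, hk'⟩ := rfl
          show β ⟨k + 1, hk⟩ = β ⟨k + 1, hk⟩ / β ⟨k, hk'⟩ * β ⟨k, hk'⟩
          rw [div_mul_cancel₀ _ (hβ _).ne']
      exact fun i => key i i.2

private theorem al_pos {τ : Fin n → ℝ≥0} (h0 : ∀ l, 0 < τ l) (i : Fin n) : 0 < al τ i :=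
  Finset.prod_pos fun l _ => h0 l

theorem sw_al (τ : Fin n → ℝ≥0) (r : ℕ) (x : Matrix (Fin r) (Fin n) K) :
    sw r (fun f => ∏ j, al τ (f j)) x =
      (∏ l ∈ Finset.univ.filter (fun l : Fin n => 0 < (l : ℕ)), τ l ^ (r - (l : ℕ))) * dt r τ x := by
  unfold dt sw
  rw [NNReal.mul_finset_sup]
  refine Finset.sup_congr rfl fun f _ => ?_
  by_cases hf : Function.Injective f
  · show ‖(x.submatrix id f).det‖₊ * (∏ j, al τ (f j)) = _
    rw [wt_al τ hf]
    exact mul_left_comm _ _ _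
  · rw [det_eq_zero x hf, nnnorm_zero, zero_mul, zero_mul, mul_zero]

theorem sw_eq {P : Matrix (Fin n) (Fin n) K} (hP : IsUnit P.det) {α α' : Fin n → ℝ≥0}
    (h : ∀ x : Fin n → K, (Finset.univ.sup fun j => ‖Matrix.vecMul x P j‖₊ * α j) = Finset.univ.sup fun i => ‖x i‖₊ * α' i)
    (r : ℕ) (x : Matrix (Fin r) (Fin n) K) :
    sw r (fun f => ∏ j, α (f j)) (x * P) = sw r (fun f => ∏ j, α' (f j)) x := by
  refine le_antisymm (sw_le_sw (fun x => (h x).le) r x) ?_
  have h1 := sw_le_sw (P := P⁻¹) (α := α') (α' := α) (fun y => by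
    have h2 := h (Matrix.vecMul y P⁻¹)
    rw [Matrix.vecMul_vecMul, Matrix.nonsing_inv_mul P hP, Matrix.vecMul_one] at h2
    exact h2.ge) r (x * P)
  rwa [Matrix.mul_assoc, Matrix.mul_nonsing_inv P hP, Matrix.mul_one] at h1

theorem exists_psi_mul [ProperSpace K] {g h : Matrix (Fin n) (Fin n) K} {τ : Fin n → ℝ≥0} (hg : GO g)
    (h1 : ∀ l, τ l ≤ 1) (h0 : ∀ l, 0 < τ l) (hh : IsUnit h.det) :
    ∃ (g' : Matrix (Fin n) (Fin n) K) (τ' : Fin n → ℝ≥0), GO g' ∧ (∀ l, τ' l ≤ 1) ∧ (∀ l, 0 < τ' l) ∧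
      ∀ r : ℕ, ∃ c : ℝ≥0, 0 < c ∧ ∀ x : Matrix (Fin r) (Fin n) K, psi g τ r (x * h) = c * psi g' τ' r x := by
  have hM : IsUnit (h * g).det := by
    rw [Matrix.det_mul]
    exact hh.mul hg.isUnit
  have hη : IsNrm (et (h * g) (al τ)) := isNrm_et hM (al_pos h0)
  obtain ⟨B, hB, hanti, hsup⟩ := exists_sorted hη
  have hBn : ∀ i, 0 < et (h * g) (al τ) (B i) := by
    intro i
    refine hη.pos _ fun h2 => ?_
    have h3 : B.det = 0 := Matrix.det_eq_zero_of_row_eq_zero i fun j => congrFun h2 j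
    exact hB.isUnit.ne_zero h3
  obtain ⟨a, τ', ha, hτ1, hτ0, hτe⟩ := exists_gaps (fun i => et (h * g) (al τ) (B i)) hBn hanti
  refine ⟨B⁻¹, τ', hB.inv, hτ1, hτ0, fun r => ?_⟩
  have hP : IsUnit (B * (h * g)).det := by
    rw [Matrix.det_mul]
    exact hB.isUnit.mul hM
  have hk : ∀ y : Matrix (Fin r) (Fin n) K, sw r (fun f => ∏ j, al τ (f j)) (y * (B * (h * g))) =
      sw r (fun f => ∏ j, et (h * g) (al τ) (B (f j))) y := by
    intro y
    refine sw_eq (α := al τ) (α' := fun i => et (h * g) (al τ) (B i)) hP (fun x => ?_) r y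
    rw [← hsup x]
    unfold et
    refine Finset.sup_congr rfl fun j _ => ?_
    rw [Matrix.vecMul_vecMul]
  set C : ℝ≥0 := ∏ l ∈ Finset.univ.filter (fun l : Fin n => 0 < (l : ℕ)), τ l ^ (r - (l : ℕ)) with hC
  set C' : ℝ≥0 := ∏ l ∈ Finset.univ.filter (fun l : Fin n => 0 < (l : ℕ)), τ' l ^ (r - (l : ℕ)) with hC'
  have hCp : 0 < C := Finset.prod_pos fun l _ => pow_pos (h0 l) _
  have hCp' : 0 < C' := Finset.prod_pos fun l _ => pow_pos (hτ0 l) _
  refine ⟨C⁻¹ * (a ^ r * C'), mul_pos (inv_pos.2 hCp) (mul_pos (pow_pos ha r) hCp'), fun x => ?_⟩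
  have e1 : x * h * g = x * B⁻¹ * (B * (h * g)) := by
    rw [Matrix.mul_assoc x B⁻¹, ← Matrix.mul_assoc B⁻¹ B, Matrix.nonsing_inv_mul B hB.isUnit, Matrix.one_mul,
      Matrix.mul_assoc]
  have e2 : C * dt r τ (x * h * g) = a ^ r * (C' * dt r τ' (x * B⁻¹)) := by
    rw [← sw_al τ r (x * h * g), ← sw_al τ' r (x * B⁻¹), e1, hk (x * B⁻¹), ← sw_smul a (al τ') r (x * B⁻¹)]
    have e3 : (fun f : Fin r → Fin n => ∏ j, et (h * g) (al τ) (B (f j))) = fun f => ∏ j, (a * al τ' (f j)) := by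
      funext f
      exact Finset.prod_congr rfl fun j _ => hτe (f j)
    rw [e3]
  show dt r τ (x * h * g) = C⁻¹ * (a ^ r * C') * dt r τ' (x * B⁻¹)
  calc dt r τ (x * h * g) = C⁻¹ * (C * dt r τ (x * h * g)) := by
        rw [← mul_assoc, inv_mul_cancel₀ hCp.ne', one_mul]
    _ = C⁻¹ * (a ^ r * C') * dt r τ' (x * B⁻¹) := by
        rw [e2, ← mul_assoc (a ^ r), ← mul_assoc]

end Pool.Agent.H9.XM
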