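import Pool.Agent.H9.XM.HonA

/-!
# [H9 XM Clo] the truncated norms depend continuously on the point

`Adp g B η`: the rows of `B` are a basis of the lattice `O^n * g` (`O^n` = integral rows), orthogonal and sorted for the norm `η`.
`sg B η k y = max_i ‖coordinate i of y in the basis B‖ * min 1 (η (B i) / η (B k))`.

`sgf k ξ y = max over F : Fin k → Fin n of ξ.1 (k+1) (rows F of the identity, last row y)`.

`sgf_eq`: `ξ = psi g τ`, `0 < τ l ≤ 1`, `GO g`, `al = al τ`, `z = y * g`. CLAIM `sgf k ξ y = max_j ‖z j‖ * min 1 (al j / al k)`.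
`≤`: a minor of `(rows F of g, z)` with injective columns `f`: expand along the last row (`Matrix.det_succ_row`): it is at most
`max_a ‖z (f a)‖` (all entries of `g` are integral), and `wt (k+1) τ f ≤ min 1 (al (f a) / al k)` for every `a`: `wt_al` gives
`∏ j, al (f j) = c * wt f` and `∏ (j ≤ k), al j = c` (`wt_init`), and `∏ (j ≠ a), al (f j) ≤ ∏ (j < k), al j` (`al` is antitone, the other
`k` columns are different: for the same reason `wt_le_one` in rank `k`, by `wt_al` in rank `k` for `f ∘ succAbove a`).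
`≥`: let `j` be given. `ξ.1 (k+1) (u, y)` for an integral matrix `u` of `k` rows is at most `sgf k ξ y` (expand the rows of `u` in the
rows of the identity: `sw_row_le` or `dt_row_le` for `A = (u, 0; 0, 1)` and the `n + 1` rows `(1; y)`; the terms which do not use the row
`y` in the last place vanish, the terms which use it twice have determinant `0`). Take `u` = the rows of `g⁻¹` with the indices `0, .., k-1` if
`k ≤ j`, and the indices `{0, .., k} \ {j}` if `j < k`; then `u * g` = these rows of the identity and the minor with the columns `{0, .., k-1, j}`,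
resp. `{0, .., k}`, is `± z j`, with weight `al j / al k`, resp. `1`.

`sg_eq`: `b` honest, `Adp 1 B (nm b)`: `b = psi B⁻¹ τ` with `τ l = nm b (B l) / nm b (B (l-1))` by `hon_ext`, so `al τ i = nm b (B i) / nm b (B 0)` and
`sg B (nm b) k y = sgf k b y` by `sgf_eq`.
-/

set_option autoImplicit false

namespace Pool.Agent.H9.XM

open scoped NNReal

variable {K : Type} [NormedField K] {n : ℕ}

/-- the rows of `B` are a basis of the lattice `O^n * g`, orthogonal and sorted for `η` -/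
structure Adp (g B : Matrix (Fin n) (Fin n) K) (η : (Fin n → K) → ℝ≥0) : Prop where
  lat : GO (B * g⁻¹)
  sorted : ∀ i j : Fin n, i ≤ j → η (B j) ≤ η (B i)
  eq : ∀ x : Fin n → K, η (Matrix.vecMul x B) = Finset.univ.sup fun i => ‖x i‖₊ * η (B i)

/-- the `k`-th truncated norm -/
noncomputable def sg (B : Matrix (Fin n) (Fin n) K) (η : (Fin n → K) → ℝ≥0) (k : Fin n) (y : Fin n → K) : ℝ≥0 :=
  Finset.univ.sup fun i => ‖Matrix.vecMul y B⁻¹ i‖₊ * min 1 (η (B i) / η (B k))

/-- the `k`-th truncated norm as a finite supremum of values of the point -/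
noncomputable def sgf (k : ℕ) (ξ : Xm n K) (y : Fin n → K) : ℝ≥0 :=
  Finset.univ.sup fun F : Fin k → Fin n =>
    ξ.1 (k + 1) (Matrix.of (Fin.snoc (fun i => (1 : Matrix (Fin n) (Fin n) K) (F i)) y : Fin (k + 1) → (Fin n → K)))

variable [IsUltrametricDist K]

/-- the rows `u` and the last row `y` -/
private def sn {k : ℕ} (u : Fin k → (Fin n → K)) (y : Fin n → K) : Matrix (Fin (k + 1)) (Fin n) K :=
  Matrix.of (Fin.snoc u y : Fin (k + 1) → (Fin n → K))

omit [IsUltrametricDist K] in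
private theorem sn_cast {k : ℕ} (u : Fin k → (Fin n → K)) (y : Fin n → K) (g : Matrix (Fin n) (Fin n) K) (i : Fin k)
    (j : Fin n) : (sn u y * g) i.castSucc j = Matrix.vecMul (u i) g j := by
  rw [Matrix.mul_apply]
  show ∑ m, (Fin.snoc u y : Fin (k + 1) → (Fin n → K)) i.castSucc m * g m j = ∑ m, u i m * g m j
  rw [Fin.snoc_castSucc]

omit [IsUltrametricDist K] in
private theorem sn_last {k : ℕ} (u : Fin k → (Fin n → K)) (y : Fin n → K) (g : Matrix (Fin n) (Fin n) K)
    (j : Fin n) : (sn u y * g) (Fin.last k) j = Matrix.vecMul y g j := by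
  rw [Matrix.mul_apply]
  show ∑ m, (Fin.snoc u y : Fin (k + 1) → (Fin n → K)) (Fin.last k) m * g m j = ∑ m, y m * g m j
  rw [Fin.snoc_last]

private theorem det_last_le {k : ℕ} {M : Matrix (Fin (k + 1)) (Fin (k + 1)) K}
    (h : ∀ (i : Fin k) (j : Fin (k + 1)), ‖M i.castSucc j‖₊ ≤ 1) {c : ℝ≥0}
    (hc : ∀ j, ‖M (Fin.last k) j‖₊ ≤ c) : ‖M.det‖₊ ≤ c := by
  rw [Matrix.det_succ_row M (Fin.last k)]
  refine IsUltrametricDist.nnnorm_sum_le_of_forall_le fun j _ => ?_
  have h1 : ‖(M.submatrix (Fin.last k).succAbove j.succAbove).det‖₊ ≤ 1 := nnnorm_det_le_one fun a b => by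
    rw [Matrix.submatrix_apply, Fin.succAbove_last]
    exact h a _
  rw [nnnorm_mul, nnnorm_mul, nnnorm_pow, nnnorm_neg, nnnorm_one, one_pow, one_mul]
  calc ‖M (Fin.last k) j‖₊ * ‖(M.submatrix (Fin.last k).succAbove j.succAbove).det‖₊ ≤ c * 1 := mul_le_mul' (hc j) h1
    _ = c := mul_one c

private theorem vec_le {v : Fin n → K} {c : ℝ≥0} (h : ∀ i, ‖v i‖₊ ≤ c) {g : Matrix (Fin n) (Fin n) K} (hg : IsInt g)
    (j : Fin n) : ‖Matrix.vecMul v g j‖₊ ≤ c := by
  show ‖∑ i, v i * g i j‖₊ ≤ c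
  refine IsUltrametricDist.nnnorm_sum_le_of_forall_le fun i _ => ?_
  rw [nnnorm_mul]
  calc ‖v i‖₊ * ‖g i j‖₊ ≤ c * 1 := mul_le_mul' (h i) (hg i j)
    _ = c := mul_one c

omit [IsUltrametricDist K] in
private theorem le_sgf {k : ℕ} {ξ : Xm n K} {g : Matrix (Fin n) (Fin n) K} {τ : Fin n → ℝ≥0} (h : ξ.1 = psi g τ)
    (y : Fin n → K) (F : Fin k → Fin n) :
    dt (k + 1) τ (sn (fun i => (1 : Matrix (Fin n) (Fin n) K) (F i)) y * g) ≤ sgf k ξ y := by
  have h1 : ξ.1 (k + 1) (sn (fun i => (1 : Matrix (Fin n) (Fin n) K) (F i)) y) ≤ sgf k ξ y :=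
    Finset.le_sup (f := fun F : Fin k → Fin n =>
      ξ.1 (k + 1) (Matrix.of (Fin.snoc (fun i => (1 : Matrix (Fin n) (Fin n) K) (F i)) y : Fin (k + 1) → (Fin n → K))))
      (Finset.mem_univ F)
  rw [h] at h1
  exact h1

omit [IsUltrametricDist K] in
private theorem sgf_le_of {k : ℕ} {ξ : Xm n K} {g : Matrix (Fin n) (Fin n) K} {τ : Fin n → ℝ≥0} (h : ξ.1 = psi g τ)
    {y : Fin n → K} {c : ℝ≥0}
    (hc : ∀ (F : Fin k → Fin n) (f : Fin (k + 1) → Fin n),
      ‖((sn (fun i => (1 : Matrix (Fin n) (Fin n) K) (F i)) y * g).submatrix id f).det‖₊ * wt (k + 1) τ f ≤ c) :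
    sgf k ξ y ≤ c := by
  refine Finset.sup_le fun F _ => ?_
  show ξ.1 (k + 1) (sn (fun i => (1 : Matrix (Fin n) (Fin n) K) (F i)) y) ≤ c
  rw [h]
  exact sw_le fun f => hc F f

private theorem sn_int {k : ℕ} {u : Fin k → (Fin n → K)} (hu : ∀ i j, ‖u i j‖₊ ≤ 1) (y : Fin n → K)
    {g : Matrix (Fin n) (Fin n) K} (hg : IsInt g) (f : Fin (k + 1) → Fin n) (i : Fin k) (j : Fin (k + 1)) :
    ‖((sn u y * g).submatrix id f) i.castSucc j‖₊ ≤ 1 := by
  rw [Matrix.submatrix_apply]
  show ‖(sn u y * g) i.castSucc (f j)‖₊ ≤ 1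
  rw [sn_cast]
  exact vec_le (hu i) hg _

omit [IsUltrametricDist K] in
private theorem sn_add {k : ℕ} (u : Fin k → (Fin n → K)) (y z : Fin n → K) (g : Matrix (Fin n) (Fin n) K)
    (f : Fin (k + 1) → Fin n) :
    ((sn u (y + z) * g).submatrix id f).det =
      ((sn u y * g).submatrix id f).det + ((sn u z * g).submatrix id f).det := by
  have e : ∀ w : Fin n → K, (sn u w * g).submatrix id f =
      ((sn u 0 * g).submatrix id f).updateRow (Fin.last k) (fun a => Matrix.vecMul w g (f a)) := by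
    intro w
    ext i a
    refine Fin.lastCases ?_ (fun i => ?_) i
    · rw [Matrix.updateRow_self]
      exact sn_last u w g (f a)
    · rw [Matrix.updateRow_ne (Fin.castSucc_lt_last i).ne]
      show (sn u w * g) i.castSucc (f a) = (sn u 0 * g) i.castSucc (f a)
      rw [sn_cast, sn_cast]
  rw [e (y + z), e y, e z]
  have h1 : (fun a => Matrix.vecMul (y + z) g (f a)) =
      (fun a => Matrix.vecMul y g (f a)) + fun a => Matrix.vecMul z g (f a) := by
    funext a
    rw [Pi.add_apply, Matrix.add_vecMul, Pi.add_apply]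
  rw [h1, Matrix.det_updateRow_add]

omit [IsUltrametricDist K] in
private theorem al_split (τ : Fin n → ℝ≥0) {i j : Fin n} (h : i ≤ j) :
    al τ j = al τ i * ∏ l ∈ Finset.univ.filter (fun l : Fin n => i < l ∧ l ≤ j), τ l := by
  unfold al
  have h1 : Disjoint (Finset.univ.filter fun l : Fin n => 0 < (l : ℕ) ∧ l ≤ i)
      (Finset.univ.filter fun l : Fin n => i < l ∧ l ≤ j) := by
    rw [Finset.disjoint_left]
    intro l h2 h3
    exact absurd (Finset.mem_filter.1 h2).2.2 (not_le.2 (Finset.mem_filter.1 h3).2.1)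
  rw [← Finset.prod_union h1]
  refine Finset.prod_congr ?_ fun _ _ => rfl
  ext l
  rw [Finset.mem_union, Finset.mem_filter, Finset.mem_filter, Finset.mem_filter]
  constructor
  · rintro ⟨_, h2, h3⟩
    rcases le_or_gt l i with h4 | h4
    · exact Or.inl ⟨Finset.mem_univ _, h2, h4⟩
    · exact Or.inr ⟨Finset.mem_univ _, h4, h3⟩
  · rintro (⟨_, h2, h3⟩ | ⟨_, h2, h3⟩)
    · exact ⟨Finset.mem_univ _, h2, h3.trans h⟩
    · refine ⟨Finset.mem_univ _, ?_, h3⟩
      have h4 : (i : ℕ) < l := h2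
      omega

omit [IsUltrametricDist K] in
private theorem al_pos' {τ : Fin n → ℝ≥0} (h0 : ∀ l, 0 < τ l) (i : Fin n) : 0 < al τ i :=
  Finset.prod_pos fun l _ => h0 l

omit [IsUltrametricDist K] in
private theorem wt_le_min {τ : Fin n → ℝ≥0} (h1 : ∀ l, τ l ≤ 1) (h0 : ∀ l, 0 < τ l) (k : Fin n)
    (f : Fin ((k : ℕ) + 1) → Fin n) (a : Fin ((k : ℕ) + 1)) :
    wt ((k : ℕ) + 1) τ f ≤ min 1 (al τ (f a) / al τ k) := by
  refine le_min (wt_le_one h1 f) ?_
  rw [le_div_iff₀ (al_pos' h0 k)]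
  rcases le_total k (f a) with h2 | h2
  · rw [al_split τ h2, mul_comm]
    exact mul_le_mul' le_rfl (wt_le_prod h1 f (le_refl _) a)
  · rw [al_split τ h2]
    calc wt ((k : ℕ) + 1) τ f * (al τ (f a) * ∏ l ∈ Finset.univ.filter (fun l : Fin n => f a < l ∧ l ≤ k), τ l)
        ≤ 1 * (al τ (f a) * 1) :=
          mul_le_mul' (wt_le_one h1 f) (mul_le_mul' le_rfl (Finset.prod_le_one' fun l _ => h1 l))
      _ = al τ (f a) := by rw [one_mul, mul_one]

/-- integral rows -/
private theorem sn_le_sgf {k : ℕ} {ξ : Xm n K} {g : Matrix (Fin n) (Fin n) K} {τ : Fin n → ℝ≥0} (h : ξ.1 = psi g τ)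
    {u : Fin k → (Fin n → K)} (hu : ∀ i j, ‖u i j‖₊ ≤ 1) (y : Fin n → K) :
    dt (k + 1) τ (sn u y * g) ≤ sgf k ξ y := by
  let A : Matrix (Fin (k + 1)) (Fin (n + 1)) K := Matrix.of (Fin.snoc
    (fun i => (Fin.snoc (u i) 0 : Fin (n + 1) → K)) (Fin.snoc (0 : Fin n → K) 1 : Fin (n + 1) → K) :
      Fin (k + 1) → (Fin (n + 1) → K))
  let X : Matrix (Fin (n + 1)) (Fin n) K := sn (fun m => (1 : Matrix (Fin n) (Fin n) K) m) y
  have A1 : ∀ (i : Fin k) (m : Fin n), A i.castSucc m.castSucc = u i m := by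
    intro i m
    show (Fin.snoc (fun i => (Fin.snoc (u i) 0 : Fin (n + 1) → K)) (Fin.snoc (0 : Fin n → K) 1 : Fin (n + 1) → K) :
      Fin (k + 1) → (Fin (n + 1) → K)) i.castSucc m.castSucc = u i m
    rw [Fin.snoc_castSucc, Fin.snoc_castSucc]
  have A2 : ∀ i : Fin k, A i.castSucc (Fin.last n) = 0 := by
    intro i
    show (Fin.snoc (fun i => (Fin.snoc (u i) 0 : Fin (n + 1) → K)) (Fin.snoc (0 : Fin n → K) 1 : Fin (n + 1) → K) :
      Fin (k + 1) → (Fin (n + 1) → K)) i.castSucc (Fin.last n) = 0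
    rw [Fin.snoc_castSucc, Fin.snoc_last]
  have A3 : ∀ m : Fin n, A (Fin.last k) m.castSucc = 0 := by
    intro m
    show (Fin.snoc (fun i => (Fin.snoc (u i) 0 : Fin (n + 1) → K)) (Fin.snoc (0 : Fin n → K) 1 : Fin (n + 1) → K) :
      Fin (k + 1) → (Fin (n + 1) → K)) (Fin.last k) m.castSucc = 0
    rw [Fin.snoc_last, Fin.snoc_castSucc]
    rfl
  have A4 : A (Fin.last k) (Fin.last n) = 1 := by
    show (Fin.snoc (fun i => (Fin.snoc (u i) 0 : Fin (n + 1) → K)) (Fin.snoc (0 : Fin n → K) 1 : Fin (n + 1) → K) :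
      Fin (k + 1) → (Fin (n + 1) → K)) (Fin.last k) (Fin.last n) = 1
    rw [Fin.snoc_last, Fin.snoc_last]
  have X1 : ∀ (m : Fin n) (j : Fin n), X m.castSucc j = (1 : Matrix (Fin n) (Fin n) K) m j := by
    intro m j
    show (Fin.snoc (fun m => (1 : Matrix (Fin n) (Fin n) K) m) y : Fin (n + 1) → (Fin n → K)) m.castSucc j = _
    rw [Fin.snoc_castSucc]
  have X2 : ∀ j : Fin n, X (Fin.last n) j = y j := by
    intro j
    show (Fin.snoc (fun m => (1 : Matrix (Fin n) (Fin n) K) m) y : Fin (n + 1) → (Fin n → K)) (Fin.last n) j = _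
    rw [Fin.snoc_last]
  have hAX : A * X = sn u y := by
    ext i j
    rw [Matrix.mul_apply, Fin.sum_univ_castSucc, X2]
    refine Fin.lastCases ?_ (fun i => ?_) i
    · rw [A4, one_mul, Finset.sum_eq_zero fun m _ => by rw [A3, zero_mul], zero_add]
      show y j = (Fin.snoc u y : Fin (k + 1) → (Fin n → K)) (Fin.last k) j
      rw [Fin.snoc_last]
    · rw [A2, zero_mul, add_zero]
      show _ = (Fin.snoc u y : Fin (k + 1) → (Fin n → K)) i.castSucc j
      rw [Fin.snoc_castSucc, Finset.sum_eq_single j]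
      · rw [A1, X1, Matrix.one_apply_eq, mul_one]
      · intro m _ hm
        rw [X1, Matrix.one_apply_ne hm, mul_zero]
      · intro h2
        exact absurd (Finset.mem_univ _) h2
  have hAint : ∀ i m, ‖A i m‖₊ ≤ 1 := by
    intro i m
    refine Fin.lastCases ?_ (fun i => ?_) i
    · refine Fin.lastCases ?_ (fun m => ?_) m
      · rw [A4, nnnorm_one]
      · rw [A3, nnnorm_zero]
        exact zero_le_one
    · refine Fin.lastCases ?_ (fun m => ?_) m
      · rw [A2, nnnorm_zero]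
        exact zero_le_one
      · rw [A1]
        exact hu i m
  rw [← hAX, Matrix.mul_assoc]
  unfold dt
  refine sw_row_le fun κ => ?_
  by_cases hκ : κ (Fin.last k) = Fin.last n ∧ ∀ i : Fin k, κ i.castSucc ≠ Fin.last n
  · obtain ⟨h2, h3⟩ := hκ
    choose F hF using fun i : Fin k => Fin.exists_castSucc_eq.2 (h3 i)
    have h4 : (X * g).submatrix κ id = sn (fun i => (1 : Matrix (Fin n) (Fin n) K) (F i)) y * g := by
      ext i j
      rw [Matrix.submatrix_apply]
      refine Fin.lastCases ?_ (fun i => ?_) i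
      · rw [h2]
        exact (sn_last (fun m => (1 : Matrix (Fin n) (Fin n) K) m) y g j).trans
          (sn_last (fun i => (1 : Matrix (Fin n) (Fin n) K) (F i)) y g j).symm
      · rw [← hF i]
        exact (sn_cast (fun m => (1 : Matrix (Fin n) (Fin n) K) m) y g (F i) j).trans
          (sn_cast (fun i => (1 : Matrix (Fin n) (Fin n) K) (F i)) y g i j).symm
    rw [h4]
    calc (∏ i, ‖A i (κ i)‖₊) * sw (k + 1) (wt (k + 1) τ) (sn (fun i => (1 : Matrix (Fin n) (Fin n) K) (F i)) y * g)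
        ≤ 1 * sw (k + 1) (wt (k + 1) τ) (sn (fun i => (1 : Matrix (Fin n) (Fin n) K) (F i)) y * g) :=
          mul_le_mul' (Finset.prod_le_one' fun i _ => hAint _ _) le_rfl
      _ = sw (k + 1) (wt (k + 1) τ) (sn (fun i => (1 : Matrix (Fin n) (Fin n) K) (F i)) y * g) := one_mul _
      _ ≤ sgf k ξ y := le_sgf h y F
  · have h2 : (∏ i, ‖A i (κ i)‖₊) = 0 := by
      by_cases h3 : κ (Fin.last k) = Fin.last n
      · have h4 : ∃ i : Fin k, κ i.castSucc = Fin.last n := by
          by_contra h5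
          push Not at h5
          exact hκ ⟨h3, h5⟩
        obtain ⟨i, hi⟩ := h4
        refine Finset.prod_eq_zero (Finset.mem_univ i.castSucc) ?_
        rw [hi, A2, nnnorm_zero]
      · obtain ⟨m, hm⟩ := Fin.exists_castSucc_eq.2 h3
        refine Finset.prod_eq_zero (Finset.mem_univ (Fin.last k)) ?_
        rw [← hm, A3, nnnorm_zero]
    rw [h2, zero_mul]
    exact zero_le

omit [IsUltrametricDist K] in
/-- the minor with the columns `c`, `j` -/
private theorem det_snoc {k : ℕ} {u : Fin k → (Fin n → K)} {y : Fin n → K} {g : Matrix (Fin n) (Fin n) K}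
    {c : Fin k → Fin n} (hc : Function.Injective c) {j : Fin n} (hj : ∀ i, c i ≠ j)
    (hu : ∀ i, Matrix.vecMul (u i) g = (1 : Matrix (Fin n) (Fin n) K) (c i)) :
    ((sn u y * g).submatrix id (Fin.snoc c j : Fin (k + 1) → Fin n)).det = Matrix.vecMul y g j := by
  have h1 : ((sn u y * g).submatrix id (Fin.snoc c j : Fin (k + 1) → Fin n)).BlockTriangular
      (fun i => OrderDual.toDual i) := by
    intro a b hab
    have hab' : a < b := hab
    rw [Matrix.submatrix_apply]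
    have ha : a ≠ Fin.last k := (lt_of_lt_of_le hab' (Fin.le_last b)).ne
    obtain ⟨a', rfl⟩ := Fin.exists_castSucc_eq.2 ha
    show (sn u y * g) a'.castSucc ((Fin.snoc c j : Fin (k + 1) → Fin n) b) = 0
    rw [sn_cast, hu]
    revert hab'
    refine Fin.lastCases ?_ (fun b => ?_) b
    · intro _
      rw [Fin.snoc_last]
      exact Matrix.one_apply_ne (hj a')
    · intro h2
      rw [Fin.snoc_castSucc]
      exact Matrix.one_apply_ne fun h3 => (Fin.castSucc_lt_castSucc_iff.1 h2).ne (hc h3)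
  rw [Matrix.det_of_isLowerTriangular _ h1, Fin.prod_univ_castSucc]
  have h2 : ∀ i : Fin k, ((sn u y * g).submatrix id (Fin.snoc c j : Fin (k + 1) → Fin n)) i.castSucc i.castSucc = 1 := by
    intro i
    rw [Matrix.submatrix_apply, Fin.snoc_castSucc]
    show (sn u y * g) i.castSucc (c i) = 1
    rw [sn_cast, hu]
    exact Matrix.one_apply_eq _
  rw [Finset.prod_eq_one fun i _ => h2 i, one_mul, Matrix.submatrix_apply, Fin.snoc_last]
  exact sn_last u y g j

omit [IsUltrametricDist K] in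
private theorem snoc_inj {k : ℕ} {c : Fin k → Fin n} (hc : Function.Injective c) {j : Fin n} (hj : ∀ i, c i ≠ j) :
    Function.Injective (Fin.snoc c j : Fin (k + 1) → Fin n) := by
  intro a b
  refine Fin.lastCases ?_ (fun a => ?_) a
  · refine Fin.lastCases ?_ (fun b => ?_) b
    · intro _
      rfl
    · intro h
      rw [Fin.snoc_last, Fin.snoc_castSucc] at h
      exact absurd h.symm (hj b)
  · refine Fin.lastCases ?_ (fun b => ?_) b
    · intro h
      rw [Fin.snoc_last, Fin.snoc_castSucc] at h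
      exact absurd h (hj a)
    · intro h
      rw [Fin.snoc_castSucc, Fin.snoc_castSucc] at h
      rw [hc h]

omit [IsUltrametricDist K] in
private theorem prod_init {τ : Fin n → ℝ≥0} (k : Fin n) :
    (∏ l ∈ Finset.univ.filter (fun l : Fin n => 0 < (l : ℕ)), τ l ^ ((k : ℕ) + 1 - (l : ℕ))) =
      (∏ i : Fin (k : ℕ), al τ (Fin.castLE k.2.le i)) * al τ k := by
  have h1 := wt_al τ (f := Fin.castLE (Nat.succ_le_of_lt k.2)) (Fin.castLE_injective _)
  rw [wt_init, mul_one] at h1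
  rw [← h1, Fin.prod_univ_castSucc]
  rfl

omit [IsUltrametricDist K] in
private theorem min_le_wt {τ : Fin n → ℝ≥0} (h0 : ∀ l, 0 < τ l) (k j : Fin n) :
    ∃ c : Fin (k : ℕ) → Fin n, Function.Injective c ∧ (∀ i, c i ≠ j) ∧
      min 1 (al τ j / al τ k) ≤ wt ((k : ℕ) + 1) τ (Fin.snoc c j : Fin ((k : ℕ) + 1) → Fin n) := by
  rcases le_or_gt k j with h | h
  · have hj : ∀ i : Fin (k : ℕ), Fin.castLE k.2.le i ≠ j := by
      intro i hi
      have h2 : (i : ℕ) = j := congrArg Fin.val hi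
      have h3 : (k : ℕ) ≤ j := h
      have h4 := i.2
      omega
    refine ⟨Fin.castLE k.2.le, Fin.castLE_injective _, hj, ?_⟩
    have h1 := wt_al τ (snoc_inj (Fin.castLE_injective k.2.le) hj)
    rw [prod_init, Fin.prod_univ_castSucc, Fin.snoc_last] at h1
    have h2 : (∏ i : Fin (k : ℕ), al τ ((Fin.snoc (Fin.castLE k.2.le) j : Fin ((k : ℕ) + 1) → Fin n) i.castSucc)) =
        ∏ i : Fin (k : ℕ), al τ (Fin.castLE k.2.le i) :=
      Finset.prod_congr rfl fun i _ => by rw [Fin.snoc_castSucc]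
    rw [h2, mul_assoc] at h1
    have h3 : al τ j = al τ k * wt ((k : ℕ) + 1) τ (Fin.snoc (Fin.castLE k.2.le) j : Fin ((k : ℕ) + 1) → Fin n) :=
      mul_left_cancel₀ (Finset.prod_pos fun i _ => al_pos' h0 _).ne' h1
    refine (min_le_right _ _).trans ?_
    rw [div_le_iff₀ (al_pos' h0 k), mul_comm, ← h3]
  · let e : Fin ((k : ℕ) + 1) → Fin n := Fin.castLE (Nat.succ_le_of_lt k.2)
    have he : Function.Injective e := Fin.castLE_injective _
    let j' : Fin ((k : ℕ) + 1) := ⟨j, by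
      have h2 : (j : ℕ) < k := h
      omega⟩
    have hj' : e j' = j := rfl
    have hc : Function.Injective fun i => e (j'.succAbove i) := he.comp Fin.succAbove_right_injective
    have hj : ∀ i, e (j'.succAbove i) ≠ j := fun i h2 => Fin.succAbove_ne j' i (he (h2.trans hj'.symm))
    refine ⟨fun i => e (j'.succAbove i), hc, hj, ?_⟩
    have h1 := wt_al τ (snoc_inj hc hj)
    have h2 := wt_al τ he
    rw [wt_init, mul_one] at h2
    rw [← h2, Fin.prod_univ_castSucc, Fin.snoc_last] at h1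
    have h3 : (∏ i : Fin (k : ℕ), al τ ((Fin.snoc (fun i => e (j'.succAbove i)) j : Fin ((k : ℕ) + 1) → Fin n) i.castSucc)) =
        ∏ i : Fin (k : ℕ), al τ (e (j'.succAbove i)) :=
      Finset.prod_congr rfl fun i _ => by rw [Fin.snoc_castSucc]
    have h4 : (∏ i, al τ (e i)) = al τ j * ∏ i : Fin (k : ℕ), al τ (e (j'.succAbove i)) := by
      rw [Fin.prod_univ_succAbove _ j', hj']
    rw [h3, mul_comm, ← h4] at h1
    have h5 : (∏ i, al τ (e i)) * 1 = (∏ i, al τ (e i)) *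
        wt ((k : ℕ) + 1) τ (Fin.snoc (fun i => e (j'.succAbove i)) j : Fin ((k : ℕ) + 1) → Fin n) := by
      rw [mul_one]
      exact h1
    rw [← mul_left_cancel₀ (Finset.prod_pos fun i _ => al_pos' h0 _).ne' h5]
    exact min_le_left _ _

theorem sgf_eq {ξ : Xm n K} {g : Matrix (Fin n) (Fin n) K} {τ : Fin n → ℝ≥0} (hg : GO g) (h1 : ∀ l, τ l ≤ 1)
    (h0 : ∀ l, 0 < τ l) (h : ξ.1 = psi g τ) (k : Fin n) (y : Fin n → K) :
    sgf (k : ℕ) ξ y = Finset.univ.sup fun j => ‖Matrix.vecMul y g j‖₊ * min 1 (al τ j / al τ k) := by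
  refine le_antisymm (sgf_le_of h fun F f => ?_) (Finset.sup_le fun j _ => ?_)
  · obtain ⟨a, -, ha⟩ := Finset.exists_mem_eq_sup (Finset.univ : Finset (Fin ((k : ℕ) + 1))) ⟨0, Finset.mem_univ _⟩
      (fun a => ‖Matrix.vecMul y g (f a)‖₊)
    have h2 : ‖((sn (fun i => (1 : Matrix (Fin n) (Fin n) K) (F i)) y * g).submatrix id f).det‖₊ ≤
        ‖Matrix.vecMul y g (f a)‖₊ := by
      rw [← ha]
      refine det_last_le (fun i j => sn_int (fun i j => isInt_one _ _) y hg.int f i j) fun j => ?_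
      have h3 : ((sn (fun i => (1 : Matrix (Fin n) (Fin n) K) (F i)) y * g).submatrix id f) (Fin.last k) j =
          Matrix.vecMul y g (f j) := sn_last _ _ _ _
      rw [h3]
      exact Finset.le_sup (f := fun a => ‖Matrix.vecMul y g (f a)‖₊) (Finset.mem_univ j)
    exact (mul_le_mul' h2 (wt_le_min h1 h0 k f a)).trans
      (Finset.le_sup (f := fun j => ‖Matrix.vecMul y g j‖₊ * min 1 (al τ j / al τ k)) (Finset.mem_univ (f a)))
  · obtain ⟨c, hc, hj, hw⟩ := min_le_wt h0 k j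
    let u : Fin (k : ℕ) → (Fin n → K) := fun i => g⁻¹ (c i)
    have hu : ∀ i, Matrix.vecMul (u i) g = (1 : Matrix (Fin n) (Fin n) K) (c i) := by
      intro i
      have h2 : g⁻¹ * g = 1 := Matrix.nonsing_inv_mul g hg.isUnit
      funext b
      rw [← h2, Matrix.mul_apply]
      rfl
    have h3 := sn_le_sgf (k := (k : ℕ)) h (u := u) (fun i b => hg.inv.int _ _) y
    refine le_trans ?_ h3
    have h4 := le_sw (wt ((k : ℕ) + 1) τ) (sn u y * g) (Fin.snoc c j : Fin ((k : ℕ) + 1) → Fin n)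
    rw [det_snoc hc hj hu] at h4
    exact (mul_le_mul' le_rfl hw).trans h4

theorem sgf_add (k : ℕ) (ξ : Xm n K) (y z : Fin n → K) : sgf k ξ (y + z) ≤ max (sgf k ξ y) (sgf k ξ z) := by
  obtain ⟨g, τ, -, -, h⟩ := ξ.2
  refine sgf_le_of h fun F f => ?_
  rw [sn_add]
  have h1 := (le_sw (wt (k + 1) τ) (sn (fun i => (1 : Matrix (Fin n) (Fin n) K) (F i)) y * g) f).trans (le_sgf h y F)
  have h2 := (le_sw (wt (k + 1) τ) (sn (fun i => (1 : Matrix (Fin n) (Fin n) K) (F i)) z * g) f).trans (le_sgf h z F)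
  have h3 := IsUltrametricDist.nnnorm_add_le_max
    ((sn (fun i => (1 : Matrix (Fin n) (Fin n) K) (F i)) y * g).submatrix id f).det
    ((sn (fun i => (1 : Matrix (Fin n) (Fin n) K) (F i)) z * g).submatrix id f).det
  rcases le_max_iff.1 h3 with h4 | h4
  · exact ((mul_le_mul' h4 le_rfl).trans h1).trans (le_max_left _ _)
  · exact ((mul_le_mul' h4 le_rfl).trans h2).trans (le_max_right _ _)

theorem sgf_le (k : ℕ) (ξ : Xm n K) {y : Fin n → K} {c : ℝ≥0} (h : ∀ i, ‖y i‖₊ ≤ c) : sgf k ξ y ≤ c := by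
  obtain ⟨g, τ, hg, hτ, he⟩ := ξ.2
  refine sgf_le_of he fun F f => ?_
  have h1 : ‖((sn (fun i => (1 : Matrix (Fin n) (Fin n) K) (F i)) y * g).submatrix id f).det‖₊ ≤ c := by
    refine det_last_le (fun i j => sn_int (fun i j => isInt_one _ _) y hg.int f i j) fun j => ?_
    have h3 : ((sn (fun i => (1 : Matrix (Fin n) (Fin n) K) (F i)) y * g).submatrix id f) (Fin.last k) j =
        Matrix.vecMul y g (f j) := sn_last _ _ _ _
    rw [h3]
    exact vec_le h hg.int _
  calc ‖((sn (fun i => (1 : Matrix (Fin n) (Fin n) K) (F i)) y * g).submatrix id f).det‖₊ * wt (k + 1) τ f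
      ≤ c * 1 := mul_le_mul' h1 (wt_le_one hτ f)
    _ = c := mul_one c

omit [IsUltrametricDist K] in
private theorem al_mul' {β : ℕ → ℝ≥0} (hβ : ∀ k, 0 < β k) {τ : Fin n → ℝ≥0}
    (hτ : ∀ l : Fin n, 0 < (l : ℕ) → τ l = β l / β ((l : ℕ) - 1)) :
    ∀ (k : ℕ) (hk : k < n), al τ ⟨k, hk⟩ * β 0 = β k := by
  intro k
  induction k with
  | zero =>
    intro hk
    have h1 : (Finset.univ.filter fun l : Fin n => 0 < (l : ℕ) ∧ l ≤ ⟨0, hk⟩) = ∅ := by
      refine Finset.filter_eq_empty_iff.2 fun {l} _ h => ?_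
      have h2 : (l : ℕ) ≤ 0 := h.2
      omega
    unfold al
    rw [h1, Finset.prod_empty, one_mul]
  | succ k ih =>
    intro hk
    have hk' : k < n := by omega
    have h2 : (Finset.univ.filter fun l : Fin n => (⟨k, hk'⟩ : Fin n) < l ∧ l ≤ ⟨k + 1, hk⟩) = {⟨k + 1, hk⟩} := by
      ext l
      rw [Finset.mem_filter, Finset.mem_singleton, Fin.lt_def, Fin.le_def, Fin.ext_iff]
      constructor
      · rintro ⟨_, h3, h4⟩
        have h5 : k < (l : ℕ) := h3
        have h6 : (l : ℕ) ≤ k + 1 := h4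
        show (l : ℕ) = k + 1
        omega
      · intro h3
        have h4 : (l : ℕ) = k + 1 := h3
        refine ⟨Finset.mem_univ _, ?_, ?_⟩
        · show k < (l : ℕ)
          omega
        · show (l : ℕ) ≤ k + 1
          omega
    have h3 : al τ ⟨k + 1, hk⟩ = al τ ⟨k, hk'⟩ * τ ⟨k + 1, hk⟩ := by
      rw [al_split τ (i := ⟨k, hk'⟩) (j := ⟨k + 1, hk⟩) (Fin.mk_le_mk.2 (Nat.le_succ k)), h2, Finset.prod_singleton]
    have h4 : τ ⟨k + 1, hk⟩ = β (k + 1) / β k := hτ ⟨k + 1, hk⟩ (Nat.succ_pos k)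
    rw [h3, h4, mul_right_comm, ih hk', mul_div_cancel₀ _ (hβ k).ne']

theorem sg_eq {b : Xm n K} (hb : Hon b) {B : Matrix (Fin n) (Fin n) K} (h : Adp 1 B (nm b)) (k : Fin n) (y : Fin n → K) :
    sg B (nm b) k y = sgf (k : ℕ) b y := by
  have hη := hb.isNrm
  have hB : GO B := by
    have h1 := h.lat
    rwa [inv_one, Matrix.mul_one] at h1
  have hpos : ∀ i, 0 < nm b (B i) := by
    intro i
    refine hη.pos _ fun h2 => ?_
    have h1 : B.det = 0 := Matrix.det_eq_zero_of_row_eq_zero i fun j => congrFun h2 j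
    exact hB.isUnit.ne_zero h1
  let β : ℕ → ℝ≥0 := fun k => if h : k < n then nm b (B ⟨k, h⟩) else 1
  have hβ : ∀ k, 0 < β k := by
    intro k
    show 0 < (if h : k < n then nm b (B ⟨k, h⟩) else 1)
    split_ifs with h
    · exact hpos _
    · exact zero_lt_one
  have hβ' : ∀ i : Fin n, β i = nm b (B i) := by
    intro i
    show (if h : (i : ℕ) < n then nm b (B ⟨i, h⟩) else 1) = nm b (B i)
    rw [dif_pos i.2]
  let τ : Fin n → ℝ≥0 := fun l => if 0 < (l : ℕ) then β l / β ((l : ℕ) - 1) else 1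
  have hτ : ∀ l : Fin n, 0 < (l : ℕ) → τ l = β l / β ((l : ℕ) - 1) := fun l hl => if_pos hl
  have hτ1 : ∀ l, τ l ≤ 1 := by
    intro l
    show (if 0 < (l : ℕ) then β l / β ((l : ℕ) - 1) else 1) ≤ 1
    split_ifs with h2
    · rw [div_le_one (hβ _), hβ' l, show β ((l : ℕ) - 1) = nm b (B ⟨(l : ℕ) - 1, by have := l.2; omega⟩) from
        hβ' ⟨(l : ℕ) - 1, by have := l.2; omega⟩]
      refine h.sorted _ _ ?_
      show (l : ℕ) - 1 ≤ (l : ℕ)
      omega
    · exact le_refl _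
  have hτ0 : ∀ l, 0 < τ l := by
    intro l
    show 0 < (if 0 < (l : ℕ) then β l / β ((l : ℕ) - 1) else 1)
    split_ifs with h2
    · exact div_pos (hβ _) (hβ _)
    · exact zero_lt_one
  have hal : ∀ i : Fin n, al τ i * β 0 = nm b (B i) := fun i => (al_mul' hβ hτ i i.2).trans (hβ' i)
  let ξ : Xm n K := ⟨psi B⁻¹ τ, B⁻¹, τ, hB.inv, hτ1, rfl⟩
  have hξ : Hon ξ := ⟨B⁻¹, τ, hB.inv, hτ1, hτ0, rfl⟩
  have hbξ : b = ξ := by
    refine hon_ext hb hξ (c := β 0) fun v => ?_
    have h1 : Matrix.vecMul (Matrix.vecMul v B⁻¹) B = v := by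
      rw [Matrix.vecMul_vecMul, Matrix.nonsing_inv_mul B hB.isUnit, Matrix.vecMul_one]
    have h2 := h.eq (Matrix.vecMul v B⁻¹)
    rw [h1] at h2
    rw [h2, nm_eq (ξ := ξ) (g := B⁻¹) (τ := τ) rfl v, NNReal.mul_finset_sup]
    refine Finset.sup_congr rfl fun i _ => ?_
    rw [← hal i]
    ring
  have he : b.1 = psi B⁻¹ τ := congrArg Subtype.val hbξ
  rw [sgf_eq hB.inv hτ1 hτ0 he k y]
  unfold sg
  refine Finset.sup_congr rfl fun i _ => ?_
  rw [← hal i, ← hal k, mul_div_mul_right _ _ (hβ 0).ne']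

end Pool.Agent.H9.XM
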