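import Pool.Agent.H9.XM.CloU
import Pool.Agent.H92.LG.CoreS

/-!
# [H9 XM CloS] closeness of honest points, in the form of `H92/LG/CoreS`
-/

set_option autoImplicit false

namespace Pool.Agent.H9.XM

open scoped NNReal

variable {K : Type} [NormedField K] {n : ℕ} [IsUltrametricDist K]

/-- the norm `σ_k(b)` of an honest point is the finite supremum `sgf` -/
theorem isSig_eq {b : Xm n K} (hb : Hon b) {k : Fin n} {s : (Fin n → K) → ℝ≥0} (h : Pool.Agent.H92.LG.IsSig k (nm b) s)
    (y : Fin n → K) : s y = sgf (k : ℕ) b y := by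
  obtain ⟨B, α, hA, hs⟩ := h
  have h1 : ∀ i, nm b (B i) = α i := by
    intro i
    have h2 := hA.eq (Pi.single i 1)
    have h3 : Matrix.vecMul (Pi.single i 1) B = B i := Matrix.single_one_vecMul i B
    rw [h3] at h2
    rw [h2]
    refine le_antisymm (Finset.sup_le fun j _ => ?_) ?_
    · by_cases hj : j = i
      · subst hj
        rw [Pi.single_eq_same, nnnorm_one, one_mul]
      · rw [Pi.single_eq_of_ne hj, nnnorm_zero, zero_mul]
        exact zero_le
    · have h4 := Finset.le_sup (f := fun j => ‖(Pi.single i 1 : Fin n → K) j‖₊ * α j) (Finset.mem_univ i)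
      refine le_trans (le_of_eq ?_) h4
      show α i = ‖(Pi.single i 1 : Fin n → K) i‖₊ * α i
      rw [Pi.single_eq_same, nnnorm_one, one_mul]
  have hAdp : Adp 1 B (nm b) := by
    refine ⟨?_, fun i j hij => ?_, fun x => ?_⟩
    · rw [inv_one, mul_one]
      exact hA.go
    · rw [h1, h1]
      exact hA.anti i j hij
    · rw [hA.eq x]
      exact Finset.sup_congr rfl fun i _ => by rw [h1]
  rw [← sg_eq hb hAdp k y]
  have h5 : Matrix.vecMul (Matrix.vecMul y B⁻¹) B = y := by
    rw [Matrix.vecMul_vecMul, Matrix.nonsing_inv_mul B hA.go.isUnit, Matrix.vecMul_one]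
  have h6 := hs (Matrix.vecMul y B⁻¹)
  rw [h5] at h6
  rw [h6]
  refine Finset.sup_congr rfl fun i _ => ?_
  rw [h1, h1, min_comm]

/-- CLOSE: the honest points near a given point are close to each other -/
theorem exists_Close [ProperSpace K] (ξ : Xm n K) {δ : ℝ≥0} (hδ : 0 < δ) :
    ∃ U : Set (Xm n K), IsOpen U ∧ ξ ∈ U ∧ ∀ b ∈ U, ∀ b' ∈ U, Hon b → Hon b' →
      Pool.Agent.H92.LG.Close δ (nm b) (nm b') := by
  obtain ⟨U, hU, hξ, h⟩ := exists_close_one ξ hδ
  refine ⟨U, hU, hξ, fun b hb b' hb' hh hh' k s s' hs hs' y hy => ?_⟩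
  rw [isSig_eq hh hs y, isSig_eq hh' hs' y]
  exact ⟨h b hb b' hb' k y hy, h b' hb' b hb k y hy⟩

end Pool.Agent.H9.XM
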