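import Pool.Agent.H9.XM.Clo

/-!
# [H9 XM CloU] the truncated norms are close for close honest points

`exists_close`: (1) `g = 1`: for `δ' = δ / 2 > 0` choose a finite `δ'`-net `N` of the compact set of integral rows (proper space; sup norm on
`Fin n → K`); `U` = all `b` with `|sgf k b y - sgf k ξ y| < δ/2` for all `k : Fin n`, `y ∈ N` (finitely many open conditions:
`b ↦ sgf k b y` is continuous: `Continuous.finset_sup_apply` or by induction, `Xm.continuous_apply`). For `y` integral choose `y' ∈ N` with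
`‖y i - y' i‖ ≤ δ'`; by `sgf_add`, `sgf_le`: `sgf k b y ≤ max (sgf k b y') δ'`, `sgf k b y' ≤ max (sgf k b y) δ'`; so for `b`, `b' ∈ U` the numbers
`max (sgf k b y) δ'` and `max (sgf k b' y) δ'` differ by at most `2 * δ / 2 = δ`, and both numbers `sgf k b y`, `sgf k b' y` differ from their
maximum with `δ'` only if they are `≤ δ'`. (`a ≤ max a' δ' + δ`: choose the constants smaller, for instance `δ / 4`.)
(2) general `g`: `nm (g • b) v = c * nm b (v * g)` (`exists_nm_smul`); `Adp g B (nm b)` gives `Adp 1 (B * g⁻¹) (nm (g • b))`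
(`nm (g • b) ((B g⁻¹) i) = c * nm b (B i)`), and `sg B (nm b) k y = sg (B * g⁻¹) (nm (g • b)) k (y * g⁻¹)` (`c` cancels,
`(B g⁻¹)⁻¹ = g B⁻¹`). Apply (1) to `g • ξ` and take the preimage of `U` under the continuous map `b ↦ g • b`; `hon_smul`, `sg_eq`.
-/

set_option autoImplicit false

namespace Pool.Agent.H9.XM

open scoped NNReal

variable {K : Type} [NormedField K] {n : ℕ} [IsUltrametricDist K]

theorem continuous_sgf (k : ℕ) (y : Fin n → K) : Continuous fun ξ : Xm n K => sgf k ξ y := by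
  unfold sgf
  exact Continuous.finset_sup_apply fun F _ => Xm.continuous_apply _ _

omit [IsUltrametricDist K] in
private theorem isCompact_rows [ProperSpace K] : IsCompact {y : Fin n → K | ∀ i, ‖y i‖₊ ≤ 1} := by
  have h1 : IsCompact (Set.pi Set.univ fun _ : Fin n => Metric.closedBall (0 : K) 1) :=
    isCompact_univ_pi fun _ => isCompact_closedBall _ _
  have h2 : {y : Fin n → K | ∀ i, ‖y i‖₊ ≤ 1} = Set.pi Set.univ fun _ : Fin n => Metric.closedBall (0 : K) 1 := by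
    ext y
    constructor
    · intro hy i _
      exact mem_closedBall_zero_iff.2 (hy i)
    · intro hy i
      exact mem_closedBall_zero_iff.1 (hy i (Set.mem_univ i))
  rw [h2]
  exact h1

omit [IsUltrametricDist K] in
private theorem exists_net [ProperSpace K] {δ : ℝ≥0} (hδ : 0 < δ) : ∃ N : Set (Fin n → K), N.Finite ∧
    ∀ y : Fin n → K, (∀ i, ‖y i‖₊ ≤ 1) → ∃ z ∈ N, ∀ i, ‖(y - z) i‖₊ ≤ δ := by
  obtain ⟨N, -, hN, hc⟩ := (isCompact_rows (K := K) (n := n)).finite_cover_balls (e := (δ : ℝ)) hδ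
  refine ⟨N, hN, fun y hy => ?_⟩
  have h1 := hc hy
  rw [Set.mem_iUnion₂] at h1
  obtain ⟨z, hz, h2⟩ := h1
  refine ⟨z, hz, fun i => ?_⟩
  have h3 : dist (y i) (z i) ≤ dist y z := dist_le_pi_dist y z i
  have h4 : dist y z < δ := Metric.mem_ball.1 h2
  rw [← NNReal.coe_le_coe, coe_nnnorm, Pi.sub_apply, ← dist_eq_norm]
  linarith

theorem exists_close_one [ProperSpace K] (ξ : Xm n K) {δ : ℝ≥0} (hδ : 0 < δ) :
    ∃ U : Set (Xm n K), IsOpen U ∧ ξ ∈ U ∧ ∀ b ∈ U, ∀ b' ∈ U, ∀ (k : Fin n) (y : Fin n → K), (∀ i, ‖y i‖₊ ≤ 1) →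
      sgf (k : ℕ) b y ≤ sgf (k : ℕ) b' y + δ := by
  have hd : 0 < δ / 4 := div_pos hδ (by norm_num)
  obtain ⟨N, hN, hn⟩ := exists_net (K := K) (n := n) hd
  refine ⟨⋂ k : Fin n, ⋂ y ∈ N, {b | sgf (k : ℕ) b y < sgf (k : ℕ) ξ y + δ / 4 ∧
    sgf (k : ℕ) ξ y < sgf (k : ℕ) b y + δ / 4}, ?_, ?_, ?_⟩
  · refine isOpen_iInter_of_finite fun k => hN.isOpen_biInter fun y _ => ?_
    have hs : Continuous fun b : Xm n K => sgf (k : ℕ) b y := continuous_sgf _ _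
    have hs2 : Continuous fun b : Xm n K => sgf (k : ℕ) b y + δ / 4 := hs.add continuous_const
    have h1 : IsOpen {b : Xm n K | sgf (k : ℕ) b y < sgf (k : ℕ) ξ y + δ / 4} := isOpen_lt hs continuous_const
    have h2 : IsOpen {b : Xm n K | sgf (k : ℕ) ξ y < sgf (k : ℕ) b y + δ / 4} := isOpen_lt continuous_const hs2
    exact h1.inter h2
  · refine Set.mem_iInter.2 fun k => Set.mem_iInter₂.2 fun y _ => ?_
    exact ⟨lt_add_of_pos_right _ hd, lt_add_of_pos_right _ hd⟩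
  · intro b hb b' hb' k y hy
    obtain ⟨z, hz, hyz⟩ := hn y hy
    have h1 := (Set.mem_iInter₂.1 (Set.mem_iInter.1 hb k) z hz).1
    have h2 := (Set.mem_iInter₂.1 (Set.mem_iInter.1 hb' k) z hz).2
    have h3 : sgf (k : ℕ) b y ≤ max (sgf (k : ℕ) b z) (δ / 4) := by
      have e1 := sgf_add (k : ℕ) b z (y - z)
      rw [add_sub_cancel] at e1
      exact e1.trans (max_le_max le_rfl (sgf_le _ _ hyz))
    have h4 : sgf (k : ℕ) b' z ≤ max (sgf (k : ℕ) b' y) (δ / 4) := by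
      have e1 := sgf_add (k : ℕ) b' y (z - y)
      rw [add_sub_cancel] at e1
      refine e1.trans (max_le_max le_rfl (sgf_le _ _ fun i => ?_))
      have e2 := hyz i
      rw [Pi.sub_apply] at e2 ⊢
      rwa [← nnnorm_neg, neg_sub]
    have g1 : ((sgf (k : ℕ) b z : ℝ≥0) : ℝ) < (sgf (k : ℕ) ξ z : ℝ≥0) + (δ : ℝ) / 4 := by exact_mod_cast h1
    have g2 : ((sgf (k : ℕ) ξ z : ℝ≥0) : ℝ) < (sgf (k : ℕ) b' z : ℝ≥0) + (δ : ℝ) / 4 := by exact_mod_cast h2
    have g3 : ((sgf (k : ℕ) b y : ℝ≥0) : ℝ) ≤ max ((sgf (k : ℕ) b z : ℝ≥0) : ℝ) ((δ : ℝ) / 4) := by exact_mod_cast h3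
    have g4 : ((sgf (k : ℕ) b' z : ℝ≥0) : ℝ) ≤ max ((sgf (k : ℕ) b' y : ℝ≥0) : ℝ) ((δ : ℝ) / 4) := by exact_mod_cast h4
    have hd' : (0 : ℝ) < δ := hδ
    have p1 : (0 : ℝ) ≤ (sgf (k : ℕ) b' y : ℝ≥0) := NNReal.coe_nonneg _
    have p2 : ((sgf (k : ℕ) b' z : ℝ≥0) : ℝ) ≤ (sgf (k : ℕ) b' y : ℝ≥0) + (δ : ℝ) / 4 :=
      g4.trans (max_le (by linarith) (by linarith))
    have p3 : ((sgf (k : ℕ) b y : ℝ≥0) : ℝ) ≤ (sgf (k : ℕ) b' y : ℝ≥0) + (δ : ℝ) :=
      g3.trans (max_le (by linarith) (by linarith))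
    exact_mod_cast p3

private theorem adp_smul [ProperSpace K] (g : Matrix.GeneralLinearGroup (Fin n) K) {b : Xm n K}
    {B : Matrix (Fin n) (Fin n) K} (h : Adp g.1 B (nm b)) {c : ℝ≥0}
    (hc : ∀ v, nm (g • b) v = c * nm b (Matrix.vecMul v g.1)) : Adp 1 (B * (g.1)⁻¹) (nm (g • b)) := by
  have hg : IsUnit g.1.det := (Matrix.isUnit_iff_isUnit_det _).1 g.isUnit
  have h1 : ∀ i, nm (g • b) ((B * (g.1)⁻¹) i) = c * nm b (B i) := by
    intro i
    rw [hc]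
    have e1 : Matrix.vecMul ((B * (g.1)⁻¹) i) g.1 = B i := by
      have e2 : Matrix.vecMul ((B * (g.1)⁻¹) i) g.1 = (B * (g.1)⁻¹ * g.1) i := rfl
      rw [e2, Matrix.mul_assoc, Matrix.nonsing_inv_mul _ hg, Matrix.mul_one]
    rw [e1]
  refine ⟨?_, fun i j hij => ?_, fun x => ?_⟩
  · rw [inv_one, Matrix.mul_one]
    exact h.lat
  · rw [h1, h1]
    exact mul_le_mul' le_rfl (h.sorted i j hij)
  · rw [hc, Matrix.vecMul_vecMul, Matrix.mul_assoc, Matrix.nonsing_inv_mul _ hg, Matrix.mul_one, h.eq,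
      NNReal.mul_finset_sup]
    refine Finset.sup_congr rfl fun i _ => ?_
    rw [h1, mul_left_comm]

private theorem sg_smul [ProperSpace K] (g : Matrix.GeneralLinearGroup (Fin n) K) {b : Xm n K}
    (B : Matrix (Fin n) (Fin n) K) {c : ℝ≥0} (hc0 : 0 < c)
    (hc : ∀ v, nm (g • b) v = c * nm b (Matrix.vecMul v g.1)) (k : Fin n) (y : Fin n → K) :
    sg (B * (g.1)⁻¹) (nm (g • b)) k (Matrix.vecMul y (g.1)⁻¹) = sg B (nm b) k y := by
  have hg : IsUnit g.1.det := (Matrix.isUnit_iff_isUnit_det _).1 g.isUnit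
  have h1 : ∀ i, nm (g • b) ((B * (g.1)⁻¹) i) = c * nm b (B i) := by
    intro i
    rw [hc]
    have e1 : Matrix.vecMul ((B * (g.1)⁻¹) i) g.1 = B i := by
      have e2 : Matrix.vecMul ((B * (g.1)⁻¹) i) g.1 = (B * (g.1)⁻¹ * g.1) i := rfl
      rw [e2, Matrix.mul_assoc, Matrix.nonsing_inv_mul _ hg, Matrix.mul_one]
    rw [e1]
  unfold sg
  refine Finset.sup_congr rfl fun i _ => ?_
  rw [h1, h1, mul_div_mul_left _ _ hc0.ne', Matrix.mul_inv_rev, Matrix.nonsing_inv_nonsing_inv _ hg,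
    Matrix.vecMul_vecMul, ← Matrix.mul_assoc, Matrix.nonsing_inv_mul _ hg, Matrix.one_mul]

/-- CLOSE: the truncated norms of two honest points in a small neighbourhood of a point differ by at most `δ` on the lattice
`O^n * g` -/
theorem exists_close [ProperSpace K] (ξ : Xm n K) (g : Matrix.GeneralLinearGroup (Fin n) K) {δ : ℝ≥0} (hδ : 0 < δ) :
    ∃ U : Set (Xm n K), IsOpen U ∧ ξ ∈ U ∧ ∀ b ∈ U, ∀ b' ∈ U, Hon b → Hon b' →
      ∀ B B' : Matrix (Fin n) (Fin n) K, Adp g.1 B (nm b) → Adp g.1 B' (nm b') →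
        ∀ (k : Fin n) (y : Fin n → K), (∀ i, ‖Matrix.vecMul y (g.1)⁻¹ i‖₊ ≤ 1) → sg B (nm b) k y ≤ sg B' (nm b') k y + δ := by
  obtain ⟨U, hU, hξ, h⟩ := exists_close_one (g • ξ) hδ
  refine ⟨(fun b => g • b) ⁻¹' U, hU.preimage (continuous_const_smul g), hξ, ?_⟩
  intro b hb b' hb' hH hH' B B' hB hB' k y hy
  obtain ⟨c, hc0, hc⟩ := exists_nm_smul g b
  obtain ⟨c', hc0', hc'⟩ := exists_nm_smul g b'
  have h1 : sg B (nm b) k y = sgf (k : ℕ) (g • b) (Matrix.vecMul y (g.1)⁻¹) := by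
    rw [← sg_eq (hon_smul g hH) (adp_smul g hB hc) k, sg_smul g B hc0 hc]
  have h2 : sg B' (nm b') k y = sgf (k : ℕ) (g • b') (Matrix.vecMul y (g.1)⁻¹) := by
    rw [← sg_eq (hon_smul g hH') (adp_smul g hB' hc') k, sg_smul g B' hc0' hc']
  rw [h1, h2]
  exact h _ hb _ hb' k _ hy

end Pool.Agent.H9.XM
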