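import Pool.Agent.H9.XM.Gr

/-!
# [H9 XM Ent] the entries of a matrix which maps one standard point to another

Suppose `psi g τ = psi 1 τ'`, i.e. `dt r τ (x * g) = dt r τ' x` for all `r`, `x`, with `g ∈ GL n O`.

`entry_le` (`j < i`): `‖g i j‖ ≤ ∏ (j < l ≤ i), τ' l`. Proof: `r = j + 1`. Let `x` have the rows `0, .., j - 1` of `g⁻¹` and the
last row `e_i` (row `i` of the identity); `x * g` has the rows `e_0, .., e_(j-1)` and row `i` of `g`. Its minor with the columns
`0, .., j` is lower triangular with diagonal `1, .., 1, g i j` and the weight of these columns is `1` (`wt_init`), so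
`‖g i j‖ ≤ dt r τ (x * g) = dt r τ' x`. Now `x = A * 1` where `A = x` (integral): by `dt_row_le`... more precisely use `sw_row_le`
with `A = x` and the identity: the terms `k : Fin r → Fin n` with `A (last) (k last) ≠ 0` have `k last = i`, and
`dt r τ' (rows k of the identity) ≤ wt r τ' k ≤ ∏ (j < l ≤ i), τ' l` (`dt_single_le`, `wt_le_prod` with `a = last`).

`tau_le` (`0 < m`): `τ' m ≤ τ m`. Proof: `psi g⁻¹ τ' = psi 1 τ` (put `x * g⁻¹` for `x`), so by `entry_le` the entries of `h = g⁻¹` with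
`j < m ≤ i` have norm `≤ τ m` (one factor `τ m`, all others `≤ 1`). CLAIM: the same holds for `g`. `g = h⁻¹`, `‖det h‖ = 1`, and
`adjugate h i j = det (h.updateRow j (Pi.single i 1))` (`Matrix.adjugate_apply`). `Matrix.det_apply`: in the term of `σ` the row `j` must
use the column `i`; since `j < m ≤ i`, and the rows `≥ m` are mapped injectively to columns different from `i`, some row `a ≥ m`
uses a column `b < m` (otherwise the `n - m` rows `≥ m` go to the `n - m` columns `≥ m`, so one of them to `i`), and this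
factor has norm `≤ τ m`, the others `≤ 1`; ultrametric inequality.
Now let `x` be the rows `f = (0, .., m - 2, m)` of the identity (`r = m`). `dt r τ' x ≥ wt r τ' f = τ' m` (`wt_last`; the minor with
columns `f` is `1`). And `dt r τ (x * g) ≤ τ m`: a choice of columns `k` with some `k a ≥ m` has weight `≤ τ m` (`wt_le_single`), the
minor being integral; if all `k a < m` then the row `m` of `g` in these columns has entries of norm `≤ τ m` by the claim, so
the minor has norm `≤ τ m` (expand the determinant, each term contains an entry of this row).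
`tau_eq`: `tau_le` for `g` and for `g⁻¹`.
-/

set_option autoImplicit false

namespace Pool.Agent.H9.XM

open scoped NNReal

variable {K : Type} [NormedField K] [IsUltrametricDist K] {n : ℕ}

private theorem det_le {r : ℕ} {M : Matrix (Fin r) (Fin r) K} (hM : IsInt M) {c : ℝ≥0}
    (h : ∀ σ : Equiv.Perm (Fin r), ∃ a, ‖M (σ a) a‖₊ ≤ c) : ‖M.det‖₊ ≤ c := by
  rw [Matrix.det_apply]
  refine IsUltrametricDist.nnnorm_sum_le_of_forall_le fun σ _ => ?_
  have h1 : ‖∏ i, M (σ i) i‖₊ ≤ c := by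
    obtain ⟨a, ha⟩ := h σ
    rw [nnnorm_prod, ← Finset.mul_prod_erase Finset.univ _ (Finset.mem_univ a)]
    calc _ ≤ c * 1 := mul_le_mul' ha (Finset.prod_le_one' fun i _ => hM _ _)
      _ = c := mul_one c
  rcases Int.units_eq_one_or (Equiv.Perm.sign σ) with h2 | h2
  · rw [h2, one_smul]; exact h1
  · rw [h2, Units.neg_smul, one_smul, nnnorm_neg]; exact h1

theorem psi_inv {g : Matrix (Fin n) (Fin n) K} {τ τ' : Fin n → ℝ≥0} (hg : GO g) (h : psi g τ = psi 1 τ') :
    psi g⁻¹ τ' = psi 1 τ := by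
  funext r x
  have h1 : psi g τ r (x * g⁻¹) = psi 1 τ' r (x * g⁻¹) := by rw [h]
  have h2 : x * g⁻¹ * g = x * (1 : Matrix (Fin n) (Fin n) K) := by
    rw [Matrix.mul_assoc, Matrix.nonsing_inv_mul g hg.isUnit]
  have h3 : x * g⁻¹ * (1 : Matrix (Fin n) (Fin n) K) = x * g⁻¹ := Matrix.mul_one _
  unfold psi at h1 ⊢
  rw [h2, h3] at h1
  exact h1.symm

theorem entry_le {g : Matrix (Fin n) (Fin n) K} {τ τ' : Fin n → ℝ≥0} (hg : GO g) (hτ' : ∀ l, τ' l ≤ 1)
    (h : psi g τ = psi 1 τ') {i j : Fin n} (hij : j < i) :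
    ‖g i j‖₊ ≤ ∏ l ∈ Finset.univ.filter (fun l => j < l ∧ l ≤ i), τ' l := by
  have hjn : (j : ℕ) + 1 ≤ n := j.2
  obtain ⟨x, hx⟩ : ∃ x : Matrix (Fin ((j : ℕ) + 1)) (Fin n) K, ∀ a b, x a b =
      if (a : ℕ) < (j : ℕ) then g⁻¹ (Fin.castLE hjn a) b else (1 : Matrix (Fin n) (Fin n) K) i b :=
    ⟨fun a b => if (a : ℕ) < (j : ℕ) then g⁻¹ (Fin.castLE hjn a) b else (1 : Matrix (Fin n) (Fin n) K) i b,
      fun a b => rfl⟩
  have hxi : IsInt x := by
    intro a b
    rw [hx]
    split_ifs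
    · exact hg.inv.int _ _
    · exact isInt_one _ _
  have hxg1 : ∀ a : Fin ((j : ℕ) + 1), (a : ℕ) < (j : ℕ) → ∀ b, (x * g) a b = (1 : Matrix (Fin n) (Fin n) K) (Fin.castLE hjn a) b := by
    intro a ha b
    have e := congrFun (congrFun (Matrix.nonsing_inv_mul g hg.isUnit) (Fin.castLE hjn a)) b
    rw [← e, Matrix.mul_apply, Matrix.mul_apply]
    exact Finset.sum_congr rfl fun k _ => by rw [hx, if_pos ha]
  have hxg2 : ∀ a : Fin ((j : ℕ) + 1), ¬ (a : ℕ) < (j : ℕ) → ∀ b, (x * g) a b = g i b := by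
    intro a ha b
    have e := congrFun (congrFun (Matrix.one_mul g) i) b
    rw [← e, Matrix.mul_apply, Matrix.mul_apply]
    exact Finset.sum_congr rfl fun k _ => by rw [hx, if_neg ha]
  have hdet : ((x * g).submatrix id (Fin.castLE hjn)).det = g i j := by
    rw [Matrix.det_of_isLowerTriangular, Fin.prod_univ_castSucc]
    · have e1 : ∀ a : Fin (j : ℕ), ((x * g).submatrix id (Fin.castLE hjn)) a.castSucc a.castSucc = 1 := by
        intro a
        rw [Matrix.submatrix_apply, id, hxg1 _ (by exact a.2), Matrix.one_apply_eq]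
      have e2 : ((x * g).submatrix id (Fin.castLE hjn)) (Fin.last (j : ℕ)) (Fin.last (j : ℕ)) = g i j := by
        rw [Matrix.submatrix_apply, id, hxg2 _ (by rw [Fin.val_last]; exact lt_irrefl _)]
        rfl
      rw [Finset.prod_congr rfl fun a _ => e1 a, Finset.prod_const_one, one_mul, e2]
    · intro a b hab
      have hab' : a < b := hab
      have h1 : (a : ℕ) < (j : ℕ) := lt_of_lt_of_le hab' (Nat.lt_succ_iff.1 b.2)
      rw [Matrix.submatrix_apply, id, hxg1 _ h1, Matrix.one_apply_ne]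
      intro h2
      exact absurd (Fin.castLE_injective hjn h2) (ne_of_lt hab')
  have h1 : ‖g i j‖₊ ≤ dt ((j : ℕ) + 1) τ (x * g) := by
    have h2 := le_sw (wt ((j : ℕ) + 1) τ) (x * g) (Fin.castLE hjn)
    rw [hdet, wt_init hjn τ, mul_one] at h2
    exact h2
  have h3 : dt ((j : ℕ) + 1) τ (x * g) = dt ((j : ℕ) + 1) τ' (x * (1 : Matrix (Fin n) (Fin n) K)) :=
    congrFun (congrFun h ((j : ℕ) + 1)) x
  refine h1.trans (h3.le.trans ?_)
  refine sw_row_le fun k => ?_
  by_cases hk : k (Fin.last (j : ℕ)) = i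
  · have h4 : (∏ a, ‖x a (k a)‖₊) ≤ 1 := Finset.prod_le_one' fun a _ => hxi _ _
    have h5 : sw ((j : ℕ) + 1) (wt ((j : ℕ) + 1) τ') ((1 : Matrix (Fin n) (Fin n) K).submatrix k id) ≤
        wt ((j : ℕ) + 1) τ' k := dt_single_le k
    have h6 : wt ((j : ℕ) + 1) τ' k ≤ ∏ l ∈ Finset.univ.filter (fun l => j < l ∧ l ≤ i), τ' l := by
      have h7 := wt_le_prod hτ' k (i := j) le_rfl (Fin.last (j : ℕ))
      rw [hk] at h7
      exact h7
    calc _ ≤ 1 * wt ((j : ℕ) + 1) τ' k := mul_le_mul' h4 h5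
      _ = wt ((j : ℕ) + 1) τ' k := one_mul _
      _ ≤ _ := h6
  · have h4 : (∏ a, ‖x a (k a)‖₊) = 0 := by
      refine Finset.prod_eq_zero (Finset.mem_univ (Fin.last (j : ℕ))) ?_
      rw [hx, if_neg (by rw [Fin.val_last]; exact lt_irrefl _), Matrix.one_apply_ne (fun e => hk e.symm), nnnorm_zero]
    rw [h4, zero_mul]
    exact zero_le

private theorem entry_le_tau {g : Matrix (Fin n) (Fin n) K} {τ τ' : Fin n → ℝ≥0} (hg : GO g) (hτ' : ∀ l, τ' l ≤ 1)
    (h : psi g τ = psi 1 τ') {i j m : Fin n} (hj : j < m) (hi : m ≤ i) : ‖g i j‖₊ ≤ τ' m := by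
  refine (entry_le hg hτ' h (lt_of_lt_of_le hj hi)).trans ?_
  rw [← Finset.mul_prod_erase (Finset.univ.filter fun l => j < l ∧ l ≤ i) τ'
    (Finset.mem_filter.2 ⟨Finset.mem_univ m, hj, hi⟩)]
  calc _ ≤ τ' m * 1 := mul_le_mul' le_rfl (Finset.prod_le_one' fun l _ => hτ' l)
    _ = τ' m := mul_one _

private theorem perm_lemma {σ : Equiv.Perm (Fin n)} {i m : Fin n} (hi : m ≤ i) (hσ : σ i < m) :
    ∃ b, b < m ∧ m ≤ σ b := by
  by_contra hcon
  have h1 : ∀ b, m ≤ σ b → m ≤ b := fun b hb => not_lt.1 fun hlt => hcon ⟨b, hlt, hb⟩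
  have h2 : (Finset.univ.filter fun b => m ≤ σ b) ⊂ (Finset.univ.filter fun b => m ≤ b) := by
    refine Finset.ssubset_iff_subset_ne.2 ⟨fun b hb => ?_, fun he => ?_⟩
    · exact Finset.mem_filter.2 ⟨Finset.mem_univ _, h1 b (Finset.mem_filter.1 hb).2⟩
    · have h3 : i ∈ Finset.univ.filter fun b => m ≤ σ b := by
        rw [he]; exact Finset.mem_filter.2 ⟨Finset.mem_univ _, hi⟩
      exact absurd (Finset.mem_filter.1 h3).2 (not_le.2 hσ)
  have h4 : (Finset.univ.filter fun b => m ≤ σ b).card = (Finset.univ.filter fun b => m ≤ b).card := by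
    refine Finset.card_equiv σ fun b => ?_
    rw [Finset.mem_filter, Finset.mem_filter]
    exact ⟨fun h => ⟨Finset.mem_univ _, h.2⟩, fun h => ⟨Finset.mem_univ _, h.2⟩⟩
  exact absurd h4 (ne_of_lt (Finset.card_lt_card h2))

/-- the entries of the inverse -/
private theorem inv_entry_le {h : Matrix (Fin n) (Fin n) K} (hh : GO h) {c : ℝ≥0} {m : Fin n}
    (hc : ∀ i j, j < m → m ≤ i → ‖h i j‖₊ ≤ c) {i j : Fin n} (hj : j < m) (hi : m ≤ i) : ‖h⁻¹ i j‖₊ ≤ c := by
  have h0 : ‖(Ring.inverse h.det : K)‖₊ = 1 := by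
    rw [Ring.inverse_eq_inv', nnnorm_inv, hh.det, inv_one]
  rw [Matrix.inv_def, Matrix.smul_apply, smul_eq_mul, nnnorm_mul, h0, one_mul, Matrix.adjugate_apply]
  refine det_le (fun a b => ?_) fun σ => ?_
  · by_cases ha : a = j
    · rw [ha, Matrix.updateRow_self]
      by_cases hb : b = i
      · rw [hb, Pi.single_eq_same, nnnorm_one]
      · rw [Pi.single_eq_of_ne hb, nnnorm_zero]; exact zero_le_one
    · rw [Matrix.updateRow_ne ha]; exact hh.int a b
  · by_cases hσ : σ i = j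
    · obtain ⟨b, hb1, hb2⟩ := perm_lemma (σ := σ) hi (by rw [hσ]; exact hj)
      refine ⟨b, ?_⟩
      have hne : σ b ≠ j := fun e => absurd (lt_of_lt_of_le hj hb2) (by rw [e]; exact lt_irrefl _)
      rw [Matrix.updateRow_ne hne]
      exact hc _ _ hb1 hb2
    · refine ⟨σ.symm j, ?_⟩
      rw [Equiv.apply_symm_apply, Matrix.updateRow_self, Pi.single_eq_of_ne, nnnorm_zero]
      · exact zero_le
      · intro e
        exact hσ (by rw [← e, Equiv.apply_symm_apply])

theorem tau_le {g : Matrix (Fin n) (Fin n) K} {τ τ' : Fin n → ℝ≥0} (hg : GO g) (hτ : ∀ l, τ l ≤ 1) (hτ' : ∀ l, τ' l ≤ 1)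
    (h : psi g τ = psi 1 τ') {m : Fin n} (hm : 0 < (m : ℕ)) : τ' m ≤ τ m := by
  have hinv := psi_inv hg h
  have hent : ∀ i j : Fin n, j < m → m ≤ i → ‖g i j‖₊ ≤ τ m := by
    intro i j hj hi
    have h1 := inv_entry_le hg.inv (c := τ m) (m := m) (fun i j hj hi => entry_le_tau hg.inv hτ hinv hj hi) hj hi
    rwa [Matrix.nonsing_inv_nonsing_inv g hg.isUnit] at h1
  have hmn : (m : ℕ) ≤ n := m.2.le
  obtain ⟨f, hf⟩ : ∃ f : Fin (m : ℕ) → Fin n, f = fun j : Fin (m : ℕ) =>
      if (j : ℕ) + 1 = m then m else Fin.castLE m.2.le j := ⟨_, rfl⟩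
  have hfi : Function.Injective f := by
    intro a b hab
    rw [hf] at hab
    have ha := a.2
    have hb := b.2
    have hv : ((if (a : ℕ) + 1 = m then m else Fin.castLE m.2.le a : Fin n) : ℕ) =
        ((if (b : ℕ) + 1 = m then m else Fin.castLE m.2.le b : Fin n) : ℕ) := congrArg Fin.val hab
    refine Fin.ext ?_
    split_ifs at hv with h1 h2 h2
    · omega
    · rw [Fin.val_castLE] at hv; omega
    · rw [Fin.val_castLE] at hv; omega
    · rwa [Fin.val_castLE, Fin.val_castLE] at hv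
  have hdet : (((1 : Matrix (Fin n) (Fin n) K).submatrix f id).submatrix id f).det = 1 := by
    have e : (((1 : Matrix (Fin n) (Fin n) K).submatrix f id).submatrix id f) = 1 := by
      rw [Matrix.submatrix_submatrix]
      exact Matrix.submatrix_one f hfi
    rw [e, Matrix.det_one]
  have h1 : τ' m ≤ dt (m : ℕ) τ' ((1 : Matrix (Fin n) (Fin n) K).submatrix f id) := by
    have h2 := le_sw (wt (m : ℕ) τ') ((1 : Matrix (Fin n) (Fin n) K).submatrix f id) f
    rw [hdet, nnnorm_one, one_mul, hf, wt_last hm τ'] at h2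
    rw [hf]
    exact h2
  have h3 : dt (m : ℕ) τ ((1 : Matrix (Fin n) (Fin n) K).submatrix f id * g) =
      dt (m : ℕ) τ' ((1 : Matrix (Fin n) (Fin n) K).submatrix f id * (1 : Matrix (Fin n) (Fin n) K)) :=
    congrFun (congrFun h (m : ℕ)) _
  rw [Matrix.mul_one] at h3
  refine h1.trans (h3.symm.le.trans ?_)
  refine sw_le fun k => ?_
  have hint : IsInt ((((1 : Matrix (Fin n) (Fin n) K).submatrix f id * g)).submatrix id k) := by
    intro a b
    have h4 : IsInt ((1 : Matrix (Fin n) (Fin n) K).submatrix f id) := fun a b => isInt_one _ _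
    exact h4.mul hg.int a (k b)
  by_cases hk : ∃ a, m ≤ k a
  · obtain ⟨a, ha⟩ := hk
    calc _ ≤ 1 * τ m := mul_le_mul' (nnnorm_det_le_one hint) (wt_le_single hτ k rfl ha)
      _ = τ m := one_mul _
  · have hk' : ∀ a, k a < m := fun a => not_le.1 fun h5 => hk ⟨a, h5⟩
    have h6 : ‖((((1 : Matrix (Fin n) (Fin n) K).submatrix f id * g)).submatrix id k).det‖₊ ≤ τ m := by
      refine det_le hint fun σ => ?_
      refine ⟨σ.symm ⟨(m : ℕ) - 1, by omega⟩, ?_⟩
      rw [Equiv.apply_symm_apply, Matrix.submatrix_apply, id]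
      have e1 : ((1 : Matrix (Fin n) (Fin n) K).submatrix f id * g) = g.submatrix f id := by
        ext a b
        rw [Matrix.mul_apply, Matrix.submatrix_apply]
        have e2 := congrFun (congrFun (Matrix.one_mul g) (f a)) b
        rw [Matrix.mul_apply] at e2
        exact e2
      have e3 : f ⟨(m : ℕ) - 1, by omega⟩ = m := by
        rw [hf]
        exact if_pos (Nat.sub_add_cancel hm)
      rw [e1, Matrix.submatrix_apply, id, e3]
      exact hent m _ (hk' _) le_rfl
    calc _ ≤ τ m * 1 := mul_le_mul' h6 (wt_le_one hτ k)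
      _ = τ m := mul_one _

theorem tau_eq {g : Matrix (Fin n) (Fin n) K} {τ τ' : Fin n → ℝ≥0} (hg : GO g) (hτ : ∀ l, τ l ≤ 1) (hτ' : ∀ l, τ' l ≤ 1)
    (h : psi g τ = psi 1 τ') {m : Fin n} (hm : 0 < (m : ℕ)) : τ m = τ' m :=
  le_antisymm (tau_le hg.inv hτ' hτ (psi_inv hg h) hm) (tau_le hg hτ hτ' h hm)

end Pool.Agent.H9.XM
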