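import Pool.Agent.H9.XM.Defs

/-!
# [H9 XM Ex] expansions of minors

Proofs. `det_mul_col`: column `j` of the matrix is `∑ m, P m (f j) • (column m of x)`; the determinant is multilinear in the
columns (`Matrix.detRowAlternating` of the transposed matrix, `MultilinearMap.map_sum`, `MultilinearMap.map_smul_univ`).
`det_mul_row`: the same with rows. `sw_mul_le`: the columns `f` of `x * P`: if `f` is not injective the minor is `0`, otherwise
expand, drop the `k` which are not injective, use the ultrametric inequality (`IsUltrametricDist.nnnorm_sum_le_of_forall_le`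
and its relatives), `nnnorm_mul`, `nnnorm_prod`, `le_sw`. `sw_row_le`: expand in rows.
-/

set_option autoImplicit false

namespace Pool.Agent.H9.XM

open scoped NNReal

variable {K : Type} [NormedField K] {r s n : ℕ}

theorem det_eq_zero (x : Matrix (Fin r) (Fin n) K) {k : Fin r → Fin n} (h : ¬ Function.Injective k) :
    (x.submatrix id k).det = 0 := by
  rw [Function.Injective] at h
  push Not at h
  obtain ⟨a, b, hab, hne⟩ := h
  exact Matrix.det_zero_of_column_eq hne fun i => by
    rw [Matrix.submatrix_apply, Matrix.submatrix_apply, hab]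

theorem det_mul_row (A : Matrix (Fin r) (Fin s) K) (x : Matrix (Fin s) (Fin n) K) (f : Fin r → Fin n) :
    ((A * x).submatrix id f).det = ∑ k : Fin r → Fin s, (∏ i, A i (k i)) * ((x.submatrix k id).submatrix id f).det := by
  have h1 : ((A * x).submatrix id f) = Matrix.of fun i => ∑ m, A i m • (fun j => x m (f j)) := by
    ext i j
    rw [Matrix.submatrix_apply, Matrix.mul_apply, Matrix.of_apply, Finset.sum_apply]
    rfl
  rw [h1]
  show Matrix.detRowAlternating (fun i => ∑ m, A i m • (fun j => x m (f j))) = _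
  rw [← AlternatingMap.coe_multilinearMap, MultilinearMap.map_sum]
  refine Finset.sum_congr rfl fun k _ => ?_
  rw [MultilinearMap.map_smul_univ]
  rfl

theorem det_mul_col (x : Matrix (Fin r) (Fin n) K) (P : Matrix (Fin n) (Fin n) K) (f : Fin r → Fin n) :
    ((x * P).submatrix id f).det = ∑ k : Fin r → Fin n, (∏ j, P (k j) (f j)) * (x.submatrix id k).det := by
  have h1 : ((x * P).submatrix id f).det = (((P.transpose.submatrix f id) * x.transpose).submatrix id (id : Fin r → Fin r)).det := by
    rw [← Matrix.det_transpose]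
    refine congrArg Matrix.det ?_
    ext i j
    rw [Matrix.transpose_apply, Matrix.submatrix_apply, Matrix.submatrix_apply, Matrix.mul_apply, Matrix.mul_apply]
    refine Finset.sum_congr rfl fun k _ => ?_
    rw [Matrix.submatrix_apply, Matrix.transpose_apply, Matrix.transpose_apply, mul_comm]
    rfl
  rw [h1, det_mul_row]
  refine Finset.sum_congr rfl fun k _ => ?_
  have h2 : ((x.transpose.submatrix k id).submatrix id (id : Fin r → Fin r)).det = (x.submatrix id k).det := by
    rw [← Matrix.det_transpose (x.submatrix id k)]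
    rfl
  rw [h2]
  rfl

/-- comparison of weighted maxima of minors of `x * P` and `x` -/
theorem sw_mul_le [IsUltrametricDist K] {W W' : (Fin r → Fin n) → ℝ≥0} {c : ℝ≥0} {P : Matrix (Fin n) (Fin n) K}
    (h : ∀ f k : Fin r → Fin n, Function.Injective f → Function.Injective k →
      (∏ j, ‖P (k j) (f j)‖₊) * W f ≤ c * W' k) (x : Matrix (Fin r) (Fin n) K) : sw r W (x * P) ≤ c * sw r W' x := by
  refine sw_le fun f => ?_
  by_cases hf : Function.Injective f
  · rw [det_mul_col]
    by_cases hW : W f = 0
    · rw [hW, mul_zero]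
      exact zero_le
    · have h0 : 0 < W f := pos_iff_ne_zero.2 hW
      rw [← le_div_iff₀ h0]
      refine IsUltrametricDist.nnnorm_sum_le_of_forall_le fun k _ => ?_
      rw [nnnorm_mul, nnnorm_prod, le_div_iff₀ h0]
      by_cases hk : Function.Injective k
      · calc (∏ j, ‖P (k j) (f j)‖₊) * ‖(x.submatrix id k).det‖₊ * W f
            = ((∏ j, ‖P (k j) (f j)‖₊) * W f) * ‖(x.submatrix id k).det‖₊ := by ring
          _ ≤ (c * W' k) * ‖(x.submatrix id k).det‖₊ := mul_le_mul' (h f k hf hk) le_rfl
          _ = c * (‖(x.submatrix id k).det‖₊ * W' k) := by ring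
          _ ≤ c * sw r W' x := mul_le_mul' le_rfl (le_sw W' x k)
      · rw [det_eq_zero x hk, nnnorm_zero, mul_zero, zero_mul]
        exact zero_le
  · rw [det_eq_zero _ hf, nnnorm_zero, zero_mul]
    exact zero_le

/-- the multilinear bound -/
theorem sw_row_le [IsUltrametricDist K] {W : (Fin r → Fin n) → ℝ≥0} {A : Matrix (Fin r) (Fin s) K}
    {x : Matrix (Fin s) (Fin n) K} {c : ℝ≥0}
    (h : ∀ k : Fin r → Fin s, (∏ i, ‖A i (k i)‖₊) * sw r W (x.submatrix k id) ≤ c) : sw r W (A * x) ≤ c := by
  refine sw_le fun f => ?_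
  rw [det_mul_row]
  by_cases hW : W f = 0
  · rw [hW, mul_zero]
    exact zero_le
  · have h0 : 0 < W f := pos_iff_ne_zero.2 hW
    rw [← le_div_iff₀ h0]
    refine IsUltrametricDist.nnnorm_sum_le_of_forall_le fun k _ => ?_
    rw [nnnorm_mul, nnnorm_prod, le_div_iff₀ h0]
    calc (∏ i, ‖A i (k i)‖₊) * ‖((x.submatrix k id).submatrix id f).det‖₊ * W f
        = (∏ i, ‖A i (k i)‖₊) * (‖((x.submatrix k id).submatrix id f).det‖₊ * W f) := by ring
      _ ≤ (∏ i, ‖A i (k i)‖₊) * sw r W (x.submatrix k id) := mul_le_mul' le_rfl (le_sw W _ f)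
      _ ≤ c := h k

end Pool.Agent.H9.XM
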