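import Pool.Agent.H9.XM.Bld

/-!
# [H9 XM Hon] honest points

`nm ξ v` is the value of the norm (`r = 1`) at the vector `v`; `Hon ξ`: all gaps are finite.
`nm_eq`: `r = 1`: the minor with the column `f` is the entry, `wt 1 τ f = al τ (f 0)` (exponent of `τ l`: `0 < l`: `1` if `l ≤ f 0`, else `0`;
`l = 0`: `1 - 1 = 0`); `sup` over `Fin 1 → Fin n` is `sup` over `Fin n`.
`isNrm`: from `nm_eq` (`al > 0`, `g` invertible).
`hon_ext`: `ξ = psi g τ`, `ζ = psi g' τ'`, `P = g⁻¹ * g'`. `max ‖(x P)_j‖ al τ' j = nm ζ (x g⁻¹) = c⁻¹ nm ξ (x g⁻¹) = max ‖x i‖ c⁻¹ al τ i` (`c > 0` if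
`n > 0`). By `sw_eq` and `sw_al`: for every `r` there is `c_r > 0` with `ζ.1 r x = c_r * ξ.1 r x` for all `x`. For `r ≤ n`: both have the
maximum `1` on the rows of the identity (`psi_le_one`, `exists_psi_eq_one`), so `c_r = 1`; for `r > n` all is `0` (`dt_eq_zero_of_lt`).
-/

set_option autoImplicit false

namespace Pool.Agent.H9.XM

open scoped NNReal

variable {K : Type} [NormedField K] {n : ℕ}

/-- the value of the norm of the point `ξ` at the row vector `v` -/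
noncomputable def nm (ξ : Xm n K) (v : Fin n → K) : ℝ≥0 := ξ.1 1 (Matrix.of fun _ => v)

/-- honest points: all gaps are finite -/
def Hon (ξ : Xm n K) : Prop :=
  ∃ (g : Matrix (Fin n) (Fin n) K) (τ : Fin n → ℝ≥0), GO g ∧ (∀ l, τ l ≤ 1) ∧ (∀ l, 0 < τ l) ∧ ξ.1 = psi g τ

private theorem wt_one (τ : Fin n → ℝ≥0) (f : Fin 1 → Fin n) : wt 1 τ f = al τ (f 0) := by
  have hf : Function.Injective f := fun a b _ => Subsingleton.elim a b
  have h1 := wt_al τ hf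
  rw [Fin.prod_univ_one] at h1
  have h2 : (∏ l ∈ Finset.univ.filter (fun l : Fin n => 0 < (l : ℕ)), τ l ^ (1 - (l : ℕ))) = 1 := by
    refine Finset.prod_eq_one fun l hl => ?_
    have h3 : 0 < (l : ℕ) := (Finset.mem_filter.1 hl).2
    have h4 : 1 - (l : ℕ) = 0 := by omega
    rw [h4, pow_zero]
  rw [h2, one_mul] at h1
  exact h1.symm

theorem nm_eq {ξ : Xm n K} {g : Matrix (Fin n) (Fin n) K} {τ : Fin n → ℝ≥0} (h : ξ.1 = psi g τ) (v : Fin n → K) :
    nm ξ v = Finset.univ.sup fun j => ‖Matrix.vecMul v g j‖₊ * al τ j := by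
  have e : ∀ f : Fin 1 → Fin n, ‖(((Matrix.of fun _ => v : Matrix (Fin 1) (Fin n) K) * g).submatrix id f).det‖₊ * wt 1 τ f =
      ‖Matrix.vecMul v g (f 0)‖₊ * al τ (f 0) := by
    intro f
    rw [wt_one, Matrix.det_fin_one]
    rfl
  unfold nm
  rw [h]
  show (Finset.univ.sup fun f : Fin 1 → Fin n =>
    ‖(((Matrix.of fun _ => v : Matrix (Fin 1) (Fin n) K) * g).submatrix id f).det‖₊ * wt 1 τ f) = _
  refine le_antisymm (Finset.sup_le fun f _ => ?_) (Finset.sup_le fun j _ => ?_)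
  · rw [e f]
    exact Finset.le_sup (f := fun j => ‖Matrix.vecMul v g j‖₊ * al τ j) (Finset.mem_univ (f 0))
  · have h1 := e fun _ => j
    rw [← h1]
    exact Finset.le_sup (f := fun f : Fin 1 → Fin n =>
      ‖(((Matrix.of fun _ => v : Matrix (Fin 1) (Fin n) K) * g).submatrix id f).det‖₊ * wt 1 τ f)
      (Finset.mem_univ (fun _ => j))

theorem continuous_nm (v : Fin n → K) : Continuous fun ξ : Xm n K => nm ξ v := Xm.continuous_apply 1 _

variable [IsUltrametricDist K]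

theorem nm_add (ξ : Xm n K) (v w : Fin n → K) : nm ξ (v + w) ≤ max (nm ξ v) (nm ξ w) := by
  obtain ⟨g, τ, -, -, h⟩ := ξ.2
  rw [nm_eq h, nm_eq h, nm_eq h]
  refine Finset.sup_le fun j _ => ?_
  have h1 : Matrix.vecMul (v + w) g j = Matrix.vecMul v g j + Matrix.vecMul w g j := by
    rw [Matrix.add_vecMul, Pi.add_apply]
  rw [h1]
  have h2 : ‖Matrix.vecMul v g j‖₊ * al τ j ≤ Finset.univ.sup fun j => ‖Matrix.vecMul v g j‖₊ * al τ j :=
    Finset.le_sup (f := fun j => ‖Matrix.vecMul v g j‖₊ * al τ j) (Finset.mem_univ j)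
  have h3 : ‖Matrix.vecMul w g j‖₊ * al τ j ≤ Finset.univ.sup fun j => ‖Matrix.vecMul w g j‖₊ * al τ j :=
    Finset.le_sup (f := fun j => ‖Matrix.vecMul w g j‖₊ * al τ j) (Finset.mem_univ j)
  have h4 : ‖Matrix.vecMul v g j + Matrix.vecMul w g j‖₊ ≤ max ‖Matrix.vecMul v g j‖₊ ‖Matrix.vecMul w g j‖₊ :=
    IsUltrametricDist.nnnorm_add_le_max _ _
  rcases le_total ‖Matrix.vecMul v g j‖₊ ‖Matrix.vecMul w g j‖₊ with h5 | h5
  · rw [max_eq_right h5] at h4
    exact le_trans (le_trans (mul_le_mul' h4 le_rfl) h3) (le_max_right _ _)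
  · rw [max_eq_left h5] at h4
    exact le_trans (le_trans (mul_le_mul' h4 le_rfl) h2) (le_max_left _ _)

theorem nm_smul (ξ : Xm n K) (c : K) (v : Fin n → K) : nm ξ (c • v) = ‖c‖₊ * nm ξ v := by
  obtain ⟨g, τ, -, -, h⟩ := ξ.2
  rw [nm_eq h, nm_eq h, NNReal.mul_finset_sup]
  refine Finset.sup_congr rfl fun j _ => ?_
  rw [Matrix.smul_vecMul, Pi.smul_apply, smul_eq_mul, nnnorm_mul, mul_assoc]

theorem nm_le (ξ : Xm n K) {v : Fin n → K} {c : ℝ≥0} (h : ∀ i, ‖v i‖₊ ≤ c) : nm ξ v ≤ c := by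
  obtain ⟨g, τ, hg, hτ, he⟩ := ξ.2
  rw [nm_eq he]
  refine Finset.sup_le fun j _ => ?_
  have h1 : ‖Matrix.vecMul v g j‖₊ ≤ c := by
    show ‖∑ i, v i * g i j‖₊ ≤ c
    refine IsUltrametricDist.nnnorm_sum_le_of_forall_le fun i _ => ?_
    rw [nnnorm_mul]
    calc ‖v i‖₊ * ‖g i j‖₊ ≤ c * 1 := mul_le_mul' (h i) (hg.int i j)
      _ = c := mul_one c
  have h2 : al τ j ≤ 1 := Finset.prod_le_one' fun l _ => hτ l
  calc ‖Matrix.vecMul v g j‖₊ * al τ j ≤ c * 1 := mul_le_mul' h1 h2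
    _ = c := mul_one c

theorem Hon.isNrm {ξ : Xm n K} (h : Hon ξ) : IsNrm (nm ξ) := by
  refine ⟨nm_add ξ, nm_smul ξ, fun v hv => ?_⟩
  obtain ⟨g, τ, hg, -, h0, he⟩ := h
  rw [nm_eq he]
  have h1 : Matrix.vecMul v g ≠ 0 := by
    intro h2
    apply hv
    have h3 : Matrix.vecMul (Matrix.vecMul v g) g⁻¹ = 0 := by rw [h2, Matrix.zero_vecMul]
    rwa [Matrix.vecMul_vecMul, Matrix.mul_nonsing_inv g hg.isUnit, Matrix.vecMul_one] at h3
  obtain ⟨j, hj⟩ := Function.ne_iff.1 h1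
  have h2 : ‖Matrix.vecMul v g j‖₊ * al τ j ≤ Finset.univ.sup fun j => ‖Matrix.vecMul v g j‖₊ * al τ j :=
    Finset.le_sup (f := fun j => ‖Matrix.vecMul v g j‖₊ * al τ j) (Finset.mem_univ j)
  refine lt_of_lt_of_le (mul_pos ?_ (Finset.prod_pos fun l _ => h0 l)) h2
  exact nnnorm_pos.2 hj

omit [IsUltrametricDist K] in
private theorem sw_const (a : ℝ≥0) (β : Fin n → ℝ≥0) (r : ℕ) (y : Matrix (Fin r) (Fin n) K) :
    sw r (fun f => ∏ j, (β (f j) * a)) y = a ^ r * sw r (fun f => ∏ j, β (f j)) y := by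
  unfold sw
  rw [NNReal.mul_finset_sup]
  refine Finset.sup_congr rfl fun f _ => ?_
  show ‖(y.submatrix id f).det‖₊ * (∏ j, β (f j) * a) = a ^ r * (‖(y.submatrix id f).det‖₊ * ∏ j, β (f j))
  rw [Finset.prod_mul_distrib, Finset.prod_const, Finset.card_univ, Fintype.card_fin]
  ring

theorem hon_ext {ξ ζ : Xm n K} (h : Hon ξ) (h' : Hon ζ) {c : ℝ≥0} (hc : ∀ v, nm ξ v = c * nm ζ v) : ξ = ζ := by
  have hI := h.isNrm
  obtain ⟨g, τ, hg, h1, h0, he⟩ := h
  obtain ⟨g', τ', hg', h1', h0', he'⟩ := h'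
  have hP : IsUnit (g⁻¹ * g').det := by
    rw [Matrix.det_mul]
    exact hg.inv.isUnit.mul hg'.isUnit
  refine Xm.ext fun r x => ?_
  rw [he, he']
  rcases lt_or_ge n r with hr | hr
  · have e1 : psi g τ r x = 0 := dt_eq_zero_of_lt hr _
    have e2 : psi g' τ' r x = 0 := dt_eq_zero_of_lt hr _
    rw [e1, e2]
  rcases Nat.eq_zero_or_pos n with hn | hn
  · subst hn
    have e1 : g = g' := Subsingleton.elim _ _
    have e2 : τ = τ' := Subsingleton.elim _ _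
    rw [e1, e2]
  have hc0 : 0 < c := by
    have hv : (fun _ => 1 : Fin n → K) ≠ 0 := fun h2 => one_ne_zero (congrFun h2 ⟨0, hn⟩)
    have h2 := hI.pos _ hv
    rw [hc] at h2
    exact pos_iff_ne_zero.2 fun h3 => by
      rw [h3, zero_mul] at h2
      exact lt_irrefl _ h2
  have key : ∀ v : Fin n → K, (Finset.univ.sup fun j => ‖Matrix.vecMul v (g⁻¹ * g') j‖₊ * al τ' j) =
      Finset.univ.sup fun i => ‖v i‖₊ * (al τ i * c⁻¹) := by
    intro v
    have h2 := hc (Matrix.vecMul v g⁻¹)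
    rw [nm_eq he, nm_eq he', Matrix.vecMul_vecMul, Matrix.vecMul_vecMul, Matrix.nonsing_inv_mul g hg.isUnit,
      Matrix.vecMul_one] at h2
    have h3 : (Finset.univ.sup fun i => ‖v i‖₊ * (al τ i * c⁻¹)) =
        c⁻¹ * Finset.univ.sup fun i => ‖v i‖₊ * al τ i := by
      rw [NNReal.mul_finset_sup]
      refine Finset.sup_congr rfl fun i _ => ?_
      ring
    rw [h3, h2, ← mul_assoc, inv_mul_cancel₀ hc0.ne', one_mul]
  set C : ℝ≥0 := ∏ l ∈ Finset.univ.filter (fun l : Fin n => 0 < (l : ℕ)), τ l ^ (r - (l : ℕ)) with hC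
  set C' : ℝ≥0 := ∏ l ∈ Finset.univ.filter (fun l : Fin n => 0 < (l : ℕ)), τ' l ^ (r - (l : ℕ)) with hC'
  have hCp' : 0 < C' := Finset.prod_pos fun l _ => pow_pos (h0' l) _
  have main : ∀ y : Matrix (Fin r) (Fin n) K, psi g' τ' r y = C'⁻¹ * (c⁻¹ ^ r * C) * psi g τ r y := by
    intro y
    have h2 := sw_eq hP key r (y * g)
    have e1 : y * g * (g⁻¹ * g') = y * g' := by
      rw [Matrix.mul_assoc, ← Matrix.mul_assoc g, Matrix.mul_nonsing_inv g hg.isUnit, Matrix.one_mul]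
    rw [e1, sw_const, sw_al, sw_al] at h2
    have h3 : C' * psi g' τ' r y = c⁻¹ ^ r * (C * psi g τ r y) := h2
    calc psi g' τ' r y = C'⁻¹ * (C' * psi g' τ' r y) := by
          rw [← mul_assoc, inv_mul_cancel₀ hCp'.ne', one_mul]
      _ = C'⁻¹ * (c⁻¹ ^ r * C) * psi g τ r y := by
          rw [h3]
          ring
  set k : ℝ≥0 := C'⁻¹ * (c⁻¹ ^ r * C) with hk
  have hk1 : k ≤ 1 := by
    obtain ⟨F, hF⟩ := exists_psi_eq_one (r := r) hg h1 hr
    have h2 := main ((1 : Matrix (Fin n) (Fin n) K).submatrix F id)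
    rw [hF, mul_one] at h2
    rw [← h2]
    exact psi_le_one hg' h1' fun i j => isInt_one _ _
  have hk2 : 1 ≤ k := by
    obtain ⟨F, hF⟩ := exists_psi_eq_one (r := r) hg' h1' hr
    have h2 := main ((1 : Matrix (Fin n) (Fin n) K).submatrix F id)
    rw [hF] at h2
    calc 1 = k * psi g τ r ((1 : Matrix (Fin n) (Fin n) K).submatrix F id) := h2
      _ ≤ k * 1 := mul_le_mul' le_rfl (psi_le_one hg h1 fun i j => isInt_one _ _)
      _ = k := mul_one k
  rw [main x, le_antisymm hk1 hk2, one_mul]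

end Pool.Agent.H9.XM
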