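import Pool.Agent.H9.XM.Rnd
import Pool.Agent.H76.GU.Poly

/-!
# [H9 XM RndP] the image of the region of the weights under a tropical linear map is a polyhedron

`isPolyhedron_biUnion`: union of the families.
`isPolyhedron_trop`: let `T` be the map. Family: all `(fun v => T (v : Fin n → ℝ)) '' C` for `C ⊆ {v : Fin n → ℤ | (v : Fin n → ℝ) ∈ Reg n a}` a nonempty
chain (`Chn`); there are finitely many such `v` (`0 ≤ v i ≤ a * i`), so finitely many `C`, all finite.
(1) For such a `C` choose for every `e` the index `i e` of `exists_idx`. The set of all `x` with `x (i e) + u e (i e) ≤ x j + u e j` for all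
`e`, `j` is convex and contains the hull of `C` (`convexHull_min`), so on the hull of `C` the map `T` agrees with the affine map
`A x e = x (i e) + u e (i e)`: `T '' hull C = A '' hull C = hull (A '' C) = hull (T '' C)` (`AffineMap.image_convexHull`), and
the vector span of `A '' C` is the image under the linear part of the vector span of `C`, which is contained in `{x | x 0 = 0}`, of
dimension `n - 1`.
(2) `Reg n a` is convex, so `hull C ⊆ Reg n a`. Every `x ∈ Reg n a` is in the hull of its roundings (`mem_hull_floor`), these are in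
`Reg n a` and form a chain (`chn_floor`): for `x i = 0` the rounding is `⌊θ⌋ = 0`; `⌊x i + θ⌋ ≤ ⌊x j + θ⌋ ≤ ⌊x i + a + θ⌋ = ⌊x i + θ⌋ + a`.
-/

set_option autoImplicit false

namespace Pool.Agent.H9.XM

open Pool.Agent.H76.GT

/-- the region of the weights -/
def Reg (n a : ℕ) : Set (Fin n → ℝ) :=
  {x | (∀ i : Fin n, (i : ℕ) = 0 → x i = 0) ∧ ∀ i j : Fin n, (i : ℕ) + 1 = j → x i ≤ x j ∧ x j ≤ x i + a}

theorem isPolyhedron_biUnion {N : ℕ} {E : Type} [AddCommGroup E] [Module ℝ E] {ι : Type*} {s : Set ι} (hs : s.Finite)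
    {K : ι → Set E} (h : ∀ i ∈ s, IsPolyhedron N (K i)) : IsPolyhedron N (⋃ i ∈ s, K i) := by
  have h1 : ∀ i, ∃ F : Set (Set E), i ∈ s → (F.Finite ∧ K i = ⋃ f ∈ F, convexHull ℝ f ∧
      ∀ f ∈ F, f.Finite ∧ Module.finrank ℝ (vectorSpan ℝ f) ≤ N) := by
    intro i
    by_cases hi : i ∈ s
    · obtain ⟨F, h1, h2, h3⟩ := h i hi
      exact ⟨F, fun _ => ⟨h1, h2, h3⟩⟩
    · exact ⟨∅, fun hi' => absurd hi' hi⟩
  choose F hF using h1
  refine ⟨⋃ i ∈ s, F i, hs.biUnion fun i hi => (hF i hi).1, ?_, ?_⟩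
  · ext x
    simp only [Set.mem_iUnion, exists_prop]
    constructor
    · rintro ⟨i, hi, hx⟩
      rw [(hF i hi).2.1] at hx
      simp only [Set.mem_iUnion, exists_prop] at hx
      obtain ⟨f, hf, hx⟩ := hx
      exact ⟨f, ⟨i, hi, hf⟩, hx⟩
    · rintro ⟨f, ⟨i, hi, hf⟩, hx⟩
      refine ⟨i, hi, ?_⟩
      rw [(hF i hi).2.1]
      simp only [Set.mem_iUnion, exists_prop]
      exact ⟨f, hf, hx⟩
  · intro f hf
    simp only [Set.mem_iUnion, exists_prop] at hf
    obtain ⟨i, hi, hf⟩ := hf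
    exact (hF i hi).2.2 f hf

/-- the real vector of an integral vector -/
private def cst {n : ℕ} (v : Fin n → ℤ) : Fin n → ℝ := fun i => (v i : ℝ)

private theorem reg_bound {n a : ℕ} {x : Fin n → ℝ} (hx : x ∈ Reg n a) (k : ℕ) :
    ∀ i : Fin n, (i : ℕ) = k → 0 ≤ x i ∧ x i ≤ (a : ℝ) * k := by
  induction k with
  | zero =>
    intro i hi
    rw [hx.1 i hi]
    simp
  | succ k ih =>
    intro i hi
    have hk : k < n := by
      have := i.2
      omega
    obtain ⟨h1, h2⟩ := ih ⟨k, hk⟩ rfl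
    obtain ⟨h3, h4⟩ := hx.2 ⟨k, hk⟩ i (by simpa using hi.symm)
    refine ⟨h1.trans h3, h4.trans ?_⟩
    push_cast
    nlinarith

private theorem reg_fin (n a : ℕ) : {v : Fin n → ℤ | cst v ∈ Reg n a}.Finite := by
  refine Set.Finite.subset (Set.Finite.pi' fun _ : Fin n => Set.finite_Icc (0 : ℤ) ((a : ℤ) * n)) ?_
  intro v hv i
  obtain ⟨h1, h2⟩ := reg_bound hv (i : ℕ) i rfl
  have h0 : (0 : ℝ) ≤ (v i : ℝ) := h1
  refine ⟨by exact_mod_cast h0, ?_⟩
  have h3 : (v i : ℝ) ≤ (a : ℝ) * n := by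
    refine h2.trans ?_
    have h4 : ((i : ℕ) : ℝ) ≤ n := by exact_mod_cast i.2.le
    exact mul_le_mul_of_nonneg_left h4 (Nat.cast_nonneg a)
  exact_mod_cast h3

private theorem reg_convex (n a : ℕ) : Convex ℝ (Reg n a) := by
  intro x hx y hy s t hs ht hst
  refine ⟨fun i hi => ?_, fun i j hij => ⟨?_, ?_⟩⟩
  · simp [hx.1 i hi, hy.1 i hi]
  · have h1 := (hx.2 i j hij).1
    have h2 := (hy.2 i j hij).1
    show s * x i + t * y i ≤ s * x j + t * y j
    nlinarith
  · have h1 := (hx.2 i j hij).2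
    have h2 := (hy.2 i j hij).2
    show s * x j + t * y j ≤ s * x i + t * y i + a
    have h3 : (a : ℝ) = s * a + t * a := by rw [← add_mul, hst, one_mul]
    nlinarith

private theorem span_dim {n : ℕ} (hn : 0 < n) {S : Set (Fin n → ℝ)} (hS : ∀ x ∈ S, x ⟨0, hn⟩ = 0) :
    Module.finrank ℝ (vectorSpan ℝ S) ≤ n - 1 := by
  have h1 : vectorSpan ℝ S ≤ LinearMap.ker (LinearMap.proj (R := ℝ) (φ := fun _ : Fin n => ℝ) ⟨0, hn⟩) := by
    rw [vectorSpan_def, Submodule.span_le]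
    rintro _ ⟨x, hx, y, hy, rfl⟩
    show (x - y) ⟨0, hn⟩ = 0
    rw [Pi.sub_apply, hS x hx, hS y hy, sub_zero]
  have h2 := LinearMap.finrank_range_add_finrank_ker (LinearMap.proj (R := ℝ) (φ := fun _ : Fin n => ℝ) ⟨0, hn⟩)
  have h3 : LinearMap.range (LinearMap.proj (R := ℝ) (φ := fun _ : Fin n => ℝ) ⟨0, hn⟩) = ⊤ :=
    LinearMap.range_eq_top.2 fun c => ⟨fun _ => c, rfl⟩
  rw [h3, finrank_top, Module.finrank_self, Module.finrank_fin_fun] at h2
  have h4 := Submodule.finrank_mono h1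
  omega

/-- the tropical linear map -/
private noncomputable def Tm {m n : ℕ} (u : Fin m → Fin n → ℤ) (x : Fin n → ℝ) (e : Fin m) : ℝ := ⨅ i : Fin n, (x i + u e i)

private theorem Tm_eq {m n : ℕ} (u : Fin m → Fin n → ℤ) {x : Fin n → ℝ} {e : Fin m} {k : Fin n}
    (h : ∀ j, x k + u e k ≤ x j + u e j) : Tm u x e = x k + u e k := by
  have : Nonempty (Fin n) := ⟨k⟩
  exact le_antisymm (ciInf_le (Set.finite_range _).bddBelow k) (le_ciInf h)

/-- on the hull of a chain the tropical map is affine -/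
private theorem exists_affine {m n : ℕ} (hn : 0 < n) (u : Fin m → Fin n → ℤ) {C : Set (Fin n → ℤ)} (hC : Chn C)
    (hf : C.Finite) : ∃ A : (Fin n → ℝ) →ᵃ[ℝ] (Fin m → ℝ), ∀ x ∈ convexHull ℝ (cst '' C), Tm u x = A x := by
  have h1 := fun e => exists_idx hn hC hf (u e)
  choose k hk using h1
  let A : (Fin n → ℝ) →ᵃ[ℝ] (Fin m → ℝ) :=
    (LinearMap.pi fun e => LinearMap.proj (R := ℝ) (φ := fun _ : Fin n => ℝ) (k e)).toAffineMap +
      AffineMap.const ℝ _ (fun e => (u e (k e) : ℝ))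
  have hA : ∀ x e, A x e = x (k e) + u e (k e) := fun x e => rfl
  refine ⟨A, ?_⟩
  have h2 : convexHull ℝ (cst '' C) ⊆ {x | ∀ e j, x (k e) + u e (k e) ≤ x j + u e j} := by
    refine convexHull_min ?_ ?_
    · rintro _ ⟨v, hv, rfl⟩ e j
      have := hk e v hv j
      show (v (k e) : ℝ) + u e (k e) ≤ v j + u e j
      exact_mod_cast this
    · intro x hx y hy s t hs ht hst e j
      have h1 := hx e j
      have h2 := hy e j
      show s * x (k e) + t * y (k e) + u e (k e) ≤ s * x j + t * y j + u e j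
      have h3 : (u e (k e) : ℝ) = s * u e (k e) + t * u e (k e) := by rw [← add_mul, hst, one_mul]
      have h4 : (u e j : ℝ) = s * u e j + t * u e j := by rw [← add_mul, hst, one_mul]
      nlinarith [mul_le_mul_of_nonneg_left h1 hs, mul_le_mul_of_nonneg_left h2 ht]
  intro x hx
  funext e
  rw [hA, Tm_eq u (fun j => h2 hx e j)]

theorem isPolyhedron_trop {m n : ℕ} (hn : 0 < n) (a : ℕ) (u : Fin m → Fin n → ℤ) :
    IsPolyhedron (n - 1) ((fun (x : Fin n → ℝ) (e : Fin m) => ⨅ i : Fin n, (x i + u e i)) '' Reg n a) := by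
  show IsPolyhedron (n - 1) (Tm u '' Reg n a)
  have hV := reg_fin n a
  have hkey : ∀ C : Set (Fin n → ℤ), C ⊆ {v | cst v ∈ Reg n a} → Chn C →
      Tm u '' convexHull ℝ (cst '' C) = convexHull ℝ (Tm u '' (cst '' C)) ∧
        Module.finrank ℝ (vectorSpan ℝ (Tm u '' (cst '' C))) ≤ n - 1 := by
    intro C hCV hC
    obtain ⟨A, hA⟩ := exists_affine hn u hC (hV.subset hCV)
    have h1 : Tm u '' convexHull ℝ (cst '' C) = A '' convexHull ℝ (cst '' C) := Set.image_congr hA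
    have h2 : Tm u '' (cst '' C) = A '' (cst '' C) := Set.image_congr fun x hx => hA x (subset_convexHull ℝ _ hx)
    refine ⟨by rw [h1, h2, A.image_convexHull], ?_⟩
    rw [h2, ← A.map_vectorSpan]
    refine (Submodule.finrank_map_le A.linear _).trans (span_dim hn ?_)
    rintro _ ⟨v, hv, rfl⟩
    exact (hCV hv).1 _ rfl
  refine ⟨(fun C : Set (Fin n → ℤ) => Tm u '' (cst '' C)) '' {C | C ⊆ {v | cst v ∈ Reg n a} ∧ Chn C}, ?_, ?_, ?_⟩
  · exact (hV.finite_subsets.subset fun C hC => hC.1).image _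
  · ext y
    simp only [Set.mem_iUnion, exists_prop, Set.exists_mem_image]
    constructor
    · rintro ⟨x, hx, rfl⟩
      have hCV : (fun θ : ℝ => fun i => ⌊x i + θ⌋) '' Set.Ico 0 1 ⊆ {v : Fin n → ℤ | cst v ∈ Reg n a} := by
        rintro _ ⟨θ, hθ, rfl⟩
        refine ⟨fun i hi => ?_, fun i j hij => ⟨?_, ?_⟩⟩
        · show ((⌊x i + θ⌋ : ℤ) : ℝ) = 0
          rw [hx.1 i hi, zero_add, Int.floor_eq_zero_iff.2 hθ]
          simp
        · show ((⌊x i + θ⌋ : ℤ) : ℝ) ≤ ((⌊x j + θ⌋ : ℤ) : ℝ)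
          have h1 : ⌊x i + θ⌋ ≤ ⌊x j + θ⌋ := Int.floor_le_floor (by linarith [(hx.2 i j hij).1])
          exact_mod_cast h1
        · show ((⌊x j + θ⌋ : ℤ) : ℝ) ≤ ((⌊x i + θ⌋ : ℤ) : ℝ) + a
          have h1 : ⌊x j + θ⌋ ≤ ⌊x i + θ + (a : ℕ)⌋ := Int.floor_le_floor (by linarith [(hx.2 i j hij).2])
          rw [Int.floor_add_natCast] at h1
          exact_mod_cast h1
      refine ⟨(fun θ : ℝ => fun i => ⌊x i + θ⌋) '' Set.Ico 0 1, ⟨hCV, chn_floor x⟩, ?_⟩
      · rw [← (hkey _ hCV (chn_floor x)).1]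
        refine ⟨x, ?_, rfl⟩
        have h2 := mem_hull_floor x
        have h3 : (fun θ : ℝ => fun i => ((⌊x i + θ⌋ : ℤ) : ℝ)) '' Set.Ico 0 1 =
            cst '' ((fun θ : ℝ => fun i => ⌊x i + θ⌋) '' Set.Ico 0 1) := by
          rw [Set.image_image]
          rfl
        rwa [h3] at h2
    · rintro ⟨C, ⟨hCV, hC⟩, hy⟩
      rw [← (hkey C hCV hC).1] at hy
      obtain ⟨x, hx, rfl⟩ := hy
      refine ⟨x, ?_, rfl⟩
      refine (convexHull_min ?_ (reg_convex n a)) hx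
      rintro _ ⟨v, hv, rfl⟩
      exact hCV hv
  · rintro _ ⟨C, ⟨hCV, hC⟩, rfl⟩
    exact ⟨((hV.subset hCV).image _).image _, (hkey C hCV hC).2⟩

end Pool.Agent.H9.XM
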