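import Pool.Agent.H9.XM.Hon
import Pool.Agent.H9.XM.RndP
import Mathlib.Analysis.SpecialFunctions.Log.Basic
import Mathlib.Analysis.SpecialFunctions.Pow.NNReal

/-!
# [H9 XM Pol] the points with bounded gaps form a polyhedron

`Xt π a`: the points `psi g τ` with `‖π‖ ^ a ≤ τ l ≤ 1`. `Prim v`: the row `v` is integral and has an entry of norm `1`.
`exists_net`: compactness of the set of integral rows: for every `N` there are finitely many primitive rows such that every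
primitive row is congruent to one of them modulo `π ^ N` (choose for every class of a finite subcover which contains primitive
rows such a row; or: the set of primitive rows is compact; `IsCompact.finite_cover_balls`).
`nm_lower`: `ξ ∈ Xt π a`, `v` primitive: `‖π‖ ^ (a * n) ≤ nm ξ v`: `v * g` has an entry of norm `1` (otherwise all entries of
`v = v g g⁻¹` have norm `< 1`), and `al τ j ≥ ‖π‖ ^ (a * n)`.
`nm_congr`: `v` primitive, `‖v i - w i‖ ≤ ‖π‖ ^ (a n + 1)`: `nm ξ (v - w) ≤ ‖π‖ ^ (a n + 1) < nm ξ v`, so `nm ξ w = nm ξ v`.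
`ext_net`: if `nm ξ (x e) = nm ζ (x e)` for all members of a net modulo `π ^ (a n + 1)` then `nm ξ = nm ζ` on all primitive rows, so
everywhere (scaling), and `ξ = ζ` by `hon_ext`.

`Tht π a x ξ e = log (max (‖π‖ ^ (a n)) (nm ξ (x e))) / log ‖π‖`: continuous (`log` is continuous at positive numbers).
-/

set_option autoImplicit false

namespace Pool.Agent.H9.XM

open scoped NNReal
open Pool.Agent.H76.GT

variable {K : Type} [NormedField K] {n : ℕ}

/-- the points with gaps at most `a` -/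
def Xt (π : K) (a : ℕ) : Set (Xm n K) :=
  {ξ | ∃ (g : Matrix (Fin n) (Fin n) K) (τ : Fin n → ℝ≥0), GO g ∧ (∀ l, τ l ≤ 1) ∧ (∀ l, ‖π‖₊ ^ a ≤ τ l) ∧ ξ.1 = psi g τ}

/-- primitive rows -/
def Prim (v : Fin n → K) : Prop := (∀ i, ‖v i‖₊ ≤ 1) ∧ ∃ i, ‖v i‖₊ = 1

/-- `x` is a net of primitive rows modulo `π ^ N` -/
def Net (π : K) (N : ℕ) {m : ℕ} (x : Fin m → Fin n → K) : Prop :=
  (∀ e, Prim (x e)) ∧ ∀ v, Prim v → ∃ e, ∀ i, ‖v i - x e i‖₊ ≤ ‖π‖₊ ^ N

/-- the coordinates -/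
noncomputable def Tht (π : K) (a : ℕ) {m : ℕ} (x : Fin m → Fin n → K) (ξ : Xm n K) : Fin m → ℝ :=
  fun e => Real.log (max (‖π‖ ^ (a * n)) (nm ξ (x e) : ℝ)) / Real.log ‖π‖

theorem exists_net [ProperSpace K] {π : K} (hπ : IsUnif π) (N : ℕ) : ∃ (m : ℕ) (x : Fin m → Fin n → K), Net π N x := by
  have hc : IsCompact {v : Fin n → K | Prim v} := by
    refine Metric.isCompact_of_isClosed_isBounded ?_ ?_
    · have h1 : {v : Fin n → K | Prim v} =
          (⋂ i, {v : Fin n → K | ‖v i‖₊ ≤ 1}) ∩ ⋃ i, {v : Fin n → K | ‖v i‖₊ = 1} := by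
        ext v
        rw [Set.mem_inter_iff, Set.mem_iInter, Set.mem_iUnion]
        rfl
      rw [h1]
      refine IsClosed.inter (isClosed_iInter fun i => ?_) (isClosed_iUnion_of_finite fun i => ?_)
      · exact isClosed_le ((continuous_apply i).nnnorm) continuous_const
      · exact isClosed_eq ((continuous_apply i).nnnorm) continuous_const
    · refine (Metric.isBounded_closedBall (x := (0 : Fin n → K)) (r := 1)).subset fun v hv => ?_
      rw [mem_closedBall_zero_iff]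
      exact (pi_norm_le_iff_of_nonneg zero_le_one).2 fun i => hv.1 i
  have he : (0 : ℝ) < ‖π‖ ^ N := pow_pos (by exact_mod_cast hπ.pos) N
  obtain ⟨t, ht1, ht2, ht3⟩ := hc.finite_cover_balls he
  obtain ⟨m, f, -, hf⟩ := ht2.fin_param
  refine ⟨m, f, fun e => ht1 (by rw [← hf]; exact Set.mem_range_self e), fun v hv => ?_⟩
  obtain ⟨w, hw⟩ := Set.mem_iUnion.1 (ht3 hv)
  obtain ⟨hw1, hw2⟩ := Set.mem_iUnion.1 hw
  rw [← hf] at hw1
  obtain ⟨e, rfl⟩ := hw1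
  refine ⟨e, fun i => ?_⟩
  have h2 : dist (v i) (f e i) ≤ dist v (f e) := dist_le_pi_dist v (f e) i
  have h3 : dist v (f e) < ‖π‖ ^ N := hw2
  have h4 : ‖v i - f e i‖ ≤ ‖π‖ ^ N := by
    rw [← dist_eq_norm]
    exact h2.trans h3.le
  exact_mod_cast h4

theorem continuous_Tht {π : K} (hπ : IsUnif π) (a : ℕ) {m : ℕ} (x : Fin m → Fin n → K) :
    Continuous fun ξ : Xm n K => Tht π a x ξ := by
  refine continuous_pi fun e => ?_
  refine Continuous.div_const (Continuous.log ?_ fun ξ => ?_) _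
  · exact continuous_const.max (NNReal.continuous_coe.comp (continuous_nm (x e)))
  · have h1 : (0 : ℝ) < ‖π‖ := by exact_mod_cast hπ.pos
    exact (lt_max_of_lt_left (pow_pos h1 _)).ne'

variable [IsUltrametricDist K]

private theorem al_ge {π : K} (hπ : IsUnif π) {a : ℕ} {τ : Fin n → ℝ≥0} (h : ∀ l, ‖π‖₊ ^ a ≤ τ l) (j : Fin n) :
    ‖π‖₊ ^ (a * n) ≤ al τ j := by
  unfold al
  calc ‖π‖₊ ^ (a * n) = (‖π‖₊ ^ a) ^ n := pow_mul _ _ _
    _ ≤ (‖π‖₊ ^ a) ^ (Finset.univ.filter (fun l : Fin n => 0 < (l : ℕ) ∧ l ≤ j)).card := by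
        refine pow_le_pow_of_le_one zero_le (pow_le_one₀ zero_le hπ.lt_one.le) ?_
        refine (Finset.card_le_univ _).trans ?_
        rw [Fintype.card_fin]
    _ = ∏ l ∈ Finset.univ.filter (fun l : Fin n => 0 < (l : ℕ) ∧ l ≤ j), ‖π‖₊ ^ a := by
        rw [Finset.prod_const]
    _ ≤ _ := Finset.prod_le_prod' fun l _ => h l

theorem nm_lower {π : K} (hπ : IsUnif π) {a : ℕ} {ξ : Xm n K} (hξ : ξ ∈ Xt π a) {v : Fin n → K} (hv : Prim v) :
    ‖π‖₊ ^ (a * n) ≤ nm ξ v := by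
  obtain ⟨g, τ, hg, h1, h2, h3⟩ := hξ
  rw [nm_eq h3 v]
  obtain ⟨j, hj⟩ : ∃ j, 1 ≤ ‖Matrix.vecMul v g j‖₊ := by
    by_contra hcon
    have h4 : ∀ j, ‖Matrix.vecMul v g j‖₊ < 1 := fun j => not_le.1 fun h5 => hcon ⟨j, h5⟩
    obtain ⟨c, hc1, hc2⟩ : ∃ c : ℝ≥0, c < 1 ∧ ∀ j, ‖Matrix.vecMul v g j‖₊ ≤ c := by
      refine ⟨Finset.univ.sup fun j => ‖Matrix.vecMul v g j‖₊, ?_, fun j => ?_⟩
      · exact (Finset.sup_lt_iff zero_lt_one).2 fun j _ => h4 j
      · exact Finset.le_sup (f := fun j => ‖Matrix.vecMul v g j‖₊) (Finset.mem_univ j)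
    obtain ⟨i, hi⟩ := hv.2
    have h6 : Matrix.vecMul (Matrix.vecMul v g) g⁻¹ = v := by
      rw [Matrix.vecMul_vecMul, Matrix.mul_nonsing_inv g hg.isUnit, Matrix.vecMul_one]
    have h7 : ‖v i‖₊ ≤ c := by
      rw [← h6]
      unfold Matrix.vecMul dotProduct
      refine IsUltrametricDist.nnnorm_sum_le_of_forall_le fun k _ => ?_
      rw [nnnorm_mul]
      calc _ ≤ c * 1 := mul_le_mul' (hc2 k) (hg.inv.int k i)
        _ = c := mul_one c
    rw [hi] at h7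
    exact absurd h7 (not_le.2 hc1)
  refine le_trans ?_ (Finset.le_sup (f := fun j => ‖Matrix.vecMul v g j‖₊ * al τ j) (Finset.mem_univ j))
  calc ‖π‖₊ ^ (a * n) ≤ al τ j := al_ge hπ h2 j
    _ = 1 * al τ j := (one_mul _).symm
    _ ≤ _ := mul_le_mul' hj le_rfl

private theorem nm_congr {π : K} (hπ : IsUnif π) {a : ℕ} {ξ : Xm n K} (hξ : ξ ∈ Xt π a) {v w : Fin n → K}
    (hv : Prim v) (hvw : ∀ i, ‖v i - w i‖₊ ≤ ‖π‖₊ ^ (a * n + 1)) : nm ξ v ≤ nm ξ w := by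
  have h1 : nm ξ (v - w) ≤ ‖π‖₊ ^ (a * n + 1) := nm_le ξ fun i => hvw i
  have h2 : ‖π‖₊ ^ (a * n + 1) < nm ξ v := by
    refine lt_of_lt_of_le ?_ (nm_lower hπ hξ hv)
    rw [pow_succ]
    calc ‖π‖₊ ^ (a * n) * ‖π‖₊ < ‖π‖₊ ^ (a * n) * 1 :=
          mul_lt_mul_of_pos_left hπ.lt_one (pow_pos hπ.pos _)
      _ = ‖π‖₊ ^ (a * n) := mul_one _
  have h3 : nm ξ v ≤ max (nm ξ (v - w)) (nm ξ w) := by
    have h4 := nm_add ξ (v - w) w
    rwa [sub_add_cancel] at h4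
  rcases le_max_iff.1 h3 with h4 | h4
  · exact absurd (h4.trans h1) (not_le.2 h2)
  · exact h4

/-- `Tht` is injective on `Xt` -/
theorem injOn_Tht {π : K} (hπ : IsUnif π) {a m : ℕ} {x : Fin m → Fin n → K} (hx : Net π (a * n + 1) x) :
    Set.InjOn (Tht π a x) (Xt π a : Set (Xm n K)) := by
  intro ξ hξ ζ hζ he
  have hp : (0 : ℝ) < ‖π‖ := by exact_mod_cast hπ.pos
  have hp1 : ‖π‖ < 1 := by exact_mod_cast hπ.lt_one
  have hlog : Real.log ‖π‖ ≠ 0 := (Real.log_neg hp hp1).ne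
  have h1 : ∀ e, nm ξ (x e) = nm ζ (x e) := by
    intro e
    have h2 : Real.log (max (‖π‖ ^ (a * n)) (nm ξ (x e) : ℝ)) / Real.log ‖π‖ =
        Real.log (max (‖π‖ ^ (a * n)) (nm ζ (x e) : ℝ)) / Real.log ‖π‖ := congrFun he e
    have h3 := (div_left_inj' hlog).1 h2
    have h4 : ∀ ω : Xm n K, ω ∈ Xt π a → max (‖π‖ ^ (a * n)) (nm ω (x e) : ℝ) = (nm ω (x e) : ℝ) := by
      intro ω hω
      refine max_eq_right ?_
      have h5 := nm_lower hπ hω (hx.1 e)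
      exact_mod_cast h5
    rw [h4 ξ hξ, h4 ζ hζ] at h3
    have h6 : ∀ ω : Xm n K, ω ∈ Xt π a → (0 : ℝ) < (nm ω (x e) : ℝ) := by
      intro ω hω
      have h5 := lt_of_lt_of_le (pow_pos hπ.pos _) (nm_lower hπ hω (hx.1 e))
      exact_mod_cast h5
    have h7 := Real.log_injOn_pos (Set.mem_Ioi.2 (h6 ξ hξ)) (Set.mem_Ioi.2 (h6 ζ hζ)) h3
    exact_mod_cast h7
  have h2 : ∀ (ω : Xm n K), ω ∈ Xt π a → ∀ v, Prim v → ∀ e, (∀ i, ‖v i - x e i‖₊ ≤ ‖π‖₊ ^ (a * n + 1)) →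
      nm ω v = nm ω (x e) := by
    intro ω hω v hv e hve
    refine le_antisymm (nm_congr hπ hω hv hve) (nm_congr hπ hω (hx.1 e) fun i => ?_)
    rw [← nnnorm_neg, neg_sub]
    exact hve i
  have h3 : ∀ v, Prim v → nm ξ v = nm ζ v := by
    intro v hv
    obtain ⟨e, he⟩ := hx.2 v hv
    rw [h2 ξ hξ v hv e he, h2 ζ hζ v hv e he, h1 e]
  have h4 : ∀ v, nm ξ v = nm ζ v := by
    intro v
    by_cases hv : v = 0
    · rw [hv]
      have h5 : ∀ ω : Xm n K, nm ω (0 : Fin n → K) = 0 := by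
        intro ω
        have h6 := nm_smul ω (0 : K) (0 : Fin n → K)
        rwa [zero_smul, nnnorm_zero, zero_mul] at h6
      rw [h5 ξ, h5 ζ]
    · obtain ⟨i0, hi0⟩ : ∃ i, v i ≠ 0 := by
        by_contra hcon
        exact hv (funext fun i => not_not.1 fun h5 => hcon ⟨i, h5⟩)
      have : Nonempty (Fin n) := ⟨i0⟩
      obtain ⟨i, hi⟩ := Finite.exists_max fun i => ‖v i‖₊
      have hvi : v i ≠ 0 := by
        intro h5
        have h6 := hi i0
        rw [h5, nnnorm_zero] at h6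
        exact hi0 (nnnorm_eq_zero.1 (le_antisymm h6 zero_le))
      have hpr : Prim ((v i)⁻¹ • v) := by
        refine ⟨fun k => ?_, i, ?_⟩
        · rw [Pi.smul_apply, smul_eq_mul, nnnorm_mul, nnnorm_inv]
          exact inv_mul_le_one_of_le₀ (hi k) zero_le
        · rw [Pi.smul_apply, smul_eq_mul, inv_mul_cancel₀ hvi, nnnorm_one]
      have h5 : v = v i • ((v i)⁻¹ • v) := by
        rw [smul_smul, mul_inv_cancel₀ hvi, one_smul]
      calc nm ξ v = nm ξ (v i • ((v i)⁻¹ • v)) := by rw [← h5]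
        _ = ‖v i‖₊ * nm ξ ((v i)⁻¹ • v) := nm_smul ξ _ _
        _ = ‖v i‖₊ * nm ζ ((v i)⁻¹ • v) := by rw [h3 _ hpr]
        _ = nm ζ (v i • ((v i)⁻¹ • v)) := (nm_smul ζ _ _).symm
        _ = nm ζ v := by rw [← h5]
  have hon : ∀ ω : Xm n K, ω ∈ Xt π a → Hon ω := by
    rintro ω ⟨g, τ, hg, h5, h6, h7⟩
    exact ⟨g, τ, hg, h5, fun l => lt_of_lt_of_le (pow_pos hπ.pos _) (h6 l), h7⟩
  exact hon_ext (hon ξ hξ) (hon ζ hζ) (c := 1) fun v => by rw [one_mul, h4 v]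

end Pool.Agent.H9.XM
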