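import Pool.Agent.H9.XM.Pol

/-!
# [H9 XM PolP] the image of the points with bounded gaps is a polyhedron

`vl π A y`: the valuation of `y`, truncated at `A`: if `‖y‖ = ‖π‖ ^ m` then `min m A`, and `A` for `y = 0`.
`Tht_eq`: `ξ = psi g τ`, `τ l = ‖π‖ ^ t l` for `0 < l` (real powers, `0 ≤ t l ≤ a`, `t l = log (τ l) / log ‖π‖`), `λ j = ∑ (0 < l ≤ j), t l` is in `Reg n a`;
`nm ξ v = max_j ‖(v g)_j‖ ‖π‖ ^ λ j` (`nm_eq`), and its logarithm is `min_j (val (v g)_j + λ j)`; for a primitive `v` this is at most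
`A = a * n` because some `(v g)_j` has norm `1`; so `val` may be replaced by `vl π A` (entries of `v g` are integral,
if `val > A` or `= ∞` the term is `> A` resp. absent, and `A + λ j ≥ A ≥` the minimum, `λ j ≥ 0`). So
`Tht π a x ξ e = ⨅ j, (λ j + vl π (a n) ((x e) g)_j)`.
`isPolyhedron_Tht`: the image of `Xt π a` is the union over the finite set of all functions `u e j = vl π (a n) ((x e) g)_j`, `GO g`, (values in
`[0, a n]`) of the images of `Reg n a` (`isPolyhedron_trop`, `isPolyhedron_biUnion`): for `λ ∈ Reg n a` put `τ l = ‖π‖ ^ (λ l - λ (l-1))`,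
`τ 0 = 1`.
-/

set_option autoImplicit false

namespace Pool.Agent.H9.XM

open scoped NNReal
open Pool.Agent.H76.GT

variable {K : Type} [NormedField K] {n : ℕ}

open Classical in
/-- the valuation, truncated at `A` -/
noncomputable def vl (π : K) (A : ℕ) (y : K) : ℤ := if h : ∃ m : ℤ, m ≤ A ∧ ‖y‖₊ = ‖π‖₊ ^ m then h.choose else A

private theorem zpow_anti {π : K} (hπ : IsUnif π) {a b : ℤ} (h : a ≤ b) : ‖π‖₊ ^ b ≤ ‖π‖₊ ^ a :=
  zpow_le_zpow_right_of_le_one₀ hπ.pos hπ.lt_one.le h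

private theorem vl_cases (π : K) (A : ℕ) (y : K) :
    (‖y‖₊ = ‖π‖₊ ^ (vl π A y) ∧ vl π A y ≤ A) ∨ (vl π A y = A ∧ ∀ m : ℤ, ‖y‖₊ = ‖π‖₊ ^ m → (A : ℤ) < m) := by
  classical
  by_cases h : ∃ m : ℤ, m ≤ A ∧ ‖y‖₊ = ‖π‖₊ ^ m
  · have e : vl π A y = h.choose := dif_pos h
    rw [e]
    exact Or.inl ⟨h.choose_spec.2, h.choose_spec.1⟩
  · have e : vl π A y = A := dif_neg h
    refine Or.inr ⟨e, fun m hm => ?_⟩
    by_contra hc
    exact h ⟨m, not_lt.1 hc, hm⟩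

private theorem vl_le (π : K) (A : ℕ) (y : K) : vl π A y ≤ A := by
  rcases vl_cases π A y with h | h
  · exact h.2
  · exact h.1.le

private theorem vl_nonneg {π : K} (hπ : IsUnif π) (A : ℕ) {y : K} (hy : ‖y‖₊ ≤ 1) : 0 ≤ vl π A y := by
  rcases vl_cases π A y with h | h
  · by_contra hc
    have h1 : vl π A y ≤ -1 := by omega
    have h2 := zpow_anti hπ h1
    rw [← h.1] at h2
    have h3 : (1 : ℝ≥0) < ‖π‖₊ ^ (-1 : ℤ) := by
      rw [zpow_neg_one]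
      exact (one_lt_inv₀ hπ.pos).2 hπ.lt_one
    exact absurd (h2.trans hy) (not_le.2 h3)
  · rw [h.1]
    exact Int.natCast_nonneg A

private theorem le_pow_vl {π : K} (hπ : IsUnif π) (A : ℕ) (y : K) : ‖y‖₊ ≤ ‖π‖₊ ^ (vl π A y) := by
  rcases vl_cases π A y with h | h
  · exact h.1.le
  · by_cases hy : y = 0
    · rw [hy, nnnorm_zero]
      exact zero_le
    · obtain ⟨m, hm⟩ := hπ.exists_pow y hy
      rw [hm]
      refine zpow_anti hπ ?_
      rw [h.1]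
      exact (h.2 m hm).le

private theorem al_zero (τ : Fin n → ℝ≥0) {i : Fin n} (hi : (i : ℕ) = 0) : al τ i = 1 := by
  refine Finset.prod_eq_one fun l hl => ?_
  exfalso
  have h := (Finset.mem_filter.1 hl).2
  have h2 : (l : ℕ) ≤ (i : ℕ) := h.2
  omega

private theorem al_succ (τ : Fin n → ℝ≥0) {i j : Fin n} (hij : (i : ℕ) + 1 = j) : al τ j = al τ i * τ j := by
  have h1 : (Finset.univ.filter fun l : Fin n => 0 < (l : ℕ) ∧ l ≤ j) =
      insert j (Finset.univ.filter fun l : Fin n => 0 < (l : ℕ) ∧ l ≤ i) := by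
    ext l
    simp only [Finset.mem_insert, Finset.mem_filter, Finset.mem_univ, true_and, Fin.ext_iff, Fin.le_def]
    omega
  have h2 : j ∉ Finset.univ.filter (fun l : Fin n => 0 < (l : ℕ) ∧ l ≤ i) := by
    intro h
    have h3 : (j : ℕ) ≤ i := (Finset.mem_filter.1 h).2.2
    omega
  unfold al
  rw [h1, Finset.prod_insert h2, mul_comm]

private theorem al_le_one {τ : Fin n → ℝ≥0} (h1 : ∀ l, τ l ≤ 1) (i : Fin n) : al τ i ≤ 1 :=
  Finset.prod_le_one' fun l _ => h1 l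

private theorem al_pos {τ : Fin n → ℝ≥0} (h0 : ∀ l, 0 < τ l) (i : Fin n) : 0 < al τ i :=
  Finset.prod_pos fun l _ => h0 l

private theorem log_neg {π : K} (hπ : IsUnif π) : Real.log ‖π‖ < 0 :=
  Real.log_neg (NNReal.coe_pos.2 hπ.pos) (by exact_mod_cast hπ.lt_one)

private theorem log_mul_zpow {π : K} (hπ : IsUnif π) (k : ℤ) {t : ℝ≥0} (ht : 0 < t) :
    Real.log ((‖π‖₊ ^ k * t : ℝ≥0) : ℝ) = k * Real.log ‖π‖ + Real.log t := by
  have h1 : (0 : ℝ) < ‖π‖ := NNReal.coe_pos.2 hπ.pos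
  rw [NNReal.coe_mul, Real.log_mul (NNReal.coe_ne_zero.2 (zpow_pos hπ.pos k).ne') (NNReal.coe_ne_zero.2 ht.ne'),
    NNReal.coe_zpow, Real.log_zpow, coe_nnnorm]

variable [IsUltrametricDist K]

/-- `Tht` of a point with parameters -/
theorem Tht_eq {π : K} (hπ : IsUnif π) {a m : ℕ} {x : Fin m → Fin n → K} (hx : ∀ e, Prim (x e)) {ξ : Xm n K}
    {g : Matrix (Fin n) (Fin n) K} {τ : Fin n → ℝ≥0} (hg : GO g) (h1 : ∀ l, τ l ≤ 1) (h0 : ∀ l, ‖π‖₊ ^ a ≤ τ l)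
    (h : ξ.1 = psi g τ) (e : Fin m) :
    Tht π a x ξ e = ⨅ j : Fin n, (Real.log (al τ j) / Real.log ‖π‖ + vl π (a * n) (Matrix.vecMul (x e) g j)) := by
  have hξ : ξ ∈ Xt π a := ⟨g, τ, hg, h1, h0, h⟩
  have hlow := nm_lower hπ hξ (hx e)
  have hmax : max (‖π‖ ^ (a * n)) (nm ξ (x e) : ℝ) = nm ξ (x e) := by
    refine max_eq_right ?_
    have h2 := NNReal.coe_le_coe.2 hlow
    rwa [NNReal.coe_pow, coe_nnnorm] at h2
  have hc := log_neg hπ
  have hτ : ∀ l, 0 < τ l := fun l => lt_of_lt_of_le (pow_pos hπ.pos a) (h0 l)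
  have hN : 0 < nm ξ (x e) := lt_of_lt_of_le (pow_pos hπ.pos _) hlow
  have hsup := nm_eq h (x e)
  have key1 : ∀ j, ‖π‖₊ ^ (vl π (a * n) (Matrix.vecMul (x e) g j)) * al τ j ≤ nm ξ (x e) := by
    intro j
    rcases vl_cases π (a * n) (Matrix.vecMul (x e) g j) with h2 | h2
    · rw [← h2.1, hsup]
      exact Finset.le_sup (f := fun j => ‖Matrix.vecMul (x e) g j‖₊ * al τ j) (Finset.mem_univ j)
    · rw [h2.1, zpow_natCast]
      calc ‖π‖₊ ^ (a * n) * al τ j ≤ ‖π‖₊ ^ (a * n) * 1 := mul_le_mul' le_rfl (al_le_one h1 j)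
        _ = ‖π‖₊ ^ (a * n) := mul_one _
        _ ≤ nm ξ (x e) := hlow
  obtain ⟨i₀, -⟩ := (hx e).2
  have hne : (Finset.univ : Finset (Fin n)).Nonempty := ⟨i₀, Finset.mem_univ i₀⟩
  obtain ⟨k, -, hk⟩ := Finset.exists_mem_eq_sup Finset.univ hne (fun j => ‖Matrix.vecMul (x e) g j‖₊ * al τ j)
  have key2 : nm ξ (x e) = ‖π‖₊ ^ (vl π (a * n) (Matrix.vecMul (x e) g k)) * al τ k := by
    refine le_antisymm ?_ (key1 k)
    rw [hsup, hk]
    exact mul_le_mul' (le_pow_vl hπ _ _) le_rfl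
  have hk2 : Real.log (nm ξ (x e)) / Real.log ‖π‖ =
      Real.log (al τ k) / Real.log ‖π‖ + vl π (a * n) (Matrix.vecMul (x e) g k) := by
    rw [key2, log_mul_zpow hπ _ (al_pos hτ k), add_div, mul_div_cancel_right₀ _ hc.ne, add_comm]
  have hk1 : ∀ j, Real.log (nm ξ (x e)) / Real.log ‖π‖ ≤
      Real.log (al τ j) / Real.log ‖π‖ + vl π (a * n) (Matrix.vecMul (x e) g j) := by
    intro j
    have h2 : Real.log ((‖π‖₊ ^ (vl π (a * n) (Matrix.vecMul (x e) g j)) * al τ j : ℝ≥0) : ℝ) ≤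
        Real.log (nm ξ (x e)) :=
      Real.log_le_log (NNReal.coe_pos.2 (mul_pos (zpow_pos hπ.pos _) (al_pos hτ j))) (NNReal.coe_le_coe.2 (key1 j))
    rw [log_mul_zpow hπ _ (al_pos hτ j)] at h2
    have h3 := (div_le_div_right_of_neg hc).2 h2
    rwa [add_div, mul_div_cancel_right₀ _ hc.ne, add_comm] at h3
  show Real.log (max (‖π‖ ^ (a * n)) (nm ξ (x e) : ℝ)) / Real.log ‖π‖ = _
  rw [hmax]
  have : Nonempty (Fin n) := ⟨i₀⟩
  refine le_antisymm (le_ciInf hk1) ?_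
  rw [hk2]
  exact ciInf_le (Set.finite_range _).bddBelow k

/-- the weights of a point are in the region -/
private theorem mem_reg {π : K} (hπ : IsUnif π) {a : ℕ} {τ : Fin n → ℝ≥0} (h1 : ∀ l, τ l ≤ 1)
    (h0 : ∀ l, ‖π‖₊ ^ a ≤ τ l) : (fun j => Real.log (al τ j) / Real.log ‖π‖) ∈ Reg n a := by
  have hc := log_neg hπ
  have hτ : ∀ l, 0 < τ l := fun l => lt_of_lt_of_le (pow_pos hπ.pos a) (h0 l)
  refine ⟨fun i hi => ?_, fun i j hij => ?_⟩
  · show Real.log (al τ i) / Real.log ‖π‖ = 0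
    rw [al_zero τ hi, NNReal.coe_one, Real.log_one, zero_div]
  · have e1 : Real.log (al τ j) / Real.log ‖π‖ = Real.log (al τ i) / Real.log ‖π‖ + Real.log (τ j) / Real.log ‖π‖ := by
      rw [al_succ τ hij, NNReal.coe_mul, Real.log_mul (NNReal.coe_ne_zero.2 (al_pos hτ i).ne')
        (NNReal.coe_ne_zero.2 (hτ j).ne'), add_div]
    have e2 : 0 ≤ Real.log (τ j) / Real.log ‖π‖ := by
      refine div_nonneg_of_nonpos (Real.log_nonpos (τ j).2 ?_) hc.le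
      exact_mod_cast h1 j
    have e3 : Real.log (τ j) / Real.log ‖π‖ ≤ a := by
      rw [div_le_iff_of_neg hc]
      have h2 : Real.log ((‖π‖₊ ^ a : ℝ≥0) : ℝ) ≤ Real.log (τ j) :=
        Real.log_le_log (NNReal.coe_pos.2 (pow_pos hπ.pos a)) (NNReal.coe_le_coe.2 (h0 j))
      rwa [NNReal.coe_pow, Real.log_pow, coe_nnnorm] at h2
    show Real.log (al τ i) / Real.log ‖π‖ ≤ Real.log (al τ j) / Real.log ‖π‖ ∧
      Real.log (al τ j) / Real.log ‖π‖ ≤ Real.log (al τ i) / Real.log ‖π‖ + a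
    rw [e1]
    constructor <;> linarith

/-- every member of the region comes from gaps -/
private theorem exists_tau {π : K} (hπ : IsUnif π) {a : ℕ} {y : Fin n → ℝ} (hy : y ∈ Reg n a) :
    ∃ τ : Fin n → ℝ≥0, (∀ l, τ l ≤ 1) ∧ (∀ l, ‖π‖₊ ^ a ≤ τ l) ∧ ∀ j, Real.log (al τ j) / Real.log ‖π‖ = y j := by
  have hc := log_neg hπ
  have hp : ∀ l : Fin n, (l : ℕ) - 1 < n := fun l => by
    have := l.2
    omega
  let τ : Fin n → ℝ≥0 := fun l => if (l : ℕ) = 0 then 1 else ‖π‖₊ ^ (y l - y ⟨(l : ℕ) - 1, hp l⟩)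
  have hτ0 : ∀ l : Fin n, (l : ℕ) = 0 → τ l = 1 := fun l hl => if_pos hl
  have hτ1 : ∀ l : Fin n, (l : ℕ) ≠ 0 → τ l = ‖π‖₊ ^ (y l - y ⟨(l : ℕ) - 1, hp l⟩) := fun l hl => if_neg hl
  have hal : ∀ k : ℕ, ∀ j : Fin n, (j : ℕ) = k → al τ j = ‖π‖₊ ^ (y j) := by
    intro k
    induction k with
    | zero =>
      intro j hj
      rw [al_zero τ hj, hy.1 j hj, NNReal.rpow_zero]
    | succ k ih =>
      intro j hj
      have hk : k < n := by
        have := j.2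
        omega
      have hkj : ((⟨k, hk⟩ : Fin n) : ℕ) + 1 = j := hj.symm
      have e1 : (⟨(j : ℕ) - 1, hp j⟩ : Fin n) = ⟨k, hk⟩ := Fin.ext (by show (j : ℕ) - 1 = k; omega)
      rw [al_succ τ hkj, ih ⟨k, hk⟩ rfl, hτ1 j (by omega), e1, ← NNReal.rpow_add hπ.pos.ne']
      congr 1
      ring
  refine ⟨τ, fun l => ?_, fun l => ?_, fun j => ?_⟩
  · by_cases hl : (l : ℕ) = 0
    · exact (hτ0 l hl).le
    · rw [hτ1 l hl]
      refine NNReal.rpow_le_one hπ.lt_one.le ?_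
      have h2 := (hy.2 ⟨(l : ℕ) - 1, hp l⟩ l (by show (l : ℕ) - 1 + 1 = l; omega)).1
      linarith
  · by_cases hl : (l : ℕ) = 0
    · rw [hτ0 l hl]
      exact pow_le_one₀ zero_le hπ.lt_one.le
    · rw [hτ1 l hl, ← NNReal.rpow_natCast]
      refine NNReal.rpow_le_rpow_of_exponent_ge hπ.pos hπ.lt_one.le ?_
      have h2 := (hy.2 ⟨(l : ℕ) - 1, hp l⟩ l (by show (l : ℕ) - 1 + 1 = l; omega)).2
      linarith
  · rw [hal j j rfl, NNReal.coe_rpow, Real.log_rpow (NNReal.coe_pos.2 hπ.pos), coe_nnnorm,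
      mul_div_cancel_right₀ _ hc.ne]

theorem isPolyhedron_Tht {π : K} (hπ : IsUnif π) (hn : 0 < n) {a m : ℕ} {x : Fin m → Fin n → K}
    (hx : ∀ e, Prim (x e)) : IsPolyhedron (n - 1) (Tht π a x '' (Xt π a : Set (Xm n K))) := by
  let U : Matrix (Fin n) (Fin n) K → Fin m → Fin n → ℤ := fun g e j => vl π (a * n) (Matrix.vecMul (x e) g j)
  have hS : (U '' {g | GO g}).Finite := by
    refine Set.Finite.subset (Set.Finite.pi' fun _ : Fin m => Set.Finite.pi' fun _ : Fin n =>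
      Set.finite_Icc (0 : ℤ) ((a * n : ℕ) : ℤ)) ?_
    rintro _ ⟨g, hg, rfl⟩ e j
    refine ⟨vl_nonneg hπ _ ?_, vl_le _ _ _⟩
    have h1 : Matrix.vecMul (x e) g j = ∑ i, x e i * g i j := rfl
    rw [h1]
    refine IsUltrametricDist.nnnorm_sum_le_of_forall_le fun i _ => ?_
    rw [nnnorm_mul]
    exact mul_le_one' ((hx e).1 i) (GO.int hg i j)
  have hE : Tht π a x '' (Xt π a : Set (Xm n K)) = ⋃ u ∈ U '' {g | GO g},
      ((fun (y : Fin n → ℝ) (e : Fin m) => ⨅ i : Fin n, (y i + u e i)) '' Reg n a) := by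
    ext z
    simp only [Set.mem_iUnion, exists_prop]
    constructor
    · rintro ⟨ξ, ⟨g, τ, hg, h1, h0, h⟩, rfl⟩
      refine ⟨U g, ⟨g, hg, rfl⟩, fun j => Real.log (al τ j) / Real.log ‖π‖, mem_reg hπ h1 h0, ?_⟩
      funext e
      exact (Tht_eq hπ hx hg h1 h0 h e).symm
    · rintro ⟨_, ⟨g, hg, rfl⟩, y, hy, rfl⟩
      obtain ⟨τ, h1, h0, hal⟩ := exists_tau hπ hy
      refine ⟨⟨psi g τ, g, τ, hg, h1, rfl⟩, ⟨g, τ, hg, h1, h0, rfl⟩, ?_⟩
      funext e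
      rw [Tht_eq hπ hx hg h1 h0 rfl e]
      refine iInf_congr fun j => ?_
      rw [hal j]
  rw [hE]
  exact isPolyhedron_biUnion hS fun u _ => isPolyhedron_trop hn a u

end Pool.Agent.H9.XM
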