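import Pool.Agent.H76.GU.TrT
import Mathlib.Topology.Homotopy.Contractible
import Mathlib.Topology.Homotopy.Product
import Mathlib.Topology.Algebra.Module.FiniteDimension

/-!
# [H9 XM Prd] finite products of contractible, finitely dominated spaces

`contractible_pi`: `contractible_iff_id_nullhomotopic`; `ContinuousMap.Homotopy.pi` of the contractions of the factors (or by hand as in
`Pool/Agent/H76/GU/Ctr.lean`).
`topDom_pi`: metrics on the factors (`TopologicalSpace.metrizableSpaceMetric`), the product metric (`dist` in a finite product is the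
supremum). The diagonal is compact and contained in the open set `W`: there is `ε > 0` with `(x, y) ∈ W` if `dist x y < ε` (for instance
`IsCompact` of the complement of `W` and positivity of `dist` on it, or the Lebesgue number lemma). Apply the hypothesis to
`{q | dist q.1 q.2 < ε}` in every factor: `m v`, `K v`, `p v`, `i v`, `H v`. `K0 = {x : ∀ v, Fin (m v) → ℝ | ∀ v, x v ∈ K v}` is a polyhedron of
dimension `∑ N v` (`isPolyhedron_pi`), the polyhedron is its image under a linear isomorphism with `Fin m → ℝ`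
(`ContinuousLinearEquiv.ofFinrankEq`, `isPolyhedron_image`), exactly as in `Pool/Agent/H76/GU/Dom.lean`.
-/

set_option autoImplicit false

namespace Pool.Agent.H9.XM

open Pool.Agent.H76.GT

theorem contractible_pi {k : ℕ} {X : Fin k → Type} [∀ v, TopologicalSpace (X v)] [∀ v, ContractibleSpace (X v)] :
    ContractibleSpace (∀ v, X v) := by
  rw [contractible_iff_id_nullhomotopic]
  have h : ∀ v, ∃ y : X v, ContinuousMap.Homotopic (ContinuousMap.id (X v)) (ContinuousMap.const (X v) y) := fun v =>
    (contractible_iff_id_nullhomotopic (X v)).1 inferInstance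
  choose y hy using h
  have hz : ∀ v, ∃ F : C(unitInterval × X v, X v), (∀ x, F (0, x) = x) ∧ ∀ x, F (1, x) = y v := by
    intro v
    obtain ⟨F⟩ := hy v
    exact ⟨F.toContinuousMap, fun x => F.map_zero_left x, fun x => F.map_one_left x⟩
  choose F h0 h1 using hz
  refine ⟨y, ⟨⟨⟨fun q v => F v (q.1, q.2 v), ?_⟩, ?_, ?_⟩⟩⟩
  · refine continuous_pi fun v => ?_
    exact (F v).continuous.comp (continuous_fst.prodMk ((continuous_apply v).comp continuous_snd))
  · intro x
    funext v
    exact h0 v (x v)
  · intro x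
    funext v
    exact h1 v (x v)

theorem topDom_pi {k : ℕ} {X : Fin k → Type} [∀ v, TopologicalSpace (X v)] [∀ v, CompactSpace (X v)] [∀ v, T2Space (X v)]
    [∀ v, SecondCountableTopology (X v)] {N : Fin k → ℕ} (h : ∀ v, TopDom (N v) (X v)) :
    TopDom (∑ v, N v) (∀ v, X v) := by
  classical
  letI : ∀ v, MetricSpace (X v) := fun v => TopologicalSpace.metrizableSpaceMetric (X v)
  intro W hW hd
  have hU : W ∈ uniformity (∀ v, X v) := by
    rw [← nhdsSet_diagonal_eq_uniformity]
    refine hW.mem_nhdsSet.2 ?_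
    rintro ⟨x, y⟩ hxy
    have e : x = y := hxy
    rw [e]
    exact hd y
  obtain ⟨ε, hε, hW'⟩ := Metric.mem_uniformity_dist.1 hU
  have hV : ∀ v, ∃ (m : ℕ) (K : Set (Fin m → ℝ)), IsPolyhedron (N v) K ∧
      ∃ (p : C(X v, K)) (i : C(K, X v)) (H : C(unitInterval × X v, X v)),
        (∀ x, H (0, x) = i (p x)) ∧ (∀ x, H (1, x) = x) ∧ ∀ t x, (H (t, x), x) ∈ {q : X v × X v | dist q.1 q.2 < ε} :=
    fun v => h v {q | dist q.1 q.2 < ε} (isOpen_lt continuous_dist continuous_const) (fun x => by
      show dist x x < ε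
      rw [dist_self]
      exact hε)
  choose m K hK p i H h0 h1 h2 using hV
  let K0 : Set (∀ v, Fin (m v) → ℝ) := {x | ∀ v, x v ∈ K v}
  have hK0 : IsPolyhedron (∑ v, N v) K0 := isPolyhedron_pi hK
  let e : (∀ v, Fin (m v) → ℝ) ≃L[ℝ] (Fin (Module.finrank ℝ (∀ v, Fin (m v) → ℝ)) → ℝ) :=
    ContinuousLinearEquiv.ofFinrankEq (Module.finrank_fin_fun ℝ).symm
  have hs : ∀ y : (e '' K0 : Set _), e.symm y ∈ K0 := by
    rintro ⟨_, z, hz, rfl⟩
    show e.symm (e z) ∈ K0
    rw [e.symm_apply_apply]
    exact hz
  let r : (∀ v, X v) → ∀ v, Fin (m v) → ℝ := fun x v => (p v (x v)).1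
  have hr : Continuous r := by
    refine continuous_pi fun v => ?_
    exact continuous_subtype_val.comp ((p v).continuous.comp (continuous_apply v))
  have hr0 : ∀ x, r x ∈ K0 := fun x v => (p v (x v)).2
  refine ⟨_, e '' K0, isPolyhedron_image hK0 e.toLinearEquiv.toLinearMap, ⟨fun x => ⟨e (r x), r x, hr0 x, rfl⟩, ?_⟩,
    ⟨fun y v => i v ⟨e.symm y v, hs y v⟩, ?_⟩, ⟨fun q v => H v (q.1, q.2 v), ?_⟩, ?_, ?_, ?_⟩
  · exact Continuous.subtype_mk (e.continuous.comp hr) _
  · refine continuous_pi fun v => (i v).continuous.comp (Continuous.subtype_mk ?_ _)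
    exact (continuous_apply v).comp (e.symm.continuous.comp continuous_subtype_val)
  · refine continuous_pi fun v => ?_
    exact (H v).continuous.comp (continuous_fst.prodMk ((continuous_apply v).comp continuous_snd))
  · intro x
    funext v
    show H v (0, x v) = i v ⟨e.symm (e (r x)) v, _⟩
    have e1 : e.symm (e (r x)) = r x := e.symm_apply_apply _
    rw [h0 v (x v)]
    exact congrArg (i v) (Subtype.ext (congrFun e1 v).symm)
  · intro x
    funext v
    exact h1 v (x v)
  · intro t x
    refine hW' ?_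
    rw [dist_pi_lt_iff hε]
    intro v
    exact h2 v t (x v)

end Pool.Agent.H9.XM
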