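import Mathlib.Analysis.Convex.Hull
import Mathlib.Analysis.Convex.Combination
import Mathlib.Algebra.Order.Floor.Ring
import Mathlib.Data.Real.Archimedean
import Mathlib.Tactic

/-!
# [H9 XM Rnd] chains of integral vectors and rounding

`exists_idx`: choose `i` such that `s i = ∑ v ∈ C, (v i + u i)` is minimal. Suppose `v j + u j < v i + u i` for some `v ∈ C`, `j`, so
`v j + u j + 1 ≤ v i + u i`. For every `w ∈ C`: `w j + u j ≤ w i + u i`: if `v ≤ w ≤ v + 1` then `w j + u j ≤ v j + u j + 1 ≤ v i + u i ≤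
w i + u i`; if `w ≤ v ≤ w + 1` then `w j + u j ≤ v j + u j ≤ v i + u i - 1 ≤ w i + u i`. So `s j < s i`, contradiction.

`mem_hull_level`: for `0 ≤ f i < 1` the vector `f` is in the convex hull of its level sets `1_(c ≤ f)`, `0 < c ≤ 1`: induction on the number
of `i` with `f i ≠ 0`. If `f = 0`: `c = 1`. Otherwise let `c₁` be the least nonzero value, `0 < c₁ < 1`,
`f' i = (f i - c₁) / (1 - c₁)` if `f i ≠ 0`, and `0` if `f i = 0`. Then `0 ≤ f' < 1`, `f = c₁ • 1_(c₁ ≤ f) + (1 - c₁) • f'`, `f'` has fewer nonzero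
entries, and for `0 < c ≤ 1` the level set `1_(c ≤ f')` is `1_(c₁ + (1 - c₁) c ≤ f)`.

`mem_hull_floor`: `x = ⌊x⌋ + f`, `f = Int.fract`, and `⌊x i + θ⌋ = ⌊x i⌋ + (if 1 - θ ≤ f i then 1 else 0)` for `0 ≤ θ < 1`; `c = 1 - θ`; the convex
hull of a translate (`convexHull_vadd`, or `Convex` of the preimage of the hull under the translation, `convexHull_min`).
-/

set_option autoImplicit false

namespace Pool.Agent.H9.XM

/-- a chain `v_0 ≤ v_1 ≤ .. ≤ v_k ≤ v_0 + 1` of integral vectors -/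
def Chn {n : ℕ} (C : Set (Fin n → ℤ)) : Prop :=
  ∀ v ∈ C, ∀ w ∈ C, (∀ i, v i ≤ w i ∧ w i ≤ v i + 1) ∨ ∀ i, w i ≤ v i ∧ v i ≤ w i + 1

/-- an index which is minimal for all members of the chain -/
theorem exists_idx {n : ℕ} (hn : 0 < n) {C : Set (Fin n → ℤ)} (hC : Chn C) (hf : C.Finite) (u : Fin n → ℤ) :
    ∃ i, ∀ v ∈ C, ∀ j, v i + u i ≤ v j + u j := by
  have hne : Nonempty (Fin n) := ⟨⟨0, hn⟩⟩
  obtain ⟨i, hi⟩ := Finite.exists_min fun i : Fin n => ∑ v ∈ hf.toFinset, (v i + u i)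
  refine ⟨i, fun v hv j => ?_⟩
  by_contra hcon
  rw [not_le] at hcon
  refine absurd (hi j) (not_le.2 ?_)
  refine Finset.sum_lt_sum (fun w hw => ?_) ⟨v, hf.mem_toFinset.2 hv, hcon⟩
  rcases hC v hv w (hf.mem_toFinset.1 hw) with h | h
  · have h1 := h i
    have h2 := h j
    linarith
  · have h1 := h i
    have h2 := h j
    linarith

theorem mem_hull_level {n : ℕ} (f : Fin n → ℝ) (h0 : ∀ i, 0 ≤ f i) (h1 : ∀ i, f i < 1) :
    f ∈ convexHull ℝ ((fun c : ℝ => fun i => if c ≤ f i then (1 : ℝ) else 0) '' Set.Ioc 0 1) := by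
  classical
  obtain ⟨m, hm⟩ : ∃ m, (Finset.univ.filter fun i => f i ≠ 0).card = m := ⟨_, rfl⟩
  induction m using Nat.strong_induction_on generalizing f with
  | _ m ih =>
    by_cases hz : ∀ i, f i = 0
    · refine subset_convexHull _ _ ⟨1, ⟨one_pos, le_rfl⟩, ?_⟩
      funext i
      show (if (1 : ℝ) ≤ f i then (1 : ℝ) else 0) = f i
      rw [hz i, if_neg (by norm_num)]
    · push Not at hz
      obtain ⟨a, ha⟩ := hz
      obtain ⟨k, hk, hmin⟩ := Finset.exists_min_image (Finset.univ.filter fun i => f i ≠ 0) f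
        ⟨a, Finset.mem_filter.2 ⟨Finset.mem_univ _, ha⟩⟩
      have hk0 : f k ≠ 0 := (Finset.mem_filter.1 hk).2
      set c := f k with hc
      have hc0 : 0 < c := lt_of_le_of_ne (h0 k) (Ne.symm hk0)
      have hc1 : c < 1 := h1 k
      have hmin' : ∀ i, f i ≠ 0 → c ≤ f i := fun i hi => hmin i (Finset.mem_filter.2 ⟨Finset.mem_univ _, hi⟩)
      have h1c : 0 < 1 - c := by linarith
      let g : Fin n → ℝ := fun i => if f i = 0 then 0 else (f i - c) / (1 - c)
      have g0 : ∀ i, 0 ≤ g i := by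
        intro i
        show 0 ≤ if f i = 0 then (0 : ℝ) else (f i - c) / (1 - c)
        by_cases hi : f i = 0
        · rw [if_pos hi]
        · rw [if_neg hi]
          exact div_nonneg (by linarith [hmin' i hi]) h1c.le
      have g1 : ∀ i, g i < 1 := by
        intro i
        show (if f i = 0 then (0 : ℝ) else (f i - c) / (1 - c)) < 1
        by_cases hi : f i = 0
        · rw [if_pos hi]
          exact one_pos
        · rw [if_neg hi, div_lt_one h1c]
          linarith [h1 i]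
      have hcard : (Finset.univ.filter fun i => g i ≠ 0).card < m := by
        rw [← hm]
        refine Finset.card_lt_card ⟨fun i hi => ?_, fun hsub => ?_⟩
        · rw [Finset.mem_filter] at hi ⊢
          refine ⟨hi.1, fun h => hi.2 ?_⟩
          show (if f i = 0 then (0 : ℝ) else (f i - c) / (1 - c)) = 0
          rw [if_pos h]
        · have h2 := hsub hk
          rw [Finset.mem_filter] at h2
          refine h2.2 ?_
          show (if f k = 0 then (0 : ℝ) else (f k - c) / (1 - c)) = 0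
          rw [if_neg hk0, ← hc, sub_self, zero_div]
      have hg := ih _ hcard g g0 g1 rfl
      have hsub : ((fun d : ℝ => fun i => if d ≤ g i then (1 : ℝ) else 0) '' Set.Ioc 0 1) ⊆
          ((fun d : ℝ => fun i => if d ≤ f i then (1 : ℝ) else 0) '' Set.Ioc 0 1) := by
        rintro _ ⟨d, ⟨hd0, hd1⟩, rfl⟩
        refine ⟨c + (1 - c) * d, ⟨by positivity, by nlinarith⟩, ?_⟩
        funext i
        show (if c + (1 - c) * d ≤ f i then (1 : ℝ) else 0) =
          if d ≤ (if f i = 0 then (0 : ℝ) else (f i - c) / (1 - c)) then (1 : ℝ) else 0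
        by_cases hi : f i = 0
        · rw [if_pos hi, if_neg (not_le.2 hd0), if_neg]
          rw [hi, not_le]
          positivity
        · rw [if_neg hi]
          have h4 : d ≤ (f i - c) / (1 - c) ↔ d * (1 - c) ≤ f i - c := le_div_iff₀ h1c
          by_cases h3 : d * (1 - c) ≤ f i - c
          · rw [if_pos (h4.2 h3), if_pos (by linarith)]
          · rw [if_neg (fun h => h3 (h4.1 h)), if_neg (by intro h5; exact h3 (by linarith))]
      have hg' := convexHull_mono hsub hg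
      have hcl : (fun i => if c ≤ f i then (1 : ℝ) else 0) ∈
          convexHull ℝ ((fun d : ℝ => fun i => if d ≤ f i then (1 : ℝ) else 0) '' Set.Ioc 0 1) :=
        subset_convexHull _ _ ⟨c, ⟨hc0, hc1.le⟩, rfl⟩
      have hconv := (convex_convexHull ℝ ((fun d : ℝ => fun i => if d ≤ f i then (1 : ℝ) else 0) '' Set.Ioc 0 1)) hcl hg'
        hc0.le h1c.le (by ring)
      have e : f = c • (fun i => if c ≤ f i then (1 : ℝ) else 0) + (1 - c) • g := by
        funext i
        show f i = c * (if c ≤ f i then (1 : ℝ) else 0) + (1 - c) * (if f i = 0 then (0 : ℝ) else (f i - c) / (1 - c))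
        by_cases hi : f i = 0
        · rw [if_pos hi, hi, if_neg (not_le.2 hc0)]
          ring
        · rw [if_neg hi, if_pos (hmin' i hi), mul_div_cancel₀ _ h1c.ne']
          ring
      rw [← e] at hconv
      exact hconv

private theorem floor_add (x θ : ℝ) (h0 : 0 ≤ θ) (h1 : θ < 1) :
    ((⌊x + θ⌋ : ℤ) : ℝ) = (⌊x⌋ : ℝ) + if 1 - θ ≤ Int.fract x then (1 : ℝ) else 0 := by
  have hx : x = ⌊x⌋ + Int.fract x := (Int.floor_add_fract x).symm
  have f0 := Int.fract_nonneg x
  have f1 := Int.fract_lt_one x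
  by_cases h : 1 - θ ≤ Int.fract x
  · rw [if_pos h]
    have : ⌊x + θ⌋ = ⌊x⌋ + 1 := by
      rw [Int.floor_eq_iff]
      push_cast
      constructor <;> linarith
    rw [this]
    push_cast
    rfl
  · rw [if_neg h, add_zero]
    have : ⌊x + θ⌋ = ⌊x⌋ := by
      rw [Int.floor_eq_iff]
      constructor <;> linarith
    rw [this]

/-- every vector is in the convex hull of its roundings -/
theorem mem_hull_floor {n : ℕ} (x : Fin n → ℝ) :
    x ∈ convexHull ℝ ((fun θ : ℝ => fun i => ((⌊x i + θ⌋ : ℤ) : ℝ)) '' Set.Ico 0 1) := by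
  have h := mem_hull_level (fun i => Int.fract (x i)) (fun i => Int.fract_nonneg _) (fun i => Int.fract_lt_one _)
  have hconv : Convex ℝ {y : Fin n → ℝ | (fun i => (⌊x i⌋ : ℝ)) + y ∈
      convexHull ℝ ((fun θ : ℝ => fun i => ((⌊x i + θ⌋ : ℤ) : ℝ)) '' Set.Ico 0 1)} :=
    (convex_convexHull ℝ _).translate_preimage_right _
  have h2 := convexHull_min (t := {y : Fin n → ℝ | (fun i => (⌊x i⌋ : ℝ)) + y ∈
      convexHull ℝ ((fun θ : ℝ => fun i => ((⌊x i + θ⌋ : ℤ) : ℝ)) '' Set.Ico 0 1)}) (by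
    rintro _ ⟨c, ⟨hc0, hc1⟩, rfl⟩
    refine subset_convexHull _ _ ⟨1 - c, ⟨by linarith, by linarith⟩, ?_⟩
    funext i
    show ((⌊x i + (1 - c)⌋ : ℤ) : ℝ) = (⌊x i⌋ : ℝ) + if c ≤ Int.fract (x i) then (1 : ℝ) else 0
    rw [floor_add _ _ (by linarith) (by linarith), sub_sub_cancel]) hconv h
  have e : x = (fun i => (⌊x i⌋ : ℝ)) + fun i => Int.fract (x i) := funext fun i => (Int.floor_add_fract (x i)).symm
  have h3 : (fun i => (⌊x i⌋ : ℝ)) + (fun i => Int.fract (x i)) ∈
      convexHull ℝ ((fun θ : ℝ => fun i => ((⌊x i + θ⌋ : ℤ) : ℝ)) '' Set.Ico 0 1) := h2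
  rw [← e] at h3
  exact h3

theorem chn_floor {n : ℕ} (x : Fin n → ℝ) : Chn ((fun θ : ℝ => fun i => ⌊x i + θ⌋) '' Set.Ico 0 1) := by
  have key : ∀ (y : ℝ) {a b : ℝ}, 0 ≤ a → b < 1 → a ≤ b → ⌊y + a⌋ ≤ ⌊y + b⌋ ∧ ⌊y + b⌋ ≤ ⌊y + a⌋ + 1 := by
    intro y a b ha hb hab
    refine ⟨Int.floor_le_floor (by linarith), ?_⟩
    rw [← Int.floor_add_one]
    exact Int.floor_le_floor (by linarith)
  rintro _ ⟨a, ⟨ha0, ha1⟩, rfl⟩ _ ⟨b, ⟨hb0, hb1⟩, rfl⟩
  rcases le_total a b with h | h
  · exact Or.inl fun i => key (x i) ha0 hb1 h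
  · exact Or.inr fun i => key (x i) hb0 ha1 h

end Pool.Agent.H9.XM
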